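import Pool.Agent.H25C.Iso

/-!
# Local isometries of Pfister forms
-/

set_option autoImplicit false
set_option linter.all false

open IsDedekindDomain NumberField Polynomial Matrix WithZero
open scoped Classical

namespace Pool.Agent.H25C

open Pool.Agent.N783.PF (Apx Tf HV)
open Pool.Agent.N874.PP (Ev Sq1)
open Pool.Agent.H25P (approx)

variable {K : Type} [Field K] [NumberField K] {w : HeightOneSpectrum (𝓞 K)}

theorem unit_of {x : K} (hx : w.valuation K x = 1) {a : 𝓞 K}
    (ha : w.valuation K (x - (a : K)) < 1) : a ∉ w.asIdeal := by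
  intro h
  have h1 : w.valuation K (algebraMap (𝓞 K) K a) < 1 := (w.valuation_lt_one_iff_mem (K := K) a).2 h
  have e : x = (x - (a : K)) + algebraMap (𝓞 K) K a := by
    show x = (x - algebraMap (𝓞 K) K a) + algebraMap (𝓞 K) K a
    ring
  have h2 : w.valuation K x < 1 := by
    rw [e]
    exact lt_of_le_of_lt (Valuation.map_add _ _ _) (max_lt ha h1)
  rw [hx] at h2
  exact lt_irrefl _ h2

/-- Units are norms of an unramified quadratic extension. -/
theorem norm_rep (h2 : (2 : 𝓞 K) ∉ w.asIdeal) {d c : K} (hd : d ≠ 0) (hc : c ≠ 0)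
    (hde : Ev w d) (hce : Ev w c) :
    ∃ x y : K, x ^ 2 - d * y ^ 2 ≠ 0 ∧ ASq w (c / (x ^ 2 - d * y ^ 2)) := by
  obtain ⟨t, ht⟩ := hde
  obtain ⟨r, hr⟩ := hce
  have hd0 : w.valuation K d ≠ 0 := (Valuation.ne_zero_iff _).2 hd
  have hc0 : w.valuation K c ≠ 0 := (Valuation.ne_zero_iff _).2 hc
  have ht0 : t ≠ 0 := by
    rintro rfl
    rw [map_zero, zero_pow two_ne_zero] at ht
    exact hd0 ht
  have hr0 : r ≠ 0 := by
    rintro rfl
    rw [map_zero, zero_pow two_ne_zero] at hr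
    exact hc0 hr
  set d' : K := d / t ^ 2 with hd'
  set c' : K := c / r ^ 2 with hc'
  have hd1 : w.valuation K d' = 1 := by
    rw [hd', map_div₀, map_pow, ht, div_self]
    rw [← ht]
    exact hd0
  have hc1 : w.valuation K c' = 1 := by
    rw [hc', map_div₀, map_pow, hr, div_self]
    rw [← hr]
    exact hc0
  obtain ⟨a, ha⟩ := approx w hd1.le
  obtain ⟨b, hb⟩ := approx w hc1.le
  have hau := unit_of hd1 ha
  have hbu := unit_of hc1 hb
  letI : Field (𝓞 K ⧸ w.asIdeal) := @Ideal.Quotient.field _ _ w.asIdeal w.isMaximal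
  haveI : Finite (𝓞 K ⧸ w.asIdeal) := Ideal.finiteQuotientOfFreeOfNeBot _ w.ne_bot
  haveI := Fintype.ofFinite (𝓞 K ⧸ w.asIdeal)
  have h20 : (2 : 𝓞 K ⧸ w.asIdeal) ≠ 0 := by
    intro h0
    apply h2
    rw [← Ideal.Quotient.eq_zero_iff_mem, map_ofNat]
    exact h0
  have hodd : Fintype.card (𝓞 K ⧸ w.asIdeal) % 2 = 1 := by
    refine FiniteField.odd_card_of_char_ne_two ?_
    intro h3
    apply h20
    have := (ringChar.spec (𝓞 K ⧸ w.asIdeal) 2).2 (by rw [h3])
    exact_mod_cast this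
  have ha0 : Ideal.Quotient.mk w.asIdeal a ≠ 0 := by
    rwa [Ne, Ideal.Quotient.eq_zero_iff_mem]
  obtain ⟨x, y, hxy⟩ := FiniteField.exists_root_sum_quadratic (R := 𝓞 K ⧸ w.asIdeal)
    (f := X ^ 2 - C (Ideal.Quotient.mk w.asIdeal b))
    (g := -(C (Ideal.Quotient.mk w.asIdeal a)) * X ^ 2) (by
      rw [degree_sub_C] <;> rw [degree_X_pow]
      · rfl
      · norm_num) (by
      rw [← C_neg, degree_C_mul_X_pow 2 (neg_ne_zero.2 ha0)]
      rfl) hodd
  obtain ⟨x, rfl⟩ := Ideal.Quotient.mk_surjective x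
  obtain ⟨y, rfl⟩ := Ideal.Quotient.mk_surjective y
  have h3 : x ^ 2 - a * y ^ 2 - b ∈ w.asIdeal := by
    rw [← Ideal.Quotient.eq_zero_iff_mem]
    simp only [eval_sub, eval_pow, eval_X, eval_C, eval_mul, eval_neg] at hxy
    rw [map_sub, map_sub, map_mul, map_pow, map_pow]
    linear_combination hxy
  have h4 : w.valuation K (((x : K) ^ 2 - d * ((y : K) / t) ^ 2) - c') < 1 := by
    have e : ((x : K) ^ 2 - d * ((y : K) / t) ^ 2) - c' =
        algebraMap (𝓞 K) K (x ^ 2 - a * y ^ 2 - b) + (-(d' - (a : K)) * (y : K) ^ 2 -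
          (c' - (b : K))) := by
      have e1 : algebraMap (𝓞 K) K (x ^ 2 - a * y ^ 2 - b) =
          (x : K) ^ 2 - (a : K) * (y : K) ^ 2 - (b : K) := by
        rw [map_sub, map_sub, map_mul, map_pow, map_pow]
      rw [e1, hd']
      field_simp
      ring
    rw [e]
    refine lt_of_le_of_lt (Valuation.map_add _ _ _) (max_lt ?_ ?_)
    · rw [w.valuation_lt_one_iff_mem]
      exact h3
    · refine lt_of_le_of_lt (Valuation.map_sub _ _ _) (max_lt ?_ hb)
      rw [map_mul, Valuation.map_neg]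
      have h5 : w.valuation K ((y : K) ^ 2) ≤ 1 := by
        rw [map_pow]
        exact pow_le_one' (w.valuation_le_one y) 2
      calc w.valuation K (d' - (a : K)) * w.valuation K ((y : K) ^ 2) ≤
            w.valuation K (d' - (a : K)) * 1 := mul_le_mul' le_rfl h5
        _ < 1 := by rw [mul_one]; exact ha
  set N : K := (x : K) ^ 2 - d * ((y : K) / t) ^ 2 with hN
  have hN1 : w.valuation K N = 1 := by
    have e : N = (N - c') + c' := by ring
    rw [e, Valuation.map_add_eq_of_lt_right _ (by rw [hc1]; exact h4), hc1]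
  have hN0 : N ≠ 0 := by
    intro h0
    rw [h0, map_zero] at hN1
    exact zero_ne_one hN1
  refine ⟨x, (y : K) / t, hN0, asq_of_sq1 h2 (div_ne_zero hc hN0) ⟨r, ?_⟩⟩
  have e : c / N - r ^ 2 = -(r ^ 2 / N) * (N - c') := by
    rw [hc']
    field_simp
    ring
  have e2 : w.valuation K (c / N) = w.valuation K (r ^ 2) := by
    rw [map_div₀, hN1, div_one, map_pow, hr]
  show w.valuation K (c / N - r ^ 2) < w.valuation K (c / N)
  rw [e, e2, map_mul, Valuation.map_neg, map_div₀, hN1, div_one]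
  have h6 : w.valuation K (r ^ 2) ≠ 0 := (Valuation.ne_zero_iff _).2 (pow_ne_zero _ hr0)
  calc w.valuation K (r ^ 2) * w.valuation K (N - c') < w.valuation K (r ^ 2) * 1 :=
        mul_lt_mul_of_pos_left h4 (zero_lt_iff.2 h6)
    _ = _ := mul_one _

/-- A norm can be removed. -/
theorem apx_norm {d D c x y : K} (hN : x ^ 2 - d * y ^ 2 ≠ 0)
    (h : ASq w (c / (x ^ 2 - d * y ^ 2))) (hc : c ≠ 0) :
    Apx w (Matrix.diagonal (Pf d (D * c))) (Matrix.diagonal (Pf d D)) := by
  set N := x ^ 2 - d * y ^ 2 with hNd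
  have h1 := apx_right (w := w) (d := d) (D := D * c) (h.inv (div_ne_zero hc hN))
  have e1 : D * c * (c / N)⁻¹ = D * N := by field_simp
  rw [e1] at h1
  have h2 := apx_of_iso (w := w) (iso_norm d (D * N) (x / N) (y / N))
  have e2 : D * N * ((x / N) ^ 2 - d * (y / N) ^ 2) = D := by
    have e3 : (x / N) ^ 2 - d * (y / N) ^ 2 = N / N ^ 2 := by
      rw [div_pow, div_pow, hNd]
      ring
    rw [e3]
    field_simp
  rw [e2] at h2
  exact apx_trans h1 h2

/-- The split case. -/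
theorem apx_split {d D c : K} (hd : d ≠ 0) (hD : D ≠ 0)
    (h : ASq w d ∨ ASq w D ∨ ((2 : 𝓞 K) ∉ w.asIdeal ∧ Ev w d ∧ Ev w D)) :
    Apx w (Matrix.diagonal (Pf d D)) (Matrix.diagonal (Pf 1 c)) := by
  have h20 : (2 : K) ≠ 0 := two_ne_zero
  rcases h with h | h | ⟨h2, hde, hDe⟩
  · have h1 := apx_left (w := w) (d := d) (D := D) (h.inv hd)
    rw [mul_inv_cancel₀ hd] at h1
    exact apx_trans h1 (apx_of_iso (iso_hyp h20 hD c))
  · have h1 := apx_right (w := w) (d := d) (D := D) (h.inv hD)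
    rw [mul_inv_cancel₀ hD] at h1
    exact apx_trans h1 (apx_of_iso ((iso_swap d 1).trans (iso_hyp h20 hd c)))
  · obtain ⟨x, y, hN, hA⟩ := norm_rep h2 hd hD hde hDe
    have h1 := apx_norm (w := w) (D := 1) hN hA hD
    rw [one_mul] at h1
    exact apx_trans h1 (apx_of_iso ((iso_swap d 1).trans (iso_hyp h20 hd c)))

/-- The other case. -/
theorem apx_inert {d D c u : K} (h2 : (2 : 𝓞 K) ∉ w.asIdeal) (hd : d ≠ 0) (hD : D ≠ 0)
    (hc : c ≠ 0) (hde : Ev w d) (hDe : Ev w (D / c)) (hu : ASq w (u / d)) :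
    Apx w (Matrix.diagonal (Pf d D)) (Matrix.diagonal (Pf u c)) := by
  obtain ⟨x, y, hN, hA⟩ := norm_rep h2 hd (div_ne_zero hD hc) hde hDe
  have h1 := apx_norm (w := w) (D := c) hN hA (div_ne_zero hD hc)
  have e1 : c * (D / c) = D := by field_simp
  rw [e1] at h1
  have h3 := apx_left (w := w) (d := d) (D := c) hu
  have e2 : d * (u / d) = u := by field_simp
  rw [e2] at h3
  exact apx_trans h1 h3

end Pool.Agent.H25C
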