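import Mathlib

/-!
# Discriminants which are not divisible by the square of a prime
-/

set_option autoImplicit false
set_option linter.all false

open IsDedekindDomain Polynomial Matrix

namespace Pool.Agent.H25C

/-- The adjugate of a matrix of corank at least two is zero. -/
theorem adj_zero {k n : Type*} [Field k] [Fintype n] [DecidableEq n] (A : Matrix n n k)
    (u v : n → k) (hu : A *ᵥ u = 0) (hv : A *ᵥ v = 0)
    (hlin : ∀ a b : k, a • u + b • v = 0 → a = 0 ∧ b = 0) : A.adjugate = 0 := by
  ext i j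
  rw [Matrix.adjugate_apply, Matrix.zero_apply]
  obtain ⟨w, hw0, hw, hwi⟩ : ∃ w : n → k, w ≠ 0 ∧ A *ᵥ w = 0 ∧ w i = 0 := by
    by_cases h : u i = 0
    · refine ⟨u, ?_, hu, h⟩
      rintro rfl
      have := (hlin 1 0 (by simp)).1
      exact one_ne_zero this
    · refine ⟨u i • v - v i • u, ?_, ?_, ?_⟩
      · intro h0
        have := (hlin (-(v i)) (u i) (by rw [neg_smul, neg_add_eq_sub]; exact h0)).2
        exact h this
      · rw [Matrix.mulVec_sub, Matrix.mulVec_smul, Matrix.mulVec_smul, hu, hv, smul_zero,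
          smul_zero, sub_zero]
      · simp only [Pi.sub_apply, Pi.smul_apply, smul_eq_mul]
        ring
  refine Matrix.exists_mulVec_eq_zero_iff.1 ⟨w, hw0, ?_⟩
  funext l
  rw [Pi.zero_apply]
  by_cases hl : l = j
  · subst hl
    show (A.updateRow l (Pi.single i 1)) l ⬝ᵥ w = 0
    rw [Matrix.updateRow_self, single_one_dotProduct, hwi]
  · show (A.updateRow j (Pi.single i 1)) l ⬝ᵥ w = 0
    rw [Matrix.updateRow_ne hl]
    exact congrFun hw l

/-- If the adjugate is zero modulo a prime, then the determinant is divisible by its square. -/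
theorem det_mem_sq {R n : Type*} [CommRing R] [IsDomain R] [IsDedekindDomain R] [Fintype n]
    [DecidableEq n] [Nonempty n] (v : HeightOneSpectrum R) (A : Matrix n n R)
    (h : ∀ i j, A.adjugate i j ∈ v.asIdeal) : A.det ∈ v.asIdeal ^ 2 := by
  have hN : 0 < Fintype.card n := Fintype.card_pos
  have h1 : A.adjugate.det ∈ v.asIdeal ^ Fintype.card n := by
    rw [Matrix.det_apply]
    refine Ideal.sum_mem _ fun σ _ => ?_
    have h2 : ∏ i, A.adjugate (σ i) i ∈ ∏ _i : n, v.asIdeal :=
      Ideal.prod_mem_prod fun i _ => h _ _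
    rw [Finset.prod_const, Finset.card_univ] at h2
    rcases Int.units_eq_one_or (Equiv.Perm.sign σ) with e | e
    · rw [e, one_smul]
      exact h2
    · rw [e, Units.neg_smul, one_smul]
      exact (Submodule.neg_mem_iff _).2 h2
  rw [Matrix.det_adjugate] at h1
  by_contra hcon
  rw [← HeightOneSpectrum.intValuation_le_pow_iff_mem] at h1 hcon
  have h3 : WithZero.exp (-(1 : ℤ)) ≤ v.intValuation A.det := by
    by_contra hlt
    rw [not_le] at hlt
    apply hcon
    by_cases h0 : A.det = 0
    · rw [h0, map_zero]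
      exact zero_le'
    · have h4 : v.intValuation A.det ≠ 0 := v.intValuation_ne_zero _ h0
      obtain ⟨m, hm⟩ : ∃ m : ℤ, v.intValuation A.det = WithZero.exp m :=
        ⟨WithZero.log (v.intValuation A.det), (WithZero.exp_log h4).symm⟩
      rw [hm, WithZero.exp_lt_exp] at hlt
      rw [hm, WithZero.exp_le_exp]
      push_cast
      omega
  rw [map_pow] at h1
  have h4 : (WithZero.exp (-(1 : ℤ))) ^ (Fintype.card n - 1) ≤
      v.intValuation A.det ^ (Fintype.card n - 1) := pow_le_pow_left₀ zero_le' h3 _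
  have h5 := h4.trans h1
  rw [← WithZero.exp_nsmul, WithZero.exp_le_exp] at h5
  simp only [nsmul_eq_mul] at h5
  push_cast [Nat.cast_sub hN] at h5
  omega

/-- Two polynomials with a common factor of degree at least two: the adjugate of the Sylvester
matrix is zero. -/
theorem adj_syl {k : Type*} [Field k] {F F' G : k[X]} {m n : ℕ} (hm : F.natDegree ≤ m)
    (hn : F'.natDegree ≤ n) (hF : F ≠ 0) (hG : 2 ≤ G.natDegree) (h1 : G ∣ F) (h2 : G ∣ F') :
    (sylvester F F' m n).adjugate = 0 := by
  obtain ⟨F₁, rfl⟩ := h1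
  obtain ⟨F₂, rfl⟩ := h2
  have hG0 : G ≠ 0 := fun h => by rw [h, zero_mul] at hF; exact hF rfl
  have hF₁ : F₁ ≠ 0 := fun h => by rw [h, mul_zero] at hF; exact hF rfl
  have hd1 : F₁.natDegree + 2 ≤ m := by
    rw [natDegree_mul hG0 hF₁] at hm
    omega
  have hd2 : F₂ = 0 ∨ F₂.natDegree + 2 ≤ n := by
    by_cases h : F₂ = 0
    · exact Or.inl h
    · right
      rw [natDegree_mul hG0 h] at hn
      omega
  -- kernel vectors
  have hp : ∀ t : k[X], t.natDegree ≤ 1 → t * F₁ ∈ degreeLT k m := by
    intro t ht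
    rw [mem_degreeLT]
    by_cases h0 : t * F₁ = 0
    · rw [h0, degree_zero]
      exact WithBot.bot_lt_coe m
    · rw [← natDegree_lt_iff_degree_lt h0]
      have := natDegree_mul_le (p := t) (q := F₁)
      omega
  have hq : ∀ t : k[X], t.natDegree ≤ 1 → -(t * F₂) ∈ degreeLT k n := by
    intro t ht
    rw [mem_degreeLT, degree_neg]
    by_cases h0 : t * F₂ = 0
    · rw [h0, degree_zero]
      exact WithBot.bot_lt_coe n
    · have h3 : F₂ ≠ 0 := fun h => h0 (by rw [h, mul_zero])
      rw [← natDegree_lt_iff_degree_lt h0]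
      have := natDegree_mul_le (p := t) (q := F₂)
      have := hd2.resolve_left h3
      omega
  let b₁ := ((degreeLT.basis k m).prod (degreeLT.basis k n)).reindex finSumFinEquiv
  let b₂ := degreeLT.basis k (m + n)
  let x : (t : k[X]) → t.natDegree ≤ 1 → degreeLT k m × degreeLT k n := fun t ht =>
    (⟨t * F₁, hp t ht⟩, ⟨-(t * F₂), hq t ht⟩)
  have hker : ∀ (t : k[X]) (ht : t.natDegree ≤ 1),
      sylvester (G * F₁) (G * F₂) m n *ᵥ (b₁.repr (x t ht)) = 0 := by
    intro t ht
    have h3 := LinearMap.toMatrix_mulVec_repr b₁ b₂ (sylvesterMap (G * F₁) (G * F₂) hm hn) (x t ht)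
    rw [toMatrix_sylvesterMap'] at h3
    rw [h3]
    have h4 : sylvesterMap (G * F₁) (G * F₂) hm hn (x t ht) = 0 := by
      apply Subtype.ext
      rw [sylvesterMap_apply_coe]
      show G * F₁ * (-(t * F₂)) + G * F₂ * (t * F₁) = 0
      ring
    rw [h4, map_zero]
    rfl
  have h1d : (1 : k[X]).natDegree ≤ 1 := by simp
  have hXd : (X : k[X]).natDegree ≤ 1 := natDegree_X_le
  refine adj_zero _ (b₁.repr (x 1 h1d)) (b₁.repr (x X hXd)) (hker 1 h1d) (hker X hXd) fun a b hab => ?_
  have h5 : b₁.repr (a • x 1 h1d + b • x X hXd) = 0 := by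
    rw [map_add, map_smul, map_smul]
    ext i
    exact congrFun hab i
  have h6 : a • x 1 h1d + b • x X hXd = 0 := by
    rwa [map_eq_zero_iff _ b₁.repr.injective] at h5
  have h7 : (C a + C b * X) * F₁ = 0 := by
    have h8 := congrArg (fun z : degreeLT k m × degreeLT k n => ((z.1 : degreeLT k m) : k[X])) h6
    have h9 : a • (1 * F₁) + b • (X * F₁) = 0 := h8
    rw [smul_eq_C_mul, smul_eq_C_mul] at h9
    linear_combination h9
  have h8 : C a + C b * X = 0 := (mul_eq_zero.1 h7).resolve_right hF₁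
  constructor
  · have := congrArg (fun z : k[X] => z.coeff 0) h8
    simpa using this
  · have := congrArg (fun z : k[X] => z.coeff 1) h8
    simpa using this

end Pool.Agent.H25C
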