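import Mathlib

/-!
# The discriminant of an irreducible polynomial of odd degree over a finite field is a square
-/

set_option autoImplicit false
set_option linter.all false

open Polynomial
open scoped Classical

namespace Pool.Agent.H25C

/-- The norm as a resultant. -/
theorem nrm {k : Type} [Field k] [Finite k] {F : k[X]} (hm : F.Monic) (hi : Irreducible F)
    (hsep : F.Separable) (p : k[X]) (n : ℕ) (hp : p.natDegree ≤ n) :
    Algebra.norm k (aeval (AdjoinRoot.root F) p) = F.resultant p F.natDegree n := by
  haveI : Fact (Irreducible F) := ⟨hi⟩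
  let pb := AdjoinRoot.powerBasis hm.ne_zero
  haveI : FiniteDimensional k (AdjoinRoot F) := pb.finite
  have hmp : minpoly k (AdjoinRoot.root F) = F := by
    rw [AdjoinRoot.minpoly_root hm.ne_zero, hm.leadingCoeff, inv_one, C_1, mul_one]
  haveI : Algebra.IsSeparable k (AdjoinRoot F) := inferInstance
  set E := AlgebraicClosure (AdjoinRoot F)
  apply (algebraMap k E).injective
  rw [Algebra.norm_eq_prod_embeddings]
  have hsp : (F.map (algebraMap k E)).Splits := IsAlgClosed.splits _
  have hm' : (F.map (algebraMap k E)).Monic := hm.map _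
  have hdeg' : (F.map (algebraMap k E)).natDegree = F.natDegree := hm.natDegree_map _
  rw [← resultant_map_map, ← hdeg', resultant_eq_prod_eval _ _ _ (natDegree_map_le.trans hp) hsp,
    hm'.leadingCoeff, one_pow, one_mul]
  have hmp' : minpoly k pb.gen = F := hmp
  have hnd : ((minpoly k pb.gen).aroots E).Nodup := by
    rw [hmp']
    exact nodup_roots hsep.map
  have key : ∏ σ : AdjoinRoot F →ₐ[k] E, σ (aeval (AdjoinRoot.root F) p) =
      ∏ x : {y : E // y ∈ (minpoly k pb.gen).aroots E}, (p.map (algebraMap k E)).eval (x : E) :=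
    Fintype.prod_equiv pb.liftEquiv' _ _ fun σ => by
      rw [PowerBasis.liftEquiv'_apply_coe, ← aeval_algHom_apply, eval_map_algebraMap]
      rfl
  rw [key, Finset.prod_mem_multiset _ _ (fun x => (p.map (algebraMap k E)).eval x)
    (fun _ => rfl), Finset.prod_eq_multiset_prod, Multiset.toFinset_val,
    Multiset.dedup_eq_self.mpr hnd, hmp']

/-- The discriminant is a square. -/
theorem dsq {k : Type} [Field k] [Finite k] {F : k[X]} (hm : F.Monic) (hi : Irreducible F) {g : ℕ}
    (hd : F.natDegree = 2 * g + 1) :
    ∃ c : k, c ≠ 0 ∧ (-1) ^ g * F.resultant (derivative F) (2 * g + 1) (2 * g) = c ^ 2 := by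
  haveI : Fact (Irreducible F) := ⟨hi⟩
  have hsep : F.Separable := PerfectField.separable_of_irreducible hi
  let pb := AdjoinRoot.powerBasis hm.ne_zero
  haveI : FiniteDimensional k (AdjoinRoot F) := pb.finite
  haveI : Finite (AdjoinRoot F) := Module.finite_of_finite k
  have hmp : minpoly k (AdjoinRoot.root F) = F := by
    rw [AdjoinRoot.minpoly_root hm.ne_zero, hm.leadingCoeff, inv_one, C_1, mul_one]
  have hfr : Module.finrank k (AdjoinRoot F) = 2 * g + 1 := by
    rw [pb.finrank, ← hd]
    rfl
  let E := AlgebraicClosure (AdjoinRoot F)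
  obtain ⟨e⟩ : Nonempty (Fin pb.dim ≃ (AdjoinRoot F →ₐ[k] E)) := by
    refine ⟨Fintype.equivOfCardEq ?_⟩
    rw [Fintype.card_fin, AlgHom.card]
    exact pb.finrank.symm
  have h1 := Algebra.discr_powerBasis_eq_prod k E pb e
  have h2 := Algebra.discr_powerBasis_eq_norm k pb
  -- the conjugates are in the field
  have h3 : ∀ i, ∃ x : AdjoinRoot F, algebraMap (AdjoinRoot F) E x = e i pb.gen := by
    intro i
    have hs : (F.map (algebraMap k (AdjoinRoot F))).Splits := by
      have := Normal.splits (F := k) (K := AdjoinRoot F) inferInstance (AdjoinRoot.root F)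
      rwa [hmp] at this
    have h4 := hs.eq_prod_roots_of_monic (hm.map _)
    have h5 : (F.map (algebraMap k E)).eval (e i pb.gen) = 0 := by
      rw [eval_map_algebraMap, aeval_algHom_apply]
      have : aeval pb.gen F = 0 := by
        show aeval (AdjoinRoot.root F) F = 0
        rw [AdjoinRoot.aeval_eq, AdjoinRoot.mk_self]
      rw [this, map_zero]
    have h6 : F.map (algebraMap k E) = (F.map (algebraMap k (AdjoinRoot F))).map
        (algebraMap (AdjoinRoot F) E) := by
      rw [Polynomial.map_map, ← IsScalarTower.algebraMap_eq]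
    rw [h6, h4, Polynomial.map_multiset_prod, Multiset.map_map, eval_multiset_prod,
      Multiset.map_map, Multiset.prod_eq_zero_iff, Multiset.mem_map] at h5
    obtain ⟨x, -, hx⟩ := h5
    refine ⟨x, ?_⟩
    simp only [Function.comp_apply, Polynomial.map_sub, map_X, map_C, eval_sub, eval_X,
      eval_C] at hx
    exact (sub_eq_zero.1 hx).symm
  choose x hx using h3
  set δ : AdjoinRoot F := ∏ i : Fin pb.dim, ∏ j ∈ Finset.Ioi i, (x j - x i) with hδ
  have h4 : algebraMap k (AdjoinRoot F) (Algebra.discr k pb.basis) = δ ^ 2 := by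
    apply (algebraMap (AdjoinRoot F) E).injective
    rw [← IsScalarTower.algebraMap_apply, h1, hδ, ← Finset.prod_pow, map_prod]
    refine Finset.prod_congr rfl fun i _ => ?_
    rw [← Finset.prod_pow, map_prod]
    refine Finset.prod_congr rfl fun j _ => ?_
    rw [map_pow, map_sub, hx, hx]
  set D := Algebra.discr k pb.basis with hD
  have hD0 : D ≠ 0 := Algebra.discr_not_zero_of_basis k pb.basis
  have h5 : D ^ (2 * g + 1) = (Algebra.norm k δ) ^ 2 := by
    rw [← map_pow, ← h4, Algebra.norm_algebraMap, hfr]
  refine ⟨Algebra.norm k δ / D ^ g, ?_, ?_⟩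
  · refine div_ne_zero ?_ (pow_ne_zero _ hD0)
    intro h0
    rw [h0, zero_pow two_ne_zero] at h5
    exact hD0 (pow_eq_zero_iff (by omega) |>.1 h5)
  · have h6 : (-1 : k) ^ g * F.resultant (derivative F) (2 * g + 1) (2 * g) = D := by
      have hgen : pb.gen = AdjoinRoot.root F := rfl
      have hF' : (derivative F).natDegree ≤ 2 * g := by
        refine (natDegree_derivative_le _).trans ?_
        rw [hd]
        omega
      rw [h2, hfr, hgen, hmp, nrm hm hi hsep _ (2 * g) hF', hd]
      congr 1
      have e1 : (2 * g + 1) * (2 * g + 1 - 1) / 2 = 2 * (g * g) + g := by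
        have : (2 * g + 1) * (2 * g + 1 - 1) = (2 * (g * g) + g) * 2 := by
          rw [Nat.add_sub_cancel]
          ring
        rw [this, Nat.mul_div_cancel _ two_pos]
      rw [e1, pow_add, pow_mul]
      simp
    rw [h6, div_pow, ← h5]
    field_simp
    ring

end Pool.Agent.H25C
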