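import Pool.Agent.H25C.Cor
import Pool.Agent.H25U.Fin
import Pool.Agent.N783.PF.Final

/-!
# The reduction at the primes which divide the discriminant exactly once
-/

set_option autoImplicit false
set_option linter.all false

open IsDedekindDomain NumberField Polynomial
open scoped Classical

namespace Pool.Agent.H25C

open Pool.Agent.N783.PF

variable {K : Type} [Field K] [NumberField K]

/-- The reduction of the polynomial at a prime which divides the discriminant exactly once. -/
theorem node {g : ℕ} (hg : 1 ≤ g) {f : (𝓞 K)[X]} (hm : f.Monic) (hd : f.natDegree = 2 * g + 1)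
    (v : HeightOneSpectrum (𝓞 K)) (h2 : (2 : 𝓞 K) ∉ v.asIdeal)
    (h1 : ¬ (rd v.asIdeal f).Separable) (hsq : dsc g f ∉ v.asIdeal ^ 2) :
    ∃ (a : 𝓞 K ⧸ v.asIdeal) (h : (𝓞 K ⧸ v.asIdeal)[X]),
      rd v.asIdeal f = (X - C a) ^ 2 * h ∧ h.Separable ∧ h.eval a ≠ 0 := by
  letI : Field (𝓞 K ⧸ v.asIdeal) := @Ideal.Quotient.field _ _ v.asIdeal v.isMaximal
  set F := rd v.asIdeal f with hF
  have hFm : F.Monic := hm.map _
  have hFd : F.natDegree = 2 * g + 1 := by
    rw [hF, rd, hm.natDegree_map, hd]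
  have hF'd : (derivative F).natDegree ≤ 2 * g := by
    refine (natDegree_derivative_le _).trans ?_
    rw [hFd]
    omega
  have h20 : (2 : 𝓞 K ⧸ v.asIdeal) ≠ 0 := by
    intro h0
    apply h2
    rw [← Ideal.Quotient.eq_zero_iff_mem, map_ofNat]
    exact h0
  -- common factors have degree at most one
  have key : ∀ G : (𝓞 K ⧸ v.asIdeal)[X], G ∣ F → G ∣ derivative F → G.natDegree ≤ 1 := by
    intro G hG1 hG2
    by_contra hlt
    apply hsq
    have h3 := adj_syl (m := 2 * g + 1) (n := 2 * g) hFd.le hF'd hFm.ne_zero (by omega) hG1 hG2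
    unfold dsc
    rw [resultant]
    refine det_mem_sq v _ fun i j => ?_
    rw [← Ideal.Quotient.eq_zero_iff_mem]
    have h4 := RingHom.map_adjugate (Ideal.Quotient.mk v.asIdeal)
      (sylvester f (derivative f) (2 * g + 1) (2 * g))
    rw [← sylvester_map_map, ← derivative_map] at h4
    rw [hF, rd] at h3
    rw [h3] at h4
    have h5 := congrFun (congrFun h4 i) j
    exact h5
  -- a common root
  have hnc : ¬ IsCoprime F (derivative F) := h1
  set G := EuclideanDomain.gcd F (derivative F) with hG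
  have hG1 : G ∣ F := EuclideanDomain.gcd_dvd_left _ _
  have hG2 : G ∣ derivative F := EuclideanDomain.gcd_dvd_right _ _
  have hGd : G.natDegree ≤ 1 := key G hG1 hG2
  have hG0 : G ≠ 0 := fun h0 => hFm.ne_zero (by rw [h0] at hG1; exact zero_dvd_iff.1 hG1)
  have hGu : ¬ IsUnit G := by
    intro hu
    apply hnc
    rwa [← EuclideanDomain.gcd_isUnit_iff]
  have hGd1 : G.natDegree = 1 := by
    have : G.natDegree ≠ 0 := fun h0 => hGu (isUnit_iff_degree_eq_zero.2 (by
      rw [degree_eq_natDegree hG0, h0]; rfl))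
    omega
  obtain ⟨a, ha⟩ : ∃ a, G.IsRoot a := by
    refine ⟨-G.coeff 0 / G.coeff 1, ?_⟩
    have h3 : G = C (G.coeff 1) * X + C (G.coeff 0) := eq_X_add_C_of_natDegree_le_one hGd
    have h4 : G.coeff 1 ≠ 0 := by
      rw [← hGd1]
      exact leadingCoeff_ne_zero.2 hG0
    rw [IsRoot, h3]
    simp only [eval_add, eval_mul, eval_C, eval_X, coeff_add, coeff_C_mul, coeff_X_one,
      coeff_C_zero, coeff_X_zero]
    simp only [mul_one, coeff_C_succ, add_zero, mul_zero, zero_add]
    field_simp
    ring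
  have haF : F.IsRoot a := ha.dvd hG1
  have haF' : (derivative F).IsRoot a := ha.dvd hG2
  obtain ⟨F₁, hF₁⟩ := dvd_iff_isRoot.2 haF
  have haF₁ : F₁.IsRoot a := by
    have h3 : derivative F = F₁ + (X - C a) * derivative F₁ := by
      rw [hF₁, derivative_mul, derivative_sub, derivative_X, derivative_C, sub_zero, one_mul]
    rw [IsRoot, h3, eval_add, eval_mul, eval_sub, eval_X, eval_C, sub_self, zero_mul,
      add_zero] at haF'
    exact haF'
  obtain ⟨h, hh⟩ := dvd_iff_isRoot.2 haF₁
  have hFh : F = (X - C a) ^ 2 * h := by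
    rw [hF₁, hh]
    ring
  have hder : derivative F = (X - C a) * (2 * h + (X - C a) * derivative h) := by
    rw [hFh, derivative_mul, derivative_pow, derivative_sub, derivative_X, derivative_C, sub_zero]
    simp only [Nat.cast_ofNat, map_ofNat]
    ring
  have hev : h.eval a ≠ 0 := by
    intro h0
    obtain ⟨h', hh'⟩ := dvd_iff_isRoot.2 (show h.IsRoot a from h0)
    have h3 := key ((X - C a) ^ 2) ⟨h, hFh⟩ (by
      rw [hder, hh']
      exact ⟨2 * h' + derivative ((X - C a) * h'), by ring⟩)
    rw [natDegree_pow, natDegree_X_sub_C] at h3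
    omega
  refine ⟨a, h, hFh, ?_, hev⟩
  -- separability
  by_contra hns
  have hnc' : ¬ IsCoprime h (derivative h) := hns
  set π := EuclideanDomain.gcd h (derivative h) with hπ
  have hπ1 : π ∣ h := EuclideanDomain.gcd_dvd_left _ _
  have hπ2 : π ∣ derivative h := EuclideanDomain.gcd_dvd_right _ _
  have hh0 : h ≠ 0 := fun h0 => hev (by rw [h0, eval_zero])
  have hπ0 : π ≠ 0 := fun h0 => hh0 (by rw [h0] at hπ1; exact zero_dvd_iff.1 hπ1)
  have hπu : ¬ IsUnit π := by
    intro hu
    apply hnc'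
    rwa [← EuclideanDomain.gcd_isUnit_iff]
  have hπd : π.natDegree ≠ 0 := fun h0 => hπu (isUnit_iff_degree_eq_zero.2 (by
      rw [degree_eq_natDegree hπ0, h0]; rfl))
  have h3 := key ((X - C a) * π) (by
      rw [hFh, pow_two, mul_assoc]
      exact mul_dvd_mul_left _ (hπ1.mul_left _)) (by
      rw [hder]
      exact mul_dvd_mul_left _ (dvd_add (hπ1.mul_left _) (hπ2.mul_left _)))
  rw [natDegree_mul (X_sub_C_ne_zero a) hπ0, natDegree_X_sub_C] at h3
  omega

end Pool.Agent.H25C
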