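import Pool.Agent.H25C.Quad
import Pool.Agent.H25C.Res
import Pool.Agent.H25C.Dsq

/-!
# The root number over all extensions in the class, from the reciprocity law
-/

set_option autoImplicit false
set_option linter.all false

open IsDedekindDomain NumberField Polynomial
open scoped Classical IntermediateField Pointwise

namespace Pool.Agent.H25C

open Pool.Agent.H25U
open Pool.Agent.H25P (Fixed Signs smul_coe fM even_inf real_ext)
open Pool.Agent.N783.PF (dsc rd fF)
open Pool.Agent.N874.PP (Ev Sq1)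

/-- The quadratic reciprocity law for the number field `K`. -/
def RCP (K : Type) [Field K] [NumberField K] : Prop := ∀ (d D : K), d ≠ 0 → D ≠ 0 →
  (∀ u : HeightOneSpectrum (𝓞 K), (2 : 𝓞 K) ∈ u.asIdeal →
    IsSquare (algebraMap K (u.adicCompletion K) d)) →
  (∀ ρ : K →+* ℝ, 0 < ρ d) →
  (∀ u : HeightOneSpectrum (𝓞 K), (2 : 𝓞 K) ∉ u.asIdeal → Sq1 u d ∨ Sq1 u D ∨
    (Ev u d ∧ (Ev u D ∨ ∀ p : ℕ, p.Prime → (p : 𝓞 K) ∈ u.asIdeal →
      (p : 𝓞 K) ∉ u.asIdeal ^ 2))) →
  Even ({u : HeightOneSpectrum (𝓞 K) | (2 : 𝓞 K) ∉ u.asIdeal ∧ ¬ Sq1 u d ∧ ¬ Ev u D}.ncard)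

/-- The properties of the local root numbers, with split nodal reduction. -/
structure SignsC (K : Type) [Field K] [NumberField K] {M : Type} [Field M] [NumberField M]
    [Algebra K M] (f : (𝓞 M)[X]) (w : HeightOneSpectrum (𝓞 M) → ℤ) : Prop extends
    Signs K f w where
  split : ∀ v : HeightOneSpectrum (𝓞 M), (2 : 𝓞 M) ∉ v.asIdeal →
    ∀ (a c : 𝓞 M ⧸ v.asIdeal) (h : (𝓞 M ⧸ v.asIdeal)[X]), rd v.asIdeal f = (X - C a) ^ 2 * h →
    h.Separable → h.eval a = c ^ 2 → c ≠ 0 → w v = -1

section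

variable {K M : Type} [Field K] [NumberField K] [Field M] [NumberField M] [Algebra K M]

/-- Elements of a finite field are squares in an extension of even degree. -/
theorem sq_even {k k' : Type*} [Field k] [Field k'] [Finite k] [Finite k'] [Algebra k k'] {m : ℕ}
    (h : Module.finrank k k' = 2 * m) (c : k) : ∃ c' : k', c' ^ 2 = algebraMap k k' c := by
  haveI := Fintype.ofFinite k
  haveI := Fintype.ofFinite k'
  haveI : FiniteDimensional k k' := Module.Finite.of_finite
  by_cases h0 : c = 0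
  · exact ⟨0, by rw [h0, map_zero]; ring⟩
  by_cases h2 : ringChar k' = 2
  · haveI := ringChar.charP k'
    obtain ⟨c', hc'⟩ := FiniteField.isSquare_of_char_two h2 (algebraMap k k' c)
    exact ⟨c', by rw [hc', pow_two]⟩
  have hc0 : algebraMap k k' c ≠ 0 := (_root_.map_ne_zero _).2 h0
  obtain ⟨c', hc'⟩ := (FiniteField.isSquare_iff h2 hc0).2 (by
    have hcard : Fintype.card k' = Fintype.card k ^ (2 * m) := by
      rw [← h]
      exact Module.card_eq_pow_finrank
    have hodd : Fintype.card k' % 2 = 1 := FiniteField.odd_card_of_char_ne_two h2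
    have hodd1 : Odd (Fintype.card k) := by
      rcases Nat.even_or_odd (Fintype.card k) with he | ho
      · exfalso
        rw [hcard] at hodd
        have hm : 0 < m := by
          rcases Nat.eq_zero_or_pos m with h3 | h3
          · subst h3
            have : 0 < Module.finrank k k' := Module.finrank_pos
            omega
          · exact h3
        have h4 : Even (Fintype.card k ^ (2 * m)) := he.pow_of_ne_zero (by omega)
        rw [Nat.even_iff] at h4
        omega
      · exact ho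
    obtain ⟨r, hr⟩ := hodd1
    have h5 : (Fintype.card k - 1) ∣ Fintype.card k' / 2 := by
      rw [hcard, hr, pow_mul]
      have h6 : ((2 * r + 1) ^ 2) ≡ 1 [MOD (4 * (r * (r + 1)))] := by
        have e : (2 * r + 1) ^ 2 = 4 * (r * (r + 1)) * 1 + 1 := by ring
        rw [e]
        exact (Nat.modEq_iff_dvd' (by omega)).2 ⟨1, by omega⟩ |>.symm
      have h7 : 4 * (r * (r + 1)) ∣ ((2 * r + 1) ^ 2) ^ m - 1 := by
        have h8 := (h6.pow m).symm
        rw [one_pow] at h8
        exact (Nat.modEq_iff_dvd' (Nat.one_le_pow _ _ (by positivity))).1 h8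
      obtain ⟨t, ht⟩ := h7
      have h9 : 1 ≤ ((2 * r + 1) ^ 2) ^ m := Nat.one_le_pow _ _ (by positivity)
      have h10 : ((2 * r + 1) ^ 2) ^ m = 2 * (2 * r * ((r + 1) * t)) + 1 := by
        have : ((2 * r + 1) ^ 2) ^ m = 4 * (r * (r + 1)) * t + 1 := by omega
        rw [this]
        ring
      rw [h10]
      have e2 : (2 * (2 * r * ((r + 1) * t)) + 1) / 2 = 2 * r * ((r + 1) * t) := by omega
      rw [e2, Nat.add_sub_cancel]
      exact Dvd.intro _ rfl
    obtain ⟨t, ht⟩ := h5
    rw [ht, pow_mul, ← map_pow, FiniteField.pow_card_sub_one_eq_one c h0, map_one, one_pow])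
  exact ⟨c', by rw [hc', pow_two]⟩

/-- Elements of the residue field below are squares at an unramified stable prime. -/
theorem sq_res [IsGalois K M] {n : ℕ} (hn : Module.finrank K M = 2 ^ n) (h1 : 1 ≤ n)
    {v : HeightOneSpectrum (𝓞 M)} (hfix : Fixed K v) (hur : Unr K v)
    (c : 𝓞 K ⧸ (below K v).asIdeal) : ∃ c' : 𝓞 M ⧸ v.asIdeal, c' ^ 2 =
      Ideal.quotientMap v.asIdeal (algebraMap (𝓞 K) (𝓞 M)) (le_refl (below K v).asIdeal) c := by
  haveI := v.isPrime
  haveI := v.isMaximal
  haveI := (below K v).isPrime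
  haveI := (below K v).isMaximal
  haveI hlo : v.asIdeal.LiesOver (below K v).asIdeal := ⟨rfl⟩
  haveI := perfect (below K v)
  have h3 := Ideal.card_stabilizer_eq_card_inertia_mul_finrank (G := M ≃ₐ[K] M)
    (below K v).asIdeal v.asIdeal
  have h4 : MulAction.stabilizer (M ≃ₐ[K] M) v.asIdeal = ⊤ := by
    rw [eq_top_iff]
    intro σ _
    rw [MulAction.mem_stabilizer_iff]
    ext x
    rw [Ideal.mem_pointwise_smul_iff_inv_smul_mem,
      ← HeightOneSpectrum.valuation_lt_one_iff_mem (K := M),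
      ← HeightOneSpectrum.valuation_lt_one_iff_mem (K := M)]
    show v.valuation M (σ⁻¹ (x : M)) < 1 ↔ _
    rw [hfix]
  have h5 : (v.asIdeal.inertia (M ≃ₐ[K] M)) = ⊥ := by
    rw [eq_bot_iff]
    intro σ hσ
    rw [Subgroup.mem_bot]
    exact hur σ hσ
  rw [h4, h5, Subgroup.card_bot, one_mul,
    Nat.card_congr (Subgroup.topEquiv (G := M ≃ₐ[K] M)).toEquiv,
    IsGalois.card_aut_eq_finrank, hn,
    Ideal.inertiaDeg_eq_of_isMaximal (below K v).asIdeal v.asIdeal] at h3
  letI : Field (𝓞 K ⧸ (below K v).asIdeal) := Ideal.Quotient.field _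
  letI : Field (𝓞 M ⧸ v.asIdeal) := Ideal.Quotient.field _
  haveI : Finite (𝓞 K ⧸ (below K v).asIdeal) :=
    Ideal.finiteQuotientOfFreeOfNeBot _ (below K v).ne_bot
  haveI : Finite (𝓞 M ⧸ v.asIdeal) := Ideal.finiteQuotientOfFreeOfNeBot _ v.ne_bot
  obtain ⟨j, rfl⟩ : ∃ j, n = j + 1 := ⟨n - 1, by omega⟩
  rw [pow_succ, mul_comm] at h3
  obtain ⟨c', hc'⟩ := sq_even h3.symm c
  exact ⟨c', hc'⟩

/-- The prime below. -/
theorem exists_over (u : HeightOneSpectrum (𝓞 K)) : ∃ v : HeightOneSpectrum (𝓞 M),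
    below K v = u := by
  haveI := u.isPrime
  haveI := u.isMaximal
  obtain ⟨P, hP, hlo⟩ := Ideal.exists_maximal_ideal_liesOver_of_isIntegral (S := 𝓞 M) u.asIdeal
  have hne : P ≠ ⊥ := by
    rintro rfl
    apply u.ne_bot
    rw [hlo.over]
    exact Ideal.under_bot _ _
  refine ⟨⟨P, hP.isPrime, hne⟩, ?_⟩
  apply HeightOneSpectrum.ext
  exact hlo.over.symm

/-- A stable prime is the only prime over the prime below. -/
theorem unique_over [IsGalois K M] {v v' : HeightOneSpectrum (𝓞 M)} (hfix : Fixed K v)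
    (h : below K v = below K v') : v = v' := by
  haveI := v.isPrime
  haveI := v'.isPrime
  haveI hlo : v.asIdeal.LiesOver (below K v).asIdeal := ⟨rfl⟩
  haveI hlo' : v'.asIdeal.LiesOver (below K v).asIdeal := ⟨by rw [h]; rfl⟩
  obtain ⟨σ, hσ⟩ := Ideal.exists_smul_eq_of_isGaloisGroup (below K v).asIdeal v.asIdeal v'.asIdeal
    (M ≃ₐ[K] M)
  apply HeightOneSpectrum.ext
  rw [← hσ]
  ext x
  rw [Ideal.mem_pointwise_smul_iff_inv_smul_mem,
      ← HeightOneSpectrum.valuation_lt_one_iff_mem (K := M),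
      ← HeightOneSpectrum.valuation_lt_one_iff_mem (K := M)]
  show _ ↔ v.valuation M (σ⁻¹ (x : M)) < 1
  rw [hfix]

theorem deg_der {g : ℕ} {f : (𝓞 K)[X]} (hd : f.natDegree = 2 * g + 1) :
    (derivative f).natDegree ≤ 2 * g := by
  refine (natDegree_derivative_le _).trans ?_
  rw [hd]
  omega

/-- The reduction is separable if the discriminant is a unit. -/
theorem sep_of {g : ℕ} {f : (𝓞 K)[X]} (hd : f.natDegree = 2 * g + 1)
    {u : HeightOneSpectrum (𝓞 K)} (h : dsc g f ∉ u.asIdeal) : (rd u.asIdeal f).Separable := by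
  obtain ⟨p, q, -, -, hpq⟩ := Polynomial.exists_mul_add_mul_eq_C_resultant f (derivative f)
    hd.le (deg_der hd) (Or.inl (by omega))
  letI : Field (𝓞 K ⧸ u.asIdeal) := @Ideal.Quotient.field _ _ u.asIdeal u.isMaximal
  have h3 := congrArg (Polynomial.map (Ideal.Quotient.mk u.asIdeal)) hpq
  have h4 : Ideal.Quotient.mk u.asIdeal (dsc g f) ≠ 0 := by
    rwa [Ne, Ideal.Quotient.eq_zero_iff_mem]
  rw [Polynomial.map_add, Polynomial.map_mul, Polynomial.map_mul, map_C] at h3
  refine ⟨C (Ideal.Quotient.mk u.asIdeal (dsc g f))⁻¹ * p.map (Ideal.Quotient.mk u.asIdeal),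
    C (Ideal.Quotient.mk u.asIdeal (dsc g f))⁻¹ * q.map (Ideal.Quotient.mk u.asIdeal), ?_⟩
  rw [derivative_map]
  have h5 : C (Ideal.Quotient.mk u.asIdeal (dsc g f))⁻¹ * C (Ideal.Quotient.mk u.asIdeal
      (dsc g f)) = 1 := by
    rw [← C_mul, inv_mul_cancel₀ h4, C_1]
  rw [← h5]
  unfold dsc
  rw [← h3]
  ring

theorem not_mem_of_sep {g : ℕ} (hg : 1 ≤ g) {f : (𝓞 K)[X]} (hm : f.Monic)
    (hd : f.natDegree = 2 * g + 1)
    {u : HeightOneSpectrum (𝓞 K)} (h : (rd u.asIdeal f).Separable) : dsc g f ∉ u.asIdeal :=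
  Pool.Agent.N352.PF.dscT K g u.asIdeal f f hg u.isPrime u.ne_bot hm hd
    (fun j => by rw [sub_self]; exact Ideal.zero_mem _) h

theorem sep_up' {f : (𝓞 K)[X]} {v : HeightOneSpectrum (𝓞 M)}
    (hi : (rd (below K v).asIdeal f).Separable) : (rd v.asIdeal (fM M f)).Separable := by
  have h2 : rd v.asIdeal (fM M f) = (rd (below K v).asIdeal f).map
      (Ideal.quotientMap v.asIdeal (algebraMap (𝓞 K) (𝓞 M)) (le_refl (below K v).asIdeal)) := by
    unfold rd fM
    rw [Polynomial.map_map, Polynomial.map_map]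
    congr 1
  rw [h2]
  exact hi.map

/-- The discriminant is a square modulo a prime modulo which `f` is irreducible. -/
theorem sq_disc {g : ℕ} {f : (𝓞 K)[X]} (hm : f.Monic) (hd : f.natDegree = 2 * g + 1)
    {u : HeightOneSpectrum (𝓞 K)} (hi : Irreducible (rd u.asIdeal f)) :
    Sq1 u (((-1) ^ g * dsc g f : 𝓞 K) : K) := by
  letI : Field (𝓞 K ⧸ u.asIdeal) := @Ideal.Quotient.field _ _ u.asIdeal u.isMaximal
  haveI : Finite (𝓞 K ⧸ u.asIdeal) := Ideal.finiteQuotientOfFreeOfNeBot _ u.ne_bot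
  obtain ⟨c, hc0, hc⟩ := dsq (k := 𝓞 K ⧸ u.asIdeal) (hm.map (Ideal.Quotient.mk u.asIdeal)) hi
    (g := g) (by rw [hm.natDegree_map, hd])
  obtain ⟨b, rfl⟩ := Ideal.Quotient.mk_surjective c
  have h1 : ((-1) ^ g * dsc g f) - b ^ 2 ∈ u.asIdeal := by
    rw [← Ideal.Quotient.eq, map_mul, map_pow, map_pow, map_neg, map_one, ← hc, dsc,
      ← resultant_map_map, derivative_map]
  have h2 : ((-1) ^ g * dsc g f) ∉ u.asIdeal := by
    intro h3
    apply hc0
    rw [Ideal.Quotient.eq_zero_iff_mem]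
    have h4 : b ^ 2 ∈ u.asIdeal := by
      have := Ideal.sub_mem _ h3 h1
      rwa [sub_sub_cancel] at this
    exact u.isPrime.mem_of_pow_mem _ h4
  refine ⟨(b : K), ?_⟩
  have h3 : u.valuation K (algebraMap (𝓞 K) K ((-1) ^ g * dsc g f)) = 1 := by
    refine le_antisymm (u.valuation_le_one _) (not_lt.1 fun h => h2 ?_)
    exact (u.valuation_lt_one_iff_mem (K := K) _).1 h
  have e : algebraMap (𝓞 K) K ((-1) ^ g * dsc g f) - (b : K) ^ 2 =
      algebraMap (𝓞 K) K ((-1) ^ g * dsc g f - b ^ 2) := by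
    rw [map_sub, map_pow]
  show u.valuation K (algebraMap (𝓞 K) K ((-1) ^ g * dsc g f) - (b : K) ^ 2) <
    u.valuation K (algebraMap (𝓞 K) K ((-1) ^ g * dsc g f))
  rw [h3, e, u.valuation_lt_one_iff_mem]
  exact h1

theorem val_one {u : HeightOneSpectrum (𝓞 K)} {x : 𝓞 K} (h : x ∉ u.asIdeal) :
    u.valuation K (algebraMap (𝓞 K) K x) = 1 := by
  refine le_antisymm (u.valuation_le_one _) (not_lt.1 fun h3 => h ?_)
  exact (u.valuation_lt_one_iff_mem (K := K) _).1 h3

theorem ev_of_unit {u : HeightOneSpectrum (𝓞 K)} {x : 𝓞 K} (h : x ∉ u.asIdeal) :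
    Ev u (algebraMap (𝓞 K) K x) := ⟨1, by rw [val_one h, map_one, one_pow]⟩

theorem not_ev {u : HeightOneSpectrum (𝓞 K)} {x : 𝓞 K} (h : x ∈ u.asIdeal)
    (h2 : x ∉ u.asIdeal ^ 2) : ¬ Ev u (algebraMap (𝓞 K) K x) := by
  rintro ⟨y, hy⟩
  have hx0 : x ≠ 0 := fun h0 => h2 (by rw [h0]; exact Ideal.zero_mem _)
  have h3 : u.valuation K (algebraMap (𝓞 K) K x) ≠ 0 :=
    (Valuation.ne_zero_iff _).2 (by
      intro h0
      exact hx0 ((IsFractionRing.to_map_eq_zero_iff (R := 𝓞 K) (K := K)).1 h0))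
  have h4 : u.valuation K y ≠ 0 := by
    intro h0
    rw [h0, zero_pow two_ne_zero] at hy
    exact h3 hy
  have h5 : u.valuation K (algebraMap (𝓞 K) K x) = u.intValuation x :=
    u.valuation_of_algebraMap x
  have h6 : u.intValuation x < 1 := (u.intValuation_lt_one_iff_mem x).2 h
  have h7 : ¬ u.intValuation x ≤ WithZero.exp (-((2 : ℕ) : ℤ)) := by
    rw [HeightOneSpectrum.intValuation_le_pow_iff_mem]
    exact h2
  rw [← h5, hy] at h6 h7
  obtain ⟨m, hm⟩ : ∃ m : ℤ, u.valuation K y = WithZero.exp m :=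
    ⟨WithZero.log (u.valuation K y), (WithZero.exp_log h4).symm⟩
  rw [hm, ← WithZero.exp_nsmul] at h6 h7
  rw [← WithZero.exp_zero, WithZero.exp_lt_exp] at h6
  rw [WithZero.exp_le_exp] at h7
  simp only [nsmul_eq_mul] at h6 h7
  push_cast at h6 h7
  omega

theorem dsc_ne {g : ℕ} {f : (𝓞 K)[X]} (hm : f.Monic) (hd : f.natDegree = 2 * g + 1)
    (hi : Irreducible (fF f)) : dsc g f ≠ 0 := by
  intro h0
  have hinj : Function.Injective (algebraMap (𝓞 K) K) := NumberField.RingOfIntegers.coe_injective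
  have hdeg : (fF f).natDegree = 2 * g + 1 := by rw [fF, hm.natDegree_map, hd]
  have hdeg' : (derivative (fF f)).natDegree = 2 * g := by
    rw [natDegree_derivative, hdeg, Nat.add_sub_cancel]
  have h1 : (fF f).resultant (derivative (fF f)) = 0 := by
    rw [hdeg, hdeg', fF, derivative_map, resultant_map_map]
    unfold dsc at h0
    rw [h0, map_zero]
  exact ((Polynomial.resultant_eq_zero_iff).1 h1).2 hi.separable

/-- The data of a good polynomial which are used. -/
structure Data (K : Type) [Field K] [NumberField K] (g : ℕ) (S : Finset ℕ) (f : (𝓞 K)[X]) :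
    Prop where
  mon : f.Monic
  deg : f.natDegree = 2 * g + 1
  irr : Irreducible (fF f)
  sqf : ∀ u : HeightOneSpectrum (𝓞 K), (∃ q ∈ S, (q : 𝓞 K) ∈ u.asIdeal) ∨
    dsc g f ∉ u.asIdeal ^ 2
  unr : ∀ u : HeightOneSpectrum (𝓞 K), (rd u.asIdeal f).Separable ∨
    ∀ p : ℕ, p.Prime → (p : 𝓞 K) ∈ u.asIdeal → (p : 𝓞 K) ∉ u.asIdeal ^ 2

/-- The product of the local root numbers. -/
theorem prd_one [IsGalois K M] (hR : RCP K) {g : ℕ} (hg : 1 ≤ g) {S : Finset ℕ} {f : (𝓞 K)[X]}
    (hf : Data K g S f) (hM : InCl K S f M) (hnt : Module.finrank K M ≠ 1)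
    (hi : Irreducible (fF (fM M f)))
    {w : HeightOneSpectrum (𝓞 M) → ℤ} (hw : SignsC K (fM M f) w) (k : ℕ) :
    (-1 : ℤ) ^ (k * Nat.card (InfinitePlace M)) * ∏ᶠ v, w v = 1 := by
  obtain ⟨n, hn⟩ := hM.deg
  have h1 : 1 ≤ n := by
    by_contra h0
    have h1 : n = 0 := by omega
    subst h1
    exact hnt hn
  have hinf : Even (Nat.card (InfinitePlace M)) := even_inf hn h1 hM.inf
  by_cases hcyc : IsCyclic (M ≃ₐ[K] M)
  swap
  · exact root_one hn hcyc hM.two hinf hf.mon hi hM.ram hw.toSigns k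
  obtain ⟨d, s, τ, hs0, hs, hτ, hgen⟩ := quad hn h1 hcyc
  have hd0 : d ≠ 0 := by
    rintro rfl
    rw [map_zero] at hs
    exact hs0 (pow_eq_zero_iff two_ne_zero |>.1 hs)
  -- the group is not trivial
  have htriv : ¬ ∀ σ : M ≃ₐ[K] M, σ = 1 := by
    intro h
    have h3 := h τ
    rw [h3, AlgEquiv.one_apply] at hτ
    have h4 : 2 * s = 0 := by linear_combination hτ
    exact hs0 ((mul_eq_zero.1 h4).resolve_left two_ne_zero)
  have hspl : ∀ v : HeightOneSpectrum (𝓞 M), Spl K v → ¬ Fixed K v :=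
    fun v hv hfix => htriv fun σ => hv σ (hfix σ)
  have htwo : ∀ v : HeightOneSpectrum (𝓞 M), (2 : 𝓞 K) ∈ (below K v).asIdeal → ¬ Fixed K v := by
    intro v hv hfix
    obtain ⟨φ⟩ := hM.two _ hv
    exact htriv (Pool.Agent.H25P.card_of_fixed hfix (u := below K v) (fun a ha => ha) φ)
  have hmem2 : ∀ v : HeightOneSpectrum (𝓞 M),
      (2 : 𝓞 M) ∈ v.asIdeal ↔ (2 : 𝓞 K) ∈ (below K v).asIdeal := by
    intro v
    rw [mem_below, map_ofNat]
  have hS : ∀ (v : HeightOneSpectrum (𝓞 M)) (q : ℕ), q ∈ S → (q : 𝓞 K) ∈ (below K v).asIdeal →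
      Spl K v := by
    intro v q hq hv
    refine hM.spl q hq v ?_
    rwa [mem_below, map_natCast] at hv
  set Δ : 𝓞 K := (-1) ^ g * dsc g f with hΔ
  have hunit : IsUnit ((-1 : 𝓞 K) ^ g) := (IsUnit.neg isUnit_one).pow g
  have hΔmem : ∀ I : Ideal (𝓞 K), Δ ∈ I ↔ dsc g f ∈ I := by
    intro I
    rw [hΔ]
    exact Ideal.unit_mul_mem_iff_mem I hunit
  have hΔ0 : Δ ≠ 0 := mul_ne_zero (pow_ne_zero _ (neg_ne_zero.2 one_ne_zero))
    (dsc_ne hf.mon hf.deg hf.irr)
  -- the reciprocity law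
  have hrec := hR d (Δ : K) hd0 (by
      intro h0
      exact hΔ0 (NumberField.RingOfIntegers.coe_eq_zero_iff.1 h0))
    (fun u hu => by
      obtain ⟨φ⟩ := hM.two u hu
      refine ⟨φ s, ?_⟩
      rw [← φ.commutes, ← hs, map_pow, pow_two])
    (fun ρ => by
      obtain ⟨t, ht⟩ := real_ext hM.inf ρ
      have h3 : ρ d = t s ^ 2 := by
        rw [← map_pow, hs, ← ht]
        rfl
      rw [h3]
      have h4 : t s ≠ 0 := (_root_.map_ne_zero t).2 hs0
      positivity)
    (fun u hu => by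
      obtain ⟨v, rfl⟩ := exists_over (K := K) (M := M) u
      rcases hM.ram v with hur | hir
      · by_cases hsq : Sq1 (below K v) d
        · exact Or.inl hsq
        right
        right
        have hval := val_below (L := K) (𝔓 := v) hur
        constructor
        · obtain ⟨t, ht⟩ := (below K v).valuation_surjective K (v.valuation M s)
          refine ⟨t, ?_⟩
          rw [ht, ← map_pow, hs, hval]
        · by_cases hm : dsc g f ∈ (below K v).asIdeal
          · right
            rcases hf.unr (below K v) with h | h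
            · exact absurd hm (not_mem_of_sep hg hf.mon hf.deg h)
            · exact h
          · left
            exact ev_of_unit (fun h => hm ((hΔmem _).1 h))
      · right
        left
        exact sq_disc hf.mon hf.deg hir)
  -- the product
  have hfin := hw.toSigns.finite (hf.mon.map _) hi
  rw [Pool.Agent.H25P.pr hn w hw.sign hfin hw.conj]
  have hcard : {v | w v = -1 ∧ Fixed K v}.ncard =
      {u : HeightOneSpectrum (𝓞 K) | (2 : 𝓞 K) ∉ u.asIdeal ∧ ¬ Sq1 u d ∧
        ¬ Ev u (Δ : K)}.ncard := by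
    refine Set.ncard_congr (fun v _ => below K v) ?_ ?_ ?_
    · rintro v ⟨hv, hfix⟩
      have h2 : (2 : 𝓞 K) ∉ (below K v).asIdeal := fun h => htwo v h hfix
      have h2' : (2 : 𝓞 M) ∉ v.asIdeal := fun h => h2 ((hmem2 v).1 h)
      have hns : ¬ (rd (below K v).asIdeal f).Separable := by
        intro h
        have h4 := hw.good v h2' (sep_up' h)
        rw [hv] at h4
        exact absurd h4 (by decide)
      have hur : Unr K v := by
        rcases hM.ram v with h | h
        · exact h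
        · exfalso
          have h4 := hw.good v h2' (Pool.Agent.H25P.sep_up (𝔭 := (below K v).asIdeal) rfl
            (below K v).ne_bot h)
          rw [hv] at h4
          exact absurd h4 (by decide)
      refine ⟨h2, not_sq hfix h2' hs0 hs hτ (val_below hur), ?_⟩
      refine not_ev ?_ ?_
      · rw [hΔmem]
        by_contra h
        exact hns (sep_of hf.deg h)
      · rw [hΔmem]
        rcases hf.sqf (below K v) with ⟨q, hq, hqu⟩ | h
        · exact absurd hfix (hspl v (hS v q hq hqu))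
        · exact h
    · rintro v v' ⟨-, hfix⟩ - h
      exact unique_over hfix h
    · rintro u ⟨h2, hsq, hev⟩
      obtain ⟨v, rfl⟩ := exists_over (K := K) (M := M) u
      have h2' : (2 : 𝓞 M) ∉ v.asIdeal := fun h => h2 ((hmem2 v).1 h)
      have hmem : dsc g f ∈ (below K v).asIdeal := by
        by_contra h
        exact hev (ev_of_unit (fun h3 => h ((hΔmem _).1 h3)))
      have hns : ¬ (rd (below K v).asIdeal f).Separable := fun h =>
        not_mem_of_sep hg hf.mon hf.deg h hmem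
      have hur : Unr K v := by
        rcases hM.ram v with h | h
        · exact h
        · exfalso
          haveI : Finite (𝓞 K ⧸ (below K v).asIdeal) :=
            Ideal.finiteQuotientOfFreeOfNeBot _ (below K v).ne_bot
          letI : Field (𝓞 K ⧸ (below K v).asIdeal) :=
            @Ideal.Quotient.field _ _ (below K v).asIdeal (below K v).isMaximal
          exact hns (PerfectField.separable_of_irreducible h)
      have hfix : Fixed K v := by
        by_contra hfix
        exact hsq (sq_of hn hfix hur h2' hs0 hs hτ hgen)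
      have hsqf : dsc g f ∉ (below K v).asIdeal ^ 2 := by
        rcases hf.sqf (below K v) with ⟨q, hq, hqu⟩ | h
        · exact absurd hfix (hspl v (hS v q hq hqu))
        · exact h
      refine ⟨v, ⟨?_, hfix⟩, rfl⟩
      obtain ⟨a, h, hfac, hsep, hev2⟩ := node hg hf.mon hf.deg (below K v) h2 hns hsqf
      obtain ⟨c, hc⟩ := sq_res hn h1 hfix hur (h.eval a)
      set ι := Ideal.quotientMap v.asIdeal (algebraMap (𝓞 K) (𝓞 M))
        (le_refl (below K v).asIdeal) with hι
      letI : Field (𝓞 K ⧸ (below K v).asIdeal) :=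
        @Ideal.Quotient.field _ _ (below K v).asIdeal (below K v).isMaximal
      letI : Field (𝓞 M ⧸ v.asIdeal) := @Ideal.Quotient.field _ _ v.asIdeal v.isMaximal
      refine hw.split v h2' (ι a) c (h.map ι) ?_ hsep.map ?_ ?_
      · have h5 : rd v.asIdeal (fM M f) = (rd (below K v).asIdeal f).map ι := by
          unfold rd fM
          rw [Polynomial.map_map, Polynomial.map_map]
          congr 1
        rw [h5, hfac]
        simp only [Polynomial.map_mul, Polynomial.map_pow, Polynomial.map_sub, map_X, map_C]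
      · rw [eval_map, eval₂_at_apply, hc]
      · intro h0
        rw [h0, zero_pow two_ne_zero] at hc
        exact hev2 ((map_eq_zero ι).1 hc.symm)
  rw [hcard, hrec.neg_one_pow, mul_one]
  exact (hinf.mul_left k).neg_one_pow

end

end Pool.Agent.H25C
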