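import Pool.Agent.N545.PF.TFQ

/-!
# The norm modulo an unramified prime
-/

set_option autoImplicit false
set_option linter.all false

open Matrix NumberField IsDedekindDomain Module

namespace Pool.Agent.H25C

open Pool.Agent.N545.PF

section

variable {L : Type} [Field L] [NumberField L] {q : ℕ} {κ : Type} [Fintype κ] [DecidableEq κ]
  {w : κ → 𝓞 L}

/-- The norm in terms of a basis modulo `q`. -/
theorem norm_det (hq : q.Prime) (hw : QB q w) {m : ℤ} (a : 𝓞 L) (α : κ → κ → ℤ)
    (h : ∀ j, m • (a * w j) = ∑ i, α i j • w i) :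
    m ^ Fintype.card κ * Algebra.norm ℤ a = (Matrix.of α).det := by
  obtain ⟨B, hB⟩ := hw.basis hq
  have h1 : ((m ^ Fintype.card κ * Algebra.norm ℤ a : ℤ) : ℚ) = (((Matrix.of α).det : ℤ) : ℚ) := by
    have e0 : (((Matrix.of α).det : ℤ) : ℚ) = ((Matrix.of α).map (Int.castRingHom ℚ)).det := by
      rw [← RingHom.mapMatrix_apply, ← RingHom.map_det]
      rfl
    have e1 : (Matrix.of α).map (Int.castRingHom ℚ) =
        (m : ℚ) • Algebra.leftMulMatrix B (a : L) := by
      ext i j
      rw [Matrix.map_apply, Matrix.smul_apply, Algebra.leftMulMatrix_eq_repr_mul, of_apply]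
      have e1 : (m : ℚ) • ((a : L) * B j) = ∑ i, (α i j : ℚ) • B i := by
        have h2 := congrArg (fun y : 𝓞 L => (y : L)) (h j)
        simp only [map_zsmul, map_sum, map_mul] at h2
        rw [hB]
        have e3 : ∀ (n : ℤ) (x : L), (n : ℚ) • x = n • x := by
          intro n x
          rw [Algebra.smul_def, zsmul_eq_mul, map_intCast]
        rw [e3]
        have e4 : ∑ i, (α i j : ℚ) • B i = ∑ i, α i j • (w i : L) :=
          Finset.sum_congr rfl fun i _ => by rw [e3, hB]
        rw [e4]
        exact h2
      have e2 := congrArg (fun y => B.repr y i) e1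
      simp only [map_smul, map_sum, Finsupp.smul_apply, Finsupp.finsetSum_apply, B.repr_self,
        smul_eq_mul, Finsupp.single_apply, mul_ite, mul_one, mul_zero, Finset.sum_ite_eq',
        Finset.mem_univ, if_true] at e2
      simpa using e2.symm
    rw [e0, e1, Matrix.det_smul, ← Algebra.norm_eq_matrix_det B]
    push_cast
    rw [Algebra.coe_norm_int]
  exact_mod_cast h1

end

section

variable {L : Type} [Field L] [NumberField L] {q : ℕ} [hq : Fact q.Prime]
  {Q J : Ideal (𝓞 L)} {e : 𝓞 L}

/-- The norm modulo `q` of an element which is `1` modulo `J`. -/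
theorem norm_res (h : Spl q Q J e) {K : Type} [Field K] [Algebra (ZMod q) K] (φ : 𝓞 L →+* K)
    (hφ : Function.Surjective φ) (hk : ∀ a, φ a = 0 ↔ a ∈ Q) [FiniteDimensional (ZMod q) K]
    {u : 𝓞 L} (hu : u - 1 ∈ J) :
    ((Algebra.norm ℤ u : ℤ) : ZMod q) = Algebra.norm (ZMod q) (φ u) := by
  set b := Module.finBasis (ZMod q) K with hb
  obtain ⟨r, x, y, hxJ, hxb, hy, hw⟩ := exists_qb h φ hφ hk b
  obtain ⟨m, hm, hm2⟩ := hw.nak
  have hm1 : (m : ZMod q) = 1 := by
    have := (ZMod.intCast_zmod_eq_zero_iff_dvd _ _).2 hm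
    push_cast at this
    exact sub_eq_zero.1 this
  choose α hα using fun j => hm2 (u * Sum.elim x y j)
  have h1 := norm_det hq.out hw u (fun i j => α j i) hα
  have h2 := congrArg (fun n : ℤ => (n : ZMod q)) h1
  simp only [Int.cast_mul, Int.cast_pow, hm1, one_pow, one_mul] at h2
  rw [h2]
  have e0 : (((Matrix.of fun i j => α j i).det : ℤ) : ZMod q) =
      ((Matrix.of fun i j => α j i).map (Int.castRingHom (ZMod q))).det := by
    rw [← RingHom.mapMatrix_apply, ← RingHom.map_det]
    rfl
  rw [e0]
  have e1 : (Matrix.of fun i j => α j i).map (Int.castRingHom (ZMod q)) =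
      Matrix.fromBlocks (Algebra.leftMulMatrix b (φ u)) 0 0 1 := by
    ext i j
    rw [Matrix.map_apply, of_apply]
    rcases j with j | j
    · -- the column of `x j`
      choose β hβ using fun i => ZMod.intCast_surjective (Algebra.leftMulMatrix b (φ u) i j)
      have h3 : u * x j - ∑ i, β i • x i ∈ Ideal.span {(q : 𝓞 L)} := by
        refine h.inter ?_ ?_
        · rw [← hk, map_sub, map_sum, map_mul, hxb, sub_eq_zero]
          have h4 : φ u * b j = ∑ i, Algebra.leftMulMatrix b (φ u) i j • b i := by
            rw [← b.sum_repr (φ u * b j)]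
            refine Finset.sum_congr rfl fun l _ => ?_
            rw [Algebra.leftMulMatrix_eq_repr_mul]
          rw [h4]
          refine Finset.sum_congr rfl fun l _ => ?_
          rw [map_zsmul, hxb, ← hβ, cast_smul, zsmul_eq_mul]
        · refine Ideal.sub_mem _ (J.mul_mem_left _ (hxJ j)) (Submodule.sum_mem _ fun i _ => ?_)
          exact Submodule.smul_of_tower_mem _ _ (hxJ i)
      have h5 : ∑ i, (α (Sum.inl j) i - Sum.elim (fun i => m * β i) (fun _ => 0) i) •
          Sum.elim x y i ∈ Ideal.span {(q : 𝓞 L)} := by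
        have h6 : ∑ i, (α (Sum.inl j) i - Sum.elim (fun i => m * β i) (fun _ => 0) i) •
            Sum.elim x y i = m • (u * x j - ∑ i, β i • x i) := by
          simp only [sub_smul, Finset.sum_sub_distrib]
          rw [← hα (Sum.inl j), smul_sub]
          congr 1
          rw [Fintype.sum_sum_type]
          simp only [Sum.elim_inl, Sum.elim_inr, zero_smul, Finset.sum_const_zero, add_zero,
            Finset.smul_sum, mul_smul]
        rw [h6]
        exact Submodule.smul_of_tower_mem _ _ h3
      have h7 := hw.ind _ h5 i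
      have h8 : ((α (Sum.inl j) i : ℤ) : ZMod q) =
          ((Sum.elim (fun i => m * β i) (fun _ => 0) i : ℤ) : ZMod q) := by
        rw [← sub_eq_zero, ← Int.cast_sub, ZMod.intCast_zmod_eq_zero_iff_dvd]
        exact h7
      show ((α (Sum.inl j) i : ℤ) : ZMod q) = _
      rw [h8]
      rcases i with i | i
      · rw [Sum.elim_inl, Int.cast_mul, hm1, one_mul, hβ, Matrix.fromBlocks_apply₁₁]
      · rw [Sum.elim_inr, Int.cast_zero, Matrix.fromBlocks_apply₂₁, Matrix.zero_apply]
    · -- the column of `y j`
      have h3 : u * y j - y j ∈ Ideal.span {(q : 𝓞 L)} := by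
        have e2 : u * y j - y j = y j * (u - 1) := by ring
        rw [e2]
        exact h.prod (hy j) hu
      have h5 : ∑ i, (α (Sum.inr j) i - Sum.elim (fun _ => 0) (fun i => if i = j then m else 0) i) •
          Sum.elim x y i ∈ Ideal.span {(q : 𝓞 L)} := by
        have h6 : ∑ i, (α (Sum.inr j) i - Sum.elim (fun _ => 0) (fun i => if i = j then m else 0) i) •
            Sum.elim x y i = m • (u * y j - y j) := by
          simp only [sub_smul, Finset.sum_sub_distrib]
          rw [← hα (Sum.inr j), smul_sub]
          congr 1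
          rw [Fintype.sum_sum_type]
          simp only [Sum.elim_inl, Sum.elim_inr, zero_smul, Finset.sum_const_zero, zero_add,
            ite_smul, Finset.sum_ite_eq', Finset.mem_univ, if_true]
        rw [h6]
        exact Submodule.smul_of_tower_mem _ _ h3
      have h7 := hw.ind _ h5 i
      have h8 : ((α (Sum.inr j) i : ℤ) : ZMod q) =
          ((Sum.elim (fun _ => 0) (fun i => if i = j then m else 0) i : ℤ) : ZMod q) := by
        rw [← sub_eq_zero, ← Int.cast_sub, ZMod.intCast_zmod_eq_zero_iff_dvd]
        exact h7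
      show ((α (Sum.inr j) i : ℤ) : ZMod q) = _
      rw [h8]
      rcases i with i | i
      · rw [Sum.elim_inl, Int.cast_zero, Matrix.fromBlocks_apply₁₂, Matrix.zero_apply]
      · rw [Sum.elim_inr, Matrix.fromBlocks_apply₂₂, Matrix.one_apply]
        split_ifs
        · exact hm1
        · rw [Int.cast_zero]
  rw [e1, Matrix.det_fromBlocks_zero₁₂, Matrix.det_one, mul_one, ← Algebra.norm_eq_matrix_det b]

end

end Pool.Agent.H25C
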