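import Pool.Agent.H25C.Tfr2
import Pool.Agent.H25C.Cas
import Pool.Agent.H25C.Nrm
import Pool.Agent.H25C.Prd
import Pool.Agent.N394.PQ.PRD

/-!
# The quadratic reciprocity law for number fields
-/

set_option autoImplicit false
set_option linter.all false
set_option maxHeartbeats 1000000

open IsDedekindDomain NumberField Polynomial Matrix WithZero Module
open scoped Classical

namespace Pool.Agent.H25C

open Pool.Agent.N783.PF (Apx Tf HV)
open Pool.Agent.N202.M4 (hasse hil IsSymbol)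
open Pool.Agent.N874.PP (Ev Sq1)
open Pool.Agent.H25P (approx nat_prime_mem prime_unique)
open Pool.Agent.N545.PF (Spl exists_spl norm_sq_iff)

variable {K : Type} [Field K] [NumberField K] {w : HeightOneSpectrum (𝓞 K)}

theorem ev_of_sq1 {x : K} (h : Sq1 w x) : Ev w x := by
  obtain ⟨s, hs⟩ := h
  refine ⟨s, ?_⟩
  have e : s ^ 2 = -(x - s ^ 2) + x := by ring
  rw [← map_pow, e, Valuation.map_add_eq_of_lt_right _ (by rw [Valuation.map_neg]; exact hs)]

theorem ev_or (w : HeightOneSpectrum (𝓞 K)) {x c : K} (hx : x ≠ 0) (h : ¬ Ev w x)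
    (hc : w.valuation K c = exp (-(1 : ℤ))) : Ev w (x / c) := by
  have hx0 : w.valuation K x ≠ 0 := (Valuation.ne_zero_iff _).2 hx
  obtain ⟨m, hm⟩ : ∃ m : ℤ, w.valuation K x = exp m := ⟨log (w.valuation K x), (exp_log hx0).symm⟩
  rcases Int.even_or_odd m with he | ho
  · exfalso
    apply h
    obtain ⟨k, hk⟩ := he
    obtain ⟨y, hy⟩ := w.valuation_surjective K (exp k)
    refine ⟨y, ?_⟩
    rw [hy, hm, hk, pow_two, ← exp_add]
  · obtain ⟨k, hk⟩ := ho
    obtain ⟨y, hy⟩ := w.valuation_surjective K (exp (k + 1))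
    refine ⟨y, ?_⟩
    rw [hy, map_div₀, hm, hc, hk, ← exp_sub, pow_two, ← exp_add]
    congr 1
    ring

theorem val_unif {p : ℕ} (h1 : (p : 𝓞 K) ∈ w.asIdeal) (h2 : (p : 𝓞 K) ∉ w.asIdeal ^ 2) :
    w.valuation K (p : K) = exp (-(1 : ℤ)) := by
  have e : algebraMap (𝓞 K) K (p : 𝓞 K) = (p : K) := map_natCast _ p
  rw [← e, w.valuation_of_algebraMap]
  have h3 : w.intValuation (p : 𝓞 K) < 1 := (w.intValuation_lt_one_iff_mem _).2 h1
  have h4 : ¬ w.intValuation (p : 𝓞 K) ≤ exp (-((2 : ℕ) : ℤ)) := by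
    rw [HeightOneSpectrum.intValuation_le_pow_iff_mem]
    exact h2
  have h5 : w.intValuation (p : 𝓞 K) ≠ 0 := by
    intro h0
    rw [h0] at h4
    exact h4 zero_le'
  rw [← exp_log h5, ← exp_zero, exp_lt_exp] at h3
  rw [← exp_log h5, exp_le_exp] at h4
  rw [← exp_log h5]
  congr 1
  push_cast at h4
  omega

/-- The local data at a prime of the second kind. -/
theorem loc_data {p : ℕ} [hp : Fact p.Prime] (h1 : (p : 𝓞 K) ∈ w.asIdeal)
    (h2 : (p : 𝓞 K) ∉ w.asIdeal ^ 2) (h20 : (2 : 𝓞 K) ∉ w.asIdeal) {d : K} (hd : d ≠ 0)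
    (hde : Ev w d) (hsq : ¬ Sq1 w d) :
    ∃ u : 𝓞 K, u ∉ w.asIdeal ∧ (∀ z : 𝓞 K, z - u ∈ w.asIdeal → ASq w ((z : K) / d)) ∧
      (∀ w' : HeightOneSpectrum (𝓞 K), (p : 𝓞 K) ∈ w'.asIdeal → w' ≠ w → u - 1 ∈ w'.asIdeal) ∧
      hil ℚ_[p] p ((Algebra.norm ℚ (u : K) : ℚ) : ℚ_[p]) = -1 := by
  obtain ⟨t, ht⟩ := hde
  have hd0 : w.valuation K d ≠ 0 := (Valuation.ne_zero_iff _).2 hd
  have ht0 : t ≠ 0 := by
    rintro rfl
    rw [map_zero, zero_pow two_ne_zero] at ht
    exact hd0 ht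
  have hd1 : w.valuation K (d / t ^ 2) = 1 := by
    rw [map_div₀, map_pow, ht, div_self]
    rw [← ht]
    exact hd0
  obtain ⟨a, ha⟩ := approx w hd1.le
  have hau := unit_of hd1 ha
  obtain ⟨J, e, hS⟩ := exists_spl w h1 h2
  set u : 𝓞 K := 1 + (a - 1) * e with hu
  have hua : u - a ∈ w.asIdeal := by
    have e1 : u - a = (1 - a) * (1 - e) := by rw [hu]; ring
    rw [e1]
    exact Ideal.mul_mem_left _ _ hS.one
  have huw : u ∉ w.asIdeal := by
    intro h
    apply hau
    have e1 : a = u - (u - a) := by ring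
    rw [e1]
    exact Ideal.sub_mem _ h hua
  have hp2 : p ≠ 2 := by
    rintro rfl
    apply h20
    exact_mod_cast h1
  refine ⟨u, huw, fun z hz => ?_, fun w' hw' hne => ?_, ?_⟩
  · -- the square
    have hzu : z ∉ w.asIdeal := by
      intro h
      apply huw
      have e1 : u = z - (z - u) := by ring
      rw [e1]
      exact Ideal.sub_mem _ h hz
    have hz1 : w.valuation K (z : K) = 1 := val_one hzu
    have hz0 : (z : K) ≠ 0 := by
      intro h0
      rw [h0, map_zero] at hz1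
      exact zero_ne_one hz1
    refine asq_of_sq1 h20 (div_ne_zero hz0 hd) ⟨1 / t, ?_⟩
    have e1 : (z : K) / d - (1 / t) ^ 2 = ((algebraMap (𝓞 K) K (z - u) +
        algebraMap (𝓞 K) K (u - a)) - (d / t ^ 2 - (a : K))) / d := by
      rw [map_sub, map_sub]
      field_simp
      ring
    rw [e1, map_div₀, map_div₀, hz1]
    have h3 : w.valuation K ((algebraMap (𝓞 K) K (z - u) +
        algebraMap (𝓞 K) K (u - a)) - (d / t ^ 2 - (a : K))) < 1 := by
      refine lt_of_le_of_lt (Valuation.map_sub _ _ _) (max_lt ?_ ha)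
      refine lt_of_le_of_lt (Valuation.map_add _ _ _) (max_lt ?_ ?_)
      · rw [w.valuation_lt_one_iff_mem]
        exact hz
      · rw [w.valuation_lt_one_iff_mem]
        exact hua
    rw [div_lt_div_iff_of_pos_right (zero_lt_iff.2 hd0)]
    exact h3
  · -- the other primes
    have h3 : u - 1 = (a - 1) * e := by rw [hu]; ring
    rw [h3]
    refine Ideal.mul_mem_left _ _ ?_
    have h4 : w.asIdeal * J ≤ w'.asIdeal := by
      rw [← hS.mul, Ideal.span_singleton_le_iff_mem]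
      exact hw'
    rcases (Ideal.IsPrime.mul_le w'.isPrime).1 h4 with h5 | h5
    · exfalso
      apply hne
      apply HeightOneSpectrum.ext
      exact (w.isMaximal.eq_of_le w'.isPrime.ne_top h5).symm
    · exact h5 hS.mem
  · -- the norm
    letI : Field (𝓞 K ⧸ w.asIdeal) := @Ideal.Quotient.field _ _ w.asIdeal w.isMaximal
    haveI : Finite (𝓞 K ⧸ w.asIdeal) := Ideal.finiteQuotientOfFreeOfNeBot _ w.ne_bot
    have hp0 : (p : 𝓞 K ⧸ w.asIdeal) = 0 := by
      have := Ideal.Quotient.eq_zero_iff_mem.2 h1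
      rwa [map_natCast] at this
    haveI : CharP (𝓞 K ⧸ w.asIdeal) p := by
      haveI := ringChar.charP (𝓞 K ⧸ w.asIdeal)
      have h3 : ringChar (𝓞 K ⧸ w.asIdeal) ∣ p := (ringChar.spec _ p).1 hp0
      have h4 : ringChar (𝓞 K ⧸ w.asIdeal) ≠ 1 := by
        intro h5
        have := (ringChar.spec (𝓞 K ⧸ w.asIdeal) 1).2 (by rw [h5])
        rw [Nat.cast_one] at this
        exact one_ne_zero this
      exact ringChar.of_eq ((hp.out.eq_one_or_self_of_dvd _ h3).resolve_left h4)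
    letI : Algebra (ZMod p) (𝓞 K ⧸ w.asIdeal) := ZMod.algebra _ p
    haveI : FiniteDimensional (ZMod p) (𝓞 K ⧸ w.asIdeal) := Module.Finite.of_finite
    have h3 := norm_res (q := p) hS (Ideal.Quotient.mk w.asIdeal) Ideal.Quotient.mk_surjective
      (fun a => Ideal.Quotient.eq_zero_iff_mem) (u := u) (by
        have e1 : u - 1 = (a - 1) * e := by rw [hu]; ring
        rw [e1]
        exact Ideal.mul_mem_left _ _ hS.mem)
    have hu0 : Ideal.Quotient.mk w.asIdeal u ≠ 0 := by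
      rwa [Ne, Ideal.Quotient.eq_zero_iff_mem]
    have h2p : (2 : ZMod p) ≠ 0 := by
      intro h0
      have : ((2 : ℕ) : ZMod p) = 0 := by exact_mod_cast h0
      rw [ZMod.natCast_eq_zero_iff] at this
      exact hp2 ((Nat.prime_dvd_prime_iff_eq hp.out Nat.prime_two).1 this)
    have h4 : ¬ IsSquare (Ideal.Quotient.mk w.asIdeal u) := by
      rintro ⟨c, hc⟩
      obtain ⟨c, rfl⟩ := Ideal.Quotient.mk_surjective c
      apply hsq
      refine ⟨t * (c : K), ?_⟩
      have h5 : u - c ^ 2 ∈ w.asIdeal := by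
        rw [← Ideal.Quotient.eq, hc, map_pow, pow_two]
      have e1 : d - (t * (c : K)) ^ 2 = t ^ 2 * ((d / t ^ 2 - (a : K)) -
          algebraMap (𝓞 K) K (u - a) + algebraMap (𝓞 K) K (u - c ^ 2)) := by
        rw [map_sub, map_sub, map_pow]
        field_simp
        ring
      rw [e1, map_mul, ht, ← map_pow]
      have h6 : w.valuation K ((d / t ^ 2 - (a : K)) - algebraMap (𝓞 K) K (u - a) +
          algebraMap (𝓞 K) K (u - c ^ 2)) < 1 := by
        refine lt_of_le_of_lt (Valuation.map_add _ _ _) (max_lt ?_ ?_)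
        · refine lt_of_le_of_lt (Valuation.map_sub _ _ _) (max_lt ha ?_)
          rw [w.valuation_lt_one_iff_mem]
          exact hua
        · rw [w.valuation_lt_one_iff_mem]
          exact h5
      have h7 : w.valuation K (t ^ 2) ≠ 0 := (Valuation.ne_zero_iff _).2 (pow_ne_zero _ ht0)
      calc w.valuation K (t ^ 2) * _ < w.valuation K (t ^ 2) * 1 :=
            mul_lt_mul_of_pos_left h6 (zero_lt_iff.2 h7)
        _ = _ := mul_one _
    have h5 : ¬ IsSquare (Algebra.norm (ZMod p) (Ideal.Quotient.mk w.asIdeal u)) := by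
      rwa [norm_sq_iff h2p _ hu0]
    rw [← h3] at h5
    have h6 : ((Algebra.norm ℤ u : ℤ) : ZMod p) ≠ 0 := by
      rw [h3]
      exact Algebra.norm_ne_zero_iff.2 hu0
    have h7 : IsUnit ((Algebra.norm ℤ u : ℤ) : ℤ_[p]) := by
      rw [Pool.Agent.N507.PQ.unit_iff, map_intCast]
      exact h6
    have h8 := Pool.Agent.N507.PQ.hil_p hp2 h7
    rw [map_intCast, if_neg h5] at h8
    rw [← h8]
    congr 1
    rw [← Algebra.coe_norm_int]
    push_cast
    rfl

theorem prod_sub_one {ι : Type} (s : Finset ι) (u : ι → 𝓞 K) (I : Ideal (𝓞 K))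
    (h : ∀ i ∈ s, u i - 1 ∈ I) : ∏ i ∈ s, u i - 1 ∈ I := by
  induction s using Finset.induction_on with
  | empty => rw [Finset.prod_empty, sub_self]; exact Ideal.zero_mem _
  | insert a s ha ih =>
    rw [Finset.prod_insert ha]
    have e : u a * ∏ i ∈ s, u i - 1 = (u a - 1) * ∏ i ∈ s, u i + (∏ i ∈ s, u i - 1) := by ring
    rw [e]
    exact Ideal.add_mem _ (Ideal.mul_mem_right _ _ (h a (Finset.mem_insert_self _ _)))
      (ih fun i hi => h i (Finset.mem_insert_of_mem hi))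

theorem coe_prod_ne {ι : Type} (s : Finset ι) (u : ι → 𝓞 K) (h : ∀ i ∈ s, (u i : K) ≠ 0) :
    ((∏ i ∈ s, u i : 𝓞 K) : K) ≠ 0 := by
  intro h0
  have h1 : ∏ i ∈ s, u i = 0 := NumberField.RingOfIntegers.coe_eq_zero_iff.1 h0
  obtain ⟨i, hi, hi0⟩ := Finset.prod_eq_zero_iff.1 h1
  refine h i hi ?_
  rw [hi0]
  exact map_zero (algebraMap (𝓞 K) K)

theorem hil_norm_prod {p : ℕ} [hp : Fact p.Prime] {ι : Type} (s : Finset ι) (u : ι → 𝓞 K)
    (hne : ∀ i ∈ s, (u i : K) ≠ 0)
    (h : ∀ i ∈ s, hil ℚ_[p] p ((Algebra.norm ℚ (u i : K) : ℚ) : ℚ_[p]) = -1) :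
    hil ℚ_[p] p ((Algebra.norm ℚ ((∏ i ∈ s, u i : 𝓞 K) : K) : ℚ) : ℚ_[p]) = (-1) ^ s.card := by
  have hs : IsSymbol (hil ℚ_[p]) := Pool.Agent.N446.M4.sym_ p
  have hp0 : (p : ℚ_[p]) ≠ 0 := by exact_mod_cast hp.out.ne_zero
  induction s using Finset.induction_on with
  | empty =>
    rw [Finset.prod_empty, Finset.card_empty, pow_zero]
    have e : ((1 : 𝓞 K) : K) = 1 := map_one _
    rw [e, map_one, Rat.cast_one]
    exact Pool.Agent.N424.M4.h_one hs hp0
  | insert a s ha ih =>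
    have h1 : ((∏ i ∈ s, u i : 𝓞 K) : K) ≠ 0 :=
      coe_prod_ne s u fun i hi => hne i (Finset.mem_insert_of_mem hi)
    have h2 := hne a (Finset.mem_insert_self _ _)
    have h3 : ((u a * ∏ i ∈ s, u i : 𝓞 K) : K) = (u a : K) * ((∏ i ∈ s, u i : 𝓞 K) : K) :=
      map_mul (algebraMap (𝓞 K) K) _ _
    rw [Finset.prod_insert ha, h3, map_mul, Rat.cast_mul, hs.mul _ _ _ hp0,
      h a (Finset.mem_insert_self _ _), ih (fun i hi => hne i (Finset.mem_insert_of_mem hi))
        (fun i hi => h i (Finset.mem_insert_of_mem hi)), Finset.card_insert_of_notMem ha, pow_succ]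
    · ring
    · have : Algebra.norm ℚ ((u a : 𝓞 K) : K) ≠ 0 := Algebra.norm_ne_zero_iff.2 h2
      exact_mod_cast this
    · have : Algebra.norm ℚ ((∏ i ∈ s, u i : 𝓞 K) : K) ≠ 0 := Algebra.norm_ne_zero_iff.2 h1
      exact_mod_cast this

theorem finite_not_ev {D : K} (hD : D ≠ 0) : {u : HeightOneSpectrum (𝓞 K) | ¬ Ev u D}.Finite := by
  obtain ⟨a, b, hb, rfl⟩ := IsFractionRing.div_surjective (A := 𝓞 K) D
  have hb0 : b ≠ 0 := nonZeroDivisors.ne_zero hb
  have ha0 : a ≠ 0 := by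
    rintro rfl
    rw [map_zero, zero_div] at hD
    exact hD rfl
  have hfin : {v : HeightOneSpectrum (𝓞 K) | v.asIdeal ∣ Ideal.span {a * b}}.Finite :=
    Ideal.finite_factors (by
      intro h0
      exact mul_ne_zero ha0 hb0 (Ideal.span_singleton_eq_bot.1 h0))
  refine hfin.subset fun v hv => ?_
  rw [Set.mem_setOf_eq] at hv ⊢
  rw [Ideal.dvd_span_singleton]
  by_contra hn
  apply hv
  refine ⟨1, ?_⟩
  rw [map_one, one_pow, map_div₀, val_one (fun h => hn (Ideal.mul_mem_right _ _ h)),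
    val_one (fun h => hn (Ideal.mul_mem_left _ _ h)), div_one]

theorem diag_symm (a : Fin 4 → K) : (Matrix.diagonal a).IsSymm := by
  rw [Matrix.IsSymm, Matrix.diagonal_transpose]

/-- The quadratic reciprocity law. -/
theorem rcp (K : Type) [Field K] [NumberField K] : RCP K := by
  intro d D hd hD h2 hreal hodd
  set T : Set (HeightOneSpectrum (𝓞 K)) := {u | (2 : 𝓞 K) ∉ u.asIdeal ∧ ¬ Sq1 u d ∧ ¬ Ev u D}
    with hT
  have hTf : T.Finite := (finite_not_ev hD).subset fun u hu => hu.2.2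
  -- residue characteristics
  have hrc : ∀ w : HeightOneSpectrum (𝓞 K), ∃ p : ℕ, p.Prime ∧ (p : 𝓞 K) ∈ w.asIdeal := by
    intro w
    obtain ⟨m, hm0, hm⟩ := Pool.Agent.H25P.Emb.exists_p w
    obtain ⟨p, hp, -, hpw⟩ := nat_prime_mem (v := w) m hm0 hm
    exact ⟨p, hp, hpw⟩
  choose rc hrcp hrcm using hrc
  have hrcu : ∀ (w : HeightOneSpectrum (𝓞 K)) (p : ℕ), p.Prime → (p : 𝓞 K) ∈ w.asIdeal →
      rc w = p := fun w p hp hpw => prime_unique (hrcp w) hp (hrcm w) hpw
  set Bp : ℕ → Finset (HeightOneSpectrum (𝓞 K)) := fun p => hTf.toFinset.filter (fun w => rc w = p)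
    with hBp
  set S : Finset ℕ := hTf.toFinset.image rc with hS
  -- the local cases
  have hcase : ∀ w : HeightOneSpectrum (𝓞 K), w ∉ T → ASq w d ∨ ASq w D ∨
      ((2 : 𝓞 K) ∉ w.asIdeal ∧ Ev w d ∧ Ev w D) := by
    intro w hw
    by_cases h2w : (2 : 𝓞 K) ∈ w.asIdeal
    · exact Or.inl (asq_of_isSquare (h2 w h2w))
    · rcases hodd w h2w with h | h | ⟨h, -⟩
      · exact Or.inl (asq_of_sq1 h2w hd h)
      · exact Or.inr (Or.inl (asq_of_sq1 h2w hD h))
      · by_cases hsq : Sq1 w d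
        · exact Or.inl (asq_of_sq1 h2w hd hsq)
        · by_cases hev : Ev w D
          · exact Or.inr (Or.inr ⟨h2w, h, hev⟩)
          · exact absurd ⟨h2w, hsq, hev⟩ hw
  have hcaseT : ∀ w ∈ T, Ev w d ∧ ∀ p : ℕ, p.Prime → (p : 𝓞 K) ∈ w.asIdeal →
      (p : 𝓞 K) ∉ w.asIdeal ^ 2 := by
    rintro w ⟨h2w, hsq, hev⟩
    rcases hodd w h2w with h | h | ⟨h, h' | h'⟩
    · exact absurd h hsq
    · exact absurd (ev_of_sq1 h) hev
    · exact absurd h' hev
    · exact ⟨h, h'⟩
  -- the forms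
  obtain ⟨A, hA⟩ : ∃ A : Matrix (Fin 4) (Fin 4) K, A = Matrix.diagonal (Pf d D) := ⟨_, rfl⟩
  obtain ⟨B, hB⟩ : ∃ B : Matrix (Fin 4) (Fin 4) K, B = Matrix.diagonal (Pf 1 1) := ⟨_, rfl⟩
  have hAs : A.IsSymm := by rw [hA]; exact diag_symm _
  have hBs : B.IsSymm := by rw [hB]; exact diag_symm _
  have hdt : ∀ {x y : K}, x ≠ 0 → y ≠ 0 → @Matrix.det (Fin 4)
      (fun a b => Classical.propDecidable (a = b)) _ K _ (Matrix.diagonal (Pf x y)) ≠ 0 :=
    fun hx hy => ne_of_eq_of_ne (Pool.Agent.N783.PF.R2.det_inst _ _ _) (pf_ne hx hy)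
  have hAd : @Matrix.det (Fin 4) (fun a b => Classical.propDecidable (a = b)) _ K _ A ≠ 0 := by
    rw [hA]
    exact hdt hd hD
  have hBd : @Matrix.det (Fin 4) (fun a b => Classical.propDecidable (a = b)) _ K _ B ≠ 0 := by
    rw [hB]
    exact hdt one_ne_zero one_ne_zero
  have hTA : (Tf A).det ≠ 0 := ne_of_eq_of_ne (Pool.Agent.N783.PF.R2.det_inst _ _ _)
    (Pool.Agent.N783.PF.R2.Tf_det hAd)
  have hTB : (Tf B).det ≠ 0 := ne_of_eq_of_ne (Pool.Agent.N783.PF.R2.det_inst _ _ _)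
    (Pool.Agent.N783.PF.R2.Tf_det hBd)
  have hTAs := Pool.Agent.N783.PF.R2.Tf_symm hAs
  have hTBs := Pool.Agent.N783.PF.R2.Tf_symm hBs
  obtain ⟨n, φ⟩ : ∃ n : ℕ, Nonempty (Fin n ≃ Fin 4 × Fin (Module.finrank ℚ K)) :=
    ⟨_, ⟨(Fintype.equivFin _).symm⟩⟩
  obtain ⟨φ⟩ := φ
  obtain ⟨a, R, ha, -, hR⟩ := Pool.Agent.N835.PQ.exists_diag ((Tf A).submatrix φ φ)
    (by rw [Matrix.IsSymm, Matrix.transpose_submatrix, hTAs.eq])
    (by rw [Matrix.det_submatrix_equiv_self]; exact hTA)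
  obtain ⟨b, R', hb, -, hR'⟩ := Pool.Agent.N835.PQ.exists_diag ((Tf B).submatrix φ φ)
    (by rw [Matrix.IsSymm, Matrix.transpose_submatrix, hTBs.eq])
    (by rw [Matrix.det_submatrix_equiv_self]; exact hTB)
  have hVA : ∀ (E : Type) [Field E] [CharZero E], HV ((Tf A).map (Rat.castHom E))
      (hasse (hil E) (List.ofFn fun i => (a i : E))) :=
    fun E _ _ => Pool.Agent.N783.PF.R2.HV_map E _ φ ha hR
  have hVB : ∀ (E : Type) [Field E] [CharZero E], HV ((Tf B).map (Rat.castHom E))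
      (hasse (hil E) (List.ofFn fun i => (b i : E))) :=
    fun E _ _ => Pool.Agent.N783.PF.R2.HV_map E _ φ hb hR'
  have hvg := Pool.Agent.N286.PF.hvg
  have trp := Pool.Agent.N935.PF.TRP.trp Pool.Agent.N286.PF.hvg Pool.Agent.N286.PF.hvc
  have trr := Pool.Agent.N783.PF.R2.trr Pool.Agent.N286.PF.hvg
  have hT1 : @Matrix.det _ (fun a b => Classical.propDecidable (a = b)) _ ℚ _ (Tf A) ≠ 0 :=
    ne_of_eq_of_ne (Pool.Agent.N783.PF.R2.det_inst _ _ _) hTA
  have hT2 : @Matrix.det _ (fun a b => Classical.propDecidable (a = b)) _ ℚ _ (Tf B) ≠ 0 :=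
    ne_of_eq_of_ne (Pool.Agent.N783.PF.R2.det_inst _ _ _) hTB
  have key := Pool.Agent.N394.PQ.prd n a b ha hb S
    (by
      intro q hq
      obtain ⟨w, -, rfl⟩ := Finset.mem_image.1 hq
      exact hrcp w)
    (by
      -- the real place
      have e1 := trr K (Fin 4) A B hAs hBs hAd hBd (fun σ => by
        obtain ⟨Q, hQ⟩ := iso_split (E := ℝ) two_ne_zero (d := σ d) (D := σ D)
          (s := Real.sqrt (σ d)) (Real.sqrt_pos.2 (hreal σ)).ne'
          (Real.sq_sqrt (hreal σ).le).symm ((_root_.map_ne_zero σ).2 hD) 1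
        refine ⟨Q, ?_⟩
        have f1 : A.map σ = Matrix.diagonal (Pf (σ d) (σ D)) := by
          rw [hA]
          ext i j
          rw [Matrix.map_apply, Matrix.diagonal_apply, Matrix.diagonal_apply]
          fin_cases i <;> fin_cases j <;> simp [Pf]
        have f2 : B.map σ = Matrix.diagonal (Pf 1 1) := by
          rw [hB]
          ext i j
          rw [Matrix.map_apply, Matrix.diagonal_apply, Matrix.diagonal_apply]
          fin_cases i <;> fin_cases j <;> simp [Pf]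
        rw [f1, f2]
        exact hQ) _ (hVA ℝ)
      exact Pool.Agent.N783.PF.R2.HV_uniq hvg ℝ Pool.Agent.N835.PQ.symR (Tf B) hTBs hT2 e1
        (hVB ℝ))
    (by
      intro p hp hpS
      have hapx : ∀ w : HeightOneSpectrum (𝓞 K), (p : 𝓞 K) ∈ w.asIdeal → Apx w A B := by
        intro w hw
        rw [hA, hB]
        refine apx_split hd hD (hcase w fun hwT => hpS ?_)
        rw [hS, Finset.mem_image]
        exact ⟨w, hTf.mem_toFinset.2 hwT, hrcu w p hp.out hw⟩
      have e1 := trp K p (Fin 4) A B hAs hBs hAd hBd hapx _ (hVA ℚ_[p])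
      exact Pool.Agent.N783.PF.R2.HV_uniq hvg ℚ_[p] (Pool.Agent.N446.M4.sym_ p) (Tf B) hTBs hT2 e1
        (hVB ℚ_[p]))
    (fun p => (-1) ^ (Bp p).card)
    (fun q _ => neg_one_pow_eq_or ℤ _)
    (by
      intro p hpS hp
      have hs : IsSymbol (hil ℚ_[p]) := Pool.Agent.N446.M4.sym_ p
      have hp0 : (p : ℚ_[p]) ≠ 0 := by exact_mod_cast hp.out.ne_zero
      have hpK : algebraMap ℚ K (p : ℚ) ≠ 0 := by
        rw [map_natCast]
        exact_mod_cast hp.out.ne_zero
      -- the local data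
      have hloc : ∀ w ∈ Bp p, ∃ u : 𝓞 K, u ∉ w.asIdeal ∧
          (∀ z : 𝓞 K, z - u ∈ w.asIdeal → ASq w ((z : K) / d)) ∧
          (∀ w' : HeightOneSpectrum (𝓞 K), (p : 𝓞 K) ∈ w'.asIdeal → w' ≠ w → u - 1 ∈ w'.asIdeal) ∧
          hil ℚ_[p] p ((Algebra.norm ℚ (u : K) : ℚ) : ℚ_[p]) = -1 := by
        intro w hw
        rw [hBp, Finset.mem_filter, hTf.mem_toFinset] at hw
        obtain ⟨hwT, hwp⟩ := hw
        have hpw : (p : 𝓞 K) ∈ w.asIdeal := by rw [← hwp]; exact hrcm w
        obtain ⟨h3, h4⟩ := hcaseT w hwT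
        exact loc_data hpw (h4 p hp.out hpw) hwT.1 hd h3 hwT.2.1
      choose! u hu1 hu2 hu3 hu4 using hloc
      obtain ⟨z, hz⟩ : ∃ z : 𝓞 K, z = ∏ w ∈ Bp p, u w := ⟨_, rfl⟩
      have hune : ∀ w ∈ Bp p, (u w : K) ≠ 0 := by
        intro w hw h0
        apply hu1 w hw
        have : u w = 0 := NumberField.RingOfIntegers.coe_eq_zero_iff.1 h0
        rw [this]
        exact Ideal.zero_mem _
      have hz0 : (z : K) ≠ 0 := by
        rw [hz]
        exact coe_prod_ne _ _ hune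
      have h2w : ∀ w : HeightOneSpectrum (𝓞 K), (p : 𝓞 K) ∈ w.asIdeal →
          (2 : 𝓞 K) ∉ w.asIdeal := by
        intro w hw h
        obtain ⟨w₀, hw₀, hw₀p⟩ := Finset.mem_image.1 hpS
        have hw₀T := hTf.mem_toFinset.1 hw₀
        have h5 : p = 2 := by
          refine prime_unique hp.out Nat.prime_two hw ?_
          exact_mod_cast h
        apply hw₀T.1
        have h6 := hrcm w₀
        rw [hw₀p, h5] at h6
        exact_mod_cast h6
      -- the isometries
      obtain ⟨Cu, hCu⟩ : ∃ Cu : Matrix (Fin 4) (Fin 4) K,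
        Cu = Matrix.diagonal (Pf (z : K) (algebraMap ℚ K (p : ℚ))) := ⟨_, rfl⟩
      obtain ⟨C1, hC1⟩ : ∃ C1 : Matrix (Fin 4) (Fin 4) K,
        C1 = Matrix.diagonal (Pf (1 : K) (algebraMap ℚ K (p : ℚ))) := ⟨_, rfl⟩
      have hapx : ∀ w : HeightOneSpectrum (𝓞 K), (p : 𝓞 K) ∈ w.asIdeal → Apx w A Cu := by
        intro w hw
        rw [hA, hCu]
        by_cases hwB : w ∈ Bp p
        · have hwB' := hwB
          rw [hBp, Finset.mem_filter, hTf.mem_toFinset] at hwB'
          obtain ⟨hwT, -⟩ := hwB'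
          obtain ⟨h3, h4⟩ := hcaseT w hwT
          refine apx_inert hwT.1 hd hD hpK h3 ?_ (hu2 w hwB z ?_)
          · rw [map_natCast]
            exact ev_or w hD hwT.2.2 (val_unif hw (h4 p hp.out hw))
          · have e1 : z - u w = u w * (∏ w' ∈ (Bp p).erase w, u w' - 1) := by
              rw [hz, ← Finset.mul_prod_erase _ _ hwB]
              ring
            rw [e1]
            refine Ideal.mul_mem_left _ _ (prod_sub_one _ _ _ fun w' hw' => ?_)
            rw [Finset.mem_erase] at hw'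
            exact hu3 w' hw'.2 w hw (Ne.symm hw'.1)
        · have hwT : w ∉ T := by
            intro h
            apply hwB
            rw [hBp, Finset.mem_filter, hTf.mem_toFinset]
            exact ⟨h, hrcu w p hp.out hw⟩
          have hz1 : z - 1 ∈ w.asIdeal := by
            rw [hz]
            refine prod_sub_one _ _ _ fun w' hw' => ?_
            refine hu3 w' hw' w hw ?_
            rintro rfl
            exact hwB hw'
          have hzw : z ∉ w.asIdeal := by
            intro h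
            apply w.isPrime.ne_top
            rw [Ideal.eq_top_iff_one]
            have e1 : (1 : 𝓞 K) = z - (z - 1) := by ring
            rw [e1]
            exact Ideal.sub_mem _ h hz1
          have hsq : ASq w (z : K) := by
            refine asq_of_sq1 (h2w w hw) hz0 ⟨1, ?_⟩
            have e1 : w.valuation K (z : K) = 1 := val_one hzw
            rw [e1, one_pow]
            have e2 : (z : K) - 1 = algebraMap (𝓞 K) K (z - 1) := by
              rw [map_sub, map_one]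
            rw [e2, w.valuation_lt_one_iff_mem]
            exact hz1
          have h3 := apx_left (w := w) (d := (1 : K)) (D := algebraMap ℚ K (p : ℚ)) hsq
          rw [one_mul] at h3
          exact apx_trans (apx_split hd hD (hcase w hwT)) h3
      have hapx1 : ∀ w : HeightOneSpectrum (𝓞 K), (p : 𝓞 K) ∈ w.asIdeal → Apx w B C1 := by
        intro w _
        rw [hB, hC1]
        exact apx_of_iso (iso_hyp two_ne_zero one_ne_zero _)
      have e1 := trp K p (Fin 4) A Cu hAs (by rw [hCu]; exact diag_symm _) hAd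
        (by rw [hCu]; exact hdt hz0 hpK) hapx _ (hVA ℚ_[p])
      have e2 := trp K p (Fin 4) B C1 hBs (by rw [hC1]; exact diag_symm _) hBd
        (by rw [hC1]; exact hdt one_ne_zero hpK) hapx1 _ (hVB ℚ_[p])
      have hd1 : @Matrix.det _ (fun a b => Classical.propDecidable (a = b)) _ ℚ _ (Tf Cu) ≠ 0 :=
        ne_of_eq_of_ne (Pool.Agent.N783.PF.R2.det_inst _ _ _)
          (Pool.Agent.N783.PF.R2.Tf_det (by rw [hCu]; exact hdt hz0 hpK))
      have hd2 : @Matrix.det _ (fun a b => Classical.propDecidable (a = b)) _ ℚ _ (Tf C1) ≠ 0 :=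
        ne_of_eq_of_ne (Pool.Agent.N783.PF.R2.det_inst _ _ _)
          (Pool.Agent.N783.PF.R2.Tf_det (by rw [hC1]; exact hdt one_ne_zero hpK))
      have e3 := Pool.Agent.N783.PF.R2.HV_uniq hvg ℚ_[p] hs (Tf Cu)
        (Pool.Agent.N783.PF.R2.Tf_symm (by rw [hCu]; exact diag_symm _)) hd1 e1
        (by rw [hCu]; exact hv_pf p (z : K) hz0)
      have e4 := Pool.Agent.N783.PF.R2.HV_uniq hvg ℚ_[p] hs (Tf C1)
        (Pool.Agent.N783.PF.R2.Tf_symm (by rw [hC1]; exact diag_symm _)) hd2 e2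
        (by rw [hC1]; exact hv_pf p (1 : K) one_ne_zero)
      have hN : Algebra.norm ℚ (z : K) ≠ 0 := Algebra.norm_ne_zero_iff.2 hz0
      have hN' : ((Algebra.norm ℚ (z : K) : ℚ) : ℚ_[p]) ≠ 0 := by exact_mod_cast hN
      have h10 : ((((-1) ^ (finrank ℚ K) : ℚ)) : ℚ_[p]) ≠ 0 := by
        have : ((-1) ^ (finrank ℚ K) : ℚ) ≠ 0 := pow_ne_zero _ (neg_ne_zero.2 one_ne_zero)
        exact_mod_cast this
      rw [Rat.cast_mul, hs.mul _ _ _ hp0 h10 hN'] at e3
      rw [map_one, mul_one] at e4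
      have e5 := hil_norm_prod (p := p) (Bp p) u hune hu4
      rw [← hz] at e5
      rw [e5] at e3
      rw [e3, e4]
      ring)
  -- the number of primes
  have hcard : T.ncard = ∑ p ∈ S, (Bp p).card := by
    rw [Set.ncard_eq_toFinset_card T hTf, hS, hBp]
    exact Finset.card_eq_sum_card_image rc hTf.toFinset
  rw [hcard, Finset.even_sum_iff_even_card_odd]
  have hfil : S.filter (fun p => Odd (Bp p).card) =
      S.filter (fun p => ((-1 : ℤ)) ^ (Bp p).card = -1) := by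
    refine Finset.filter_congr fun p _ => ?_
    constructor
    · intro h
      exact h.neg_one_pow
    · intro h
      by_contra hn
      rw [Nat.not_odd_iff_even] at hn
      rw [hn.neg_one_pow] at h
      norm_num at h
  rw [hfil]
  exact key

end Pool.Agent.H25C
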