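import Pool.Agent.H25U.Fin
import Pool.Agent.H25C.Prd
import Pool.Agent.H25C.Rcp

/-!
# The theorem for all extensions in the class, cyclic extensions included
-/

set_option autoImplicit false
set_option linter.all false

open IsDedekindDomain NumberField Polynomial
open scoped Classical IntermediateField Pointwise

namespace Pool.Agent.H25C

open Pool.Agent.H25U
open Pool.Agent.N922.PQ (Gen SplitMod)
open Pool.Agent.N783.PF
open Pool.Agent.H25P (fM Fixed Signs real_ext even_inf nat_prime_mem)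

/-- A ramified prime divides the discriminant. -/
theorem ram_disc (K : Type) [Field K] [NumberField K] {p : ℕ} (hp : p.Prime)
    (u : HeightOneSpectrum (𝓞 K)) (h1 : (p : 𝓞 K) ∈ u.asIdeal)
    (h2 : (p : 𝓞 K) ∈ u.asIdeal ^ 2) : (p : ℤ) ∣ NumberField.discr K := by
  by_contra hc
  have hpZ : Prime (p : ℤ) := Nat.prime_iff_prime_int.1 hp
  haveI := u.isPrime
  have h3 : Algebra.IsUnramifiedAt ℤ u.asIdeal :=
    (NumberField.not_dvd_discr_iff_forall_mem K (𝓞 K) hpZ).1 hc u.asIdeal u.isPrime (by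
      push_cast
      exact h1)
  haveI : (Ideal.span {(p : ℤ)}).IsPrime :=
    (Ideal.span_singleton_prime hpZ.ne_zero).2 hpZ
  haveI : u.asIdeal.LiesOver (Ideal.span {(p : ℤ)}) :=
    (Ideal.liesOver_span_iff u.isPrime.ne_top hpZ).2 (by
      push_cast
      exact h1)
  letI := Localization.AtPrime.algebraOfLiesOver (Ideal.span {(p : ℤ)}) u.asIdeal
  have h4 := ((Algebra.isUnramifiedAt_iff_map_eq ℤ (Ideal.span {(p : ℤ)}) u.asIdeal).1 h3).2
  have h5 : (Ideal.span {(p : ℤ)}).map (algebraMap ℤ (𝓞 K)) ≤ u.asIdeal := by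
    rw [Ideal.map_span, Set.image_singleton, Ideal.span_singleton_le_iff_mem]
    simpa using h1
  have h6 : (Ideal.span {(p : ℤ)}).map (algebraMap ℤ (𝓞 K)) ≤ u.asIdeal ^ 2 := by
    rw [Ideal.map_span, Set.image_singleton, Ideal.span_singleton_le_iff_mem]
    simpa using h2
  exact (Ideal.ramificationIdx'_ne_one_iff h5).2 h6
    ((Ideal.IsDedekindDomain.ramificationIdx'_eq_one_iff u.ne_bot h5).2 h4)

/-- The derivative of the twist. -/
theorem der_scale {R : Type*} [CommRing R] [IsDomain R] [CharZero R] (f : R[X]) (s : R) :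
    derivative (f.scaleRoots s) = (derivative f).scaleRoots s := by
  ext i
  rw [coeff_derivative, coeff_scaleRoots, coeff_scaleRoots, coeff_derivative,
    natDegree_derivative]
  by_cases h : f.coeff (i + 1) = 0
  · rw [h]
    ring
  have h1 : i + 1 ≤ f.natDegree := le_natDegree_of_ne_zero h
  have h2 : f.natDegree - (i + 1) = f.natDegree - 1 - i := by omega
  rw [h2]
  ring

/-- The discriminant of the twist. -/
theorem dsc_scale {K : Type} [Field K] [NumberField K] {g : ℕ} {f : (𝓞 K)[X]}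
    (hd : f.natDegree = 2 * g + 1) (s : 𝓞 K) :
    dsc g (f.scaleRoots s) = s ^ ((2 * g + 1) * (2 * g)) * dsc g f := by
  have h1 : (derivative f).natDegree = 2 * g := by
    rw [natDegree_derivative, hd, Nat.add_sub_cancel]
  have h2 := resultant_scaleRoots f (derivative f) s
  rw [natDegree_scaleRoots, natDegree_scaleRoots, hd, h1] at h2
  unfold dsc
  rw [der_scale, h2]

/-- The good polynomials. -/
structure GoodC (K : Type) [Field K] [NumberField K] (M₀ : Type) [Field M₀] [NumberField M₀]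
    [Algebra K M₀] (N₀ g : ℕ) (S : Finset ℕ) (f : (𝓞 K)[X]) : Prop where
  data : Data K g S f
  min : Min g f
  small : ∀ 𝔭 : Ideal (𝓞 K), 𝔭.IsPrime → (N₀.factorial : 𝓞 K) ∈ 𝔭 → Irreducible (rd 𝔭 f)
  cl : InCl K S f M₀
  sel : ∀ (M : Type) [Field M] [NumberField M] [Algebra K M] [IsGalois K M], InCl K S f M →
    Irreducible (fF (fM M f)) ∧ SelZero (fM M f) ∧
    (Module.finrank K M ≠ 1 → ∀ w : HeightOneSpectrum (𝓞 M) → ℤ, SignsC K (fM M f) w →
      ∀ k : ℕ, (-1 : ℤ) ^ (k * Nat.card (InfinitePlace M)) * ∏ᶠ v, w v = 1)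

theorem final (K M₀ : Type) [Field K] [NumberField K] [Field M₀] [NumberField M₀] [Algebra K M₀]
    [IsGalois K M₀] (hM₀ : ∃ n : ℕ, Module.finrank K M₀ = 2 ^ n)
    (hemb₀ : ∀ w : HeightOneSpectrum (𝓞 K), (2 : 𝓞 K) ∈ w.asIdeal →
      Nonempty (M₀ →ₐ[K] w.adicCompletion K))
    (hinf₀ : IsUnramifiedAtInfinitePlaces K M₀) (N₀ g : ℕ) (hg : 1 ≤ g) :
    ∃ S : Finset ℕ, (∀ q ∈ S, q.Prime ∧ N₀ < q) ∧
    ∃ c : ℝ, 0 < c ∧ ∃ B₀ : ℕ, ∀ B ≥ B₀,
    {f : (𝓞 K)[X] | Ht g B f}.Finite ∧ c * ({f : (𝓞 K)[X] | Ht g B f}.ncard : ℝ) ≤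
      ({f : (𝓞 K)[X] | Ht g B f ∧ GoodC K M₀ N₀ g S f}.ncard : ℝ) := by
  obtain ⟨κ₀, hκ⟩ := sel K g hg
  obtain ⟨γ, m, δ, hG, -⟩ := Pool.Agent.N40.PQ.gen M₀
  set κ : ℕ := max κ₀ (max δ.natAbs (max N₀ (NumberField.discr K).natAbs)) with hκdef
  have hδκ : δ.natAbs ≤ κ := (le_max_left _ _).trans (le_max_right _ _)
  have hNκ : N₀ ≤ κ := ((le_max_left _ _).trans (le_max_right _ _)).trans (le_max_right _ _)
  have hdκ : (NumberField.discr K).natAbs ≤ κ :=
    ((le_max_right _ _).trans (le_max_right _ _)).trans (le_max_right _ _)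
  obtain ⟨S, hS, hmain⟩ := main3 g K hg (fun S f => (∀ q ∈ S, q.Prime ∧ κ < q ∧
      SplitMod (q : ℤ) m) → GoodC K M₀ N₀ g S f) m hG.monic κ
    fun B N W f₁ S 𝔮 r P f hW hpW hf₁ hirr₁ hS hspl hF hBN hB hnb => by
      have hBN0 : 2 ^ κ₀ * B ≤ 4 ^ N :=
        (Nat.mul_le_mul_right _ (Nat.pow_le_pow_right (by norm_num) (le_max_left _ _))).trans hBN
      have hnb0 : ¬ LBad g N κ₀ S 𝔮 P f := fun h =>
        hnb (Pool.Agent.N170.PF.LBad.mono (le_max_left _ _) h)
      obtain ⟨J, hJ, h0, h1, h2, h3, h4⟩ := hκ B N W f₁ S 𝔮 r P f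
        ((le_max_left _ _).trans hW) hf₁ hirr₁ hS hF hBN0 hB hnb0
      have hmD : (f.scaleRoots ((Dp J : ℕ) : 𝓞 K)).Monic := (monic_scaleRoots_iff _).2 hF.ht.mon
      have hdata : Data K g S (f.scaleRoots ((Dp J : ℕ) : 𝓞 K)) := by
        refine ⟨hmD, ?_, h1, fun u => ?_, fun u => ?_⟩
        · rw [natDegree_scaleRoots, hF.ht.deg]
        · by_cases hu : ∃ q ∈ S, (q : 𝓞 K) ∈ u.asIdeal
          · exact Or.inl hu
          right
          intro h5
          rw [dsc_scale hF.ht.deg] at h5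
          haveI := u.isPrime
          rcases Ideal.IsPrime.mul_mem_pow u.asIdeal h5 with h6 | h6
          · have h7 := u.isPrime.mem_of_pow_mem _ h6
            rw [Dp, Nat.cast_prod] at h7
            obtain ⟨q, hq, hqm⟩ := (Ideal.IsPrime.prod_mem_iff).1 h7
            exact hu ⟨q, hJ hq, hqm⟩
          · exact h0 _ u.isPrime u.ne_bot h6
        · by_cases hu : ∃ p : ℕ, p.Prime ∧ (p : 𝓞 K) ∈ u.asIdeal ∧ (p : 𝓞 K) ∈ u.asIdeal ^ 2
          · left
            obtain ⟨p, hp1, hp2, hp3⟩ := hu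
            have h5 : p ∣ (NumberField.discr K).natAbs :=
              Int.natCast_dvd.1 (ram_disc K hp1 u hp2 hp3)
            have h6 : p ≤ κ := (Nat.le_of_dvd (Nat.pos_of_ne_zero
              (Int.natAbs_ne_zero.2 (NumberField.discr_ne_zero K))) h5).trans hdκ
            obtain ⟨k, hk⟩ := hpW p hp1 h6
            have h7 : (W : 𝓞 K) ∈ u.asIdeal := by
              rw [hk, Nat.cast_mul]
              exact Ideal.mul_mem_right _ _ hp2
            haveI : Finite (𝓞 K ⧸ u.asIdeal) := Ideal.finiteQuotientOfFreeOfNeBot _ u.ne_bot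
            letI : Field (𝓞 K ⧸ u.asIdeal) := @Ideal.Quotient.field _ _ u.asIdeal u.isMaximal
            exact PerfectField.separable_of_irreducible (h3 u.asIdeal u.isPrime h7)
          · right
            intro p hp1 hp2 hp3
            exact hu ⟨p, hp1, hp2, hp3⟩
      refine ⟨J, hJ, fun hSq => ⟨hdata, h2, fun 𝔭 hp hN𝔭 => ?_, ?_, ?_⟩⟩
      · -- irreducible modulo the small primes
        have hne : 𝔭 ≠ ⊥ := by
          rintro rfl
          rw [Ideal.mem_bot] at hN𝔭
          exact (Nat.factorial_ne_zero N₀) (by exact_mod_cast hN𝔭)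
        obtain ⟨p, hp1, hp2, hp3⟩ := nat_prime_mem (v := ⟨𝔭, hp, hne⟩) _
          (Nat.factorial_ne_zero N₀) hN𝔭
        refine h3 𝔭 hp ?_
        obtain ⟨k, hk⟩ := hpW p hp1 (((hp1.dvd_factorial).1 hp2).trans hNκ)
        rw [hk, Nat.cast_mul]
        exact Ideal.mul_mem_right _ _ hp3
      · -- the given extension is in the class
        refine ⟨hM₀, hemb₀, hinf₀, fun q hq w hw => ?_, fun w => ?_⟩
        · refine spl_of_gen (K := K) hG ?_ (hSq q hq).2.2 hw
          intro hδ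
          have h5 : ((δ.natAbs : ℕ) : 𝓞 M₀) ∈ w.asIdeal := by
            rcases Int.natAbs_eq δ with e | e
            · rw [e, Int.cast_natCast] at hδ
              exact hδ
            · rw [e, Int.cast_neg, Int.cast_natCast, Ideal.neg_mem_iff] at hδ
              exact hδ
          obtain ⟨p, hp1, hp2, hp3⟩ := nat_prime_mem (v := w) _
            (Int.natAbs_ne_zero.2 hG.ne) h5
          have h6 : p = q := Pool.Agent.H25P.prime_unique hp1 (hSq q hq).1 hp3 hw
          have h7 : p ≤ κ :=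
            (Nat.le_of_dvd (Nat.pos_of_ne_zero (Int.natAbs_ne_zero.2 hG.ne)) hp2).trans hδκ
          have h8 := (hSq q hq).2.1
          omega
        · by_cases hδ : (δ : 𝓞 M₀) ∈ w.asIdeal
          · right
            have h5 : ((δ.natAbs : ℕ) : 𝓞 M₀) ∈ w.asIdeal := by
              rcases Int.natAbs_eq δ with e | e
              · rw [e, Int.cast_natCast] at hδ
                exact hδ
              · rw [e, Int.cast_neg, Int.cast_natCast, Ideal.neg_mem_iff] at hδ
                exact hδ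
            obtain ⟨p, hp1, hp2, hp3⟩ := nat_prime_mem (v := w) _
              (Int.natAbs_ne_zero.2 hG.ne) h5
            have h7 : p ≤ κ :=
              (Nat.le_of_dvd (Nat.pos_of_ne_zero (Int.natAbs_ne_zero.2 hG.ne)) hp2).trans hδκ
            refine h3 _ (below K w).isPrime ?_
            obtain ⟨k, hk⟩ := hpW p hp1 h7
            rw [hk, Nat.cast_mul]
            refine Ideal.mul_mem_right _ _ ?_
            rw [mem_below, map_natCast]
            exact hp3
          · exact Or.inl (unr_of_gen hG hδ)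
      · intro M _ _ _ _ hM
        obtain ⟨n, hn⟩ := hM.deg
        obtain ⟨h5, h6⟩ := h4 M n hn hM.two hM.spl
          (fun ρ => Or.inl (real_ext hM.inf ρ)) hM.ram
        exact ⟨h5, h6, fun hnt w hw k => prd_one (rcp K) hg hdata hM hnt h5 hw k⟩
  refine ⟨S, fun q hq => ⟨(hS q hq).1, hNκ.trans_lt (hS q hq).2.1⟩, ?_⟩
  obtain ⟨c, hc, B₀, h⟩ := hmain
  refine ⟨c, hc, B₀, fun B hB => ?_⟩
  obtain ⟨h1, h2⟩ := h B hB
  refine ⟨h1, h2.trans ?_⟩
  have hsub : {f : (𝓞 K)[X] | Ht g B f ∧ ((∀ q ∈ S, q.Prime ∧ κ < q ∧ SplitMod (q : ℤ) m) →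
      GoodC K M₀ N₀ g S f)} ⊆ {f : (𝓞 K)[X] | Ht g B f ∧ GoodC K M₀ N₀ g S f} :=
    fun f hf => ⟨hf.1, hf.2 hS⟩
  exact_mod_cast Set.ncard_le_ncard hsub (h1.subset fun f hf => hf.1)

end Pool.Agent.H25C
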