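import Pool.Agent.N783.PF.Final
import Pool.Agent.H25P.Emb
import Pool.Agent.H25U.Fin

/-!
# Isometries of Pfister forms
-/

set_option autoImplicit false
set_option linter.all false

open IsDedekindDomain NumberField Polynomial Matrix WithZero
open scoped Classical

namespace Pool.Agent.H25C

open Pool.Agent.N783.PF (Apx Tf HV)
open Pool.Agent.N874.PP (Ev Sq1)
open Pool.Agent.H25P (approx)

/-! ### Exact isometries -/

section field

variable {E : Type} [Field E]

/-- The Pfister form. -/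
def Pf (d D : E) : Fin 4 → E := ![1, -d, -D, d * D]

/-- Isometry of diagonal forms. -/
def Iso (a b : Fin 4 → E) : Prop := ∃ T : Matrix (Fin 4) (Fin 4) E,
  T * Matrix.diagonal a * Tᵀ = Matrix.diagonal b

theorem Iso.trans {a b c : Fin 4 → E} (h : Iso a b) (h' : Iso b c) : Iso a c := by
  obtain ⟨T, hT⟩ := h
  obtain ⟨S, hS⟩ := h'
  refine ⟨S * T, ?_⟩
  rw [← hS, ← hT, Matrix.transpose_mul]
  simp only [Matrix.mul_assoc]

theorem mat_eq (T : Matrix (Fin 4) (Fin 4) E) (a b : Fin 4 → E)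
    (h : ∀ i j, ∑ k, T i k * a k * T j k = if i = j then b i else 0) :
    T * Matrix.diagonal a * Tᵀ = Matrix.diagonal b := by
  ext i j
  rw [Matrix.mul_apply, Matrix.diagonal_apply, ← h i j]
  refine Finset.sum_congr rfl fun k _ => ?_
  rw [Matrix.mul_diagonal, Matrix.transpose_apply]

theorem iso_norm (d D x y : E) : Iso (Pf d D) (Pf d (D * (x ^ 2 - d * y ^ 2))) := by
  refine ⟨!![1, 0, 0, 0; 0, 1, 0, 0; 0, 0, x, y; 0, 0, d * y, x], mat_eq _ _ _ ?_⟩
  intro i j
  fin_cases i <;> fin_cases j <;> simp [Pf, Fin.sum_univ_four] <;> ring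

theorem iso_sq (d D s : E) : Iso (Pf d D) (Pf (d * s ^ 2) D) := by
  refine ⟨!![1, 0, 0, 0; 0, s, 0, 0; 0, 0, 1, 0; 0, 0, 0, s], mat_eq _ _ _ ?_⟩
  intro i j
  fin_cases i <;> fin_cases j <;> simp [Pf, Fin.sum_univ_four] <;> ring

theorem iso_swap (d D : E) : Iso (Pf d D) (Pf D d) := by
  refine ⟨!![1, 0, 0, 0; 0, 0, 1, 0; 0, 1, 0, 0; 0, 0, 0, 1], mat_eq _ _ _ ?_⟩
  intro i j
  fin_cases i <;> fin_cases j <;> simp [Pf, Fin.sum_univ_four] <;> ring

theorem iso_hyp (h2 : (2 : E) ≠ 0) {D : E} (hD : D ≠ 0) (c : E) : Iso (Pf 1 D) (Pf 1 c) := by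
  have h := iso_norm 1 D ((c / D + 1) / 2) ((c / D - 1) / 2)
  have e : D * (((c / D + 1) / 2) ^ 2 - 1 * ((c / D - 1) / 2) ^ 2) = c := by
    field_simp
    ring
  rwa [e] at h

theorem iso_split (h2 : (2 : E) ≠ 0) {d D s : E} (hs : s ≠ 0) (hd : d = s ^ 2) (hD : D ≠ 0)
    (c : E) : Iso (Pf d D) (Pf 1 c) := by
  have h := iso_sq d D s⁻¹
  have e : d * s⁻¹ ^ 2 = 1 := by
    rw [hd]
    field_simp
  rw [e] at h
  exact h.trans (iso_hyp h2 hD c)

theorem pf_ne {d D : E} (hd : d ≠ 0) (hD : D ≠ 0) : (Matrix.diagonal (Pf d D)).det ≠ 0 := by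
  rw [Matrix.det_diagonal, Fin.prod_univ_four]
  show (1 : E) * (-d) * (-D) * (d * D) ≠ 0
  have : (1 : E) * (-d) * (-D) * (d * D) = (d * D) ^ 2 := by ring
  rw [this]
  exact pow_ne_zero _ (mul_ne_zero hd hD)

end field

/-! ### Approximate isometries -/

section apx

variable {K : Type} [Field K] [NumberField K] {w : HeightOneSpectrum (𝓞 K)}

/-- A bound. -/
theorem bd (w : HeightOneSpectrum (𝓞 K)) (x : K) : ∃ c : ℕ, w.valuation K x ≤ exp (c : ℤ) := by
  by_cases h : w.valuation K x = 0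
  · exact ⟨0, by rw [h]; exact zero_le'⟩
  · refine ⟨(log (w.valuation K x)).toNat, ?_⟩
    conv_lhs => rw [← exp_log h]
    rw [exp_le_exp]
    exact Int.self_le_toNat _

theorem bd_fin {σ : Type} [Fintype σ] (w : HeightOneSpectrum (𝓞 K)) (x : σ → K) :
    ∃ c : ℕ, ∀ i, w.valuation K (x i) ≤ exp (c : ℤ) := by
  choose c hc using fun i => bd w (x i)
  refine ⟨∑ i, c i, fun i => (hc i).trans ?_⟩
  rw [exp_le_exp]
  have : c i ≤ ∑ i, c i := Finset.single_le_sum (f := c) (fun _ _ => Nat.zero_le _)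
    (Finset.mem_univ i)
  exact_mod_cast this

theorem apx_trans {A B C : Matrix (Fin 4) (Fin 4) K} (h : Apx w A B) (h' : Apx w B C) :
    Apx w A C := by
  intro k
  obtain ⟨T₂, hT₂⟩ := h' k
  obtain ⟨c, hc⟩ := bd_fin w (fun s : Fin 4 × Fin 4 => T₂ s.1 s.2)
  obtain ⟨T₁, hT₁⟩ := h (k + 2 * c)
  refine ⟨T₂ * T₁, fun i j => ?_⟩
  have e : (T₂ * T₁ * A * (T₂ * T₁)ᵀ) i j - C i j =
      (T₂ * (T₁ * A * T₁ᵀ - B) * T₂ᵀ) i j + ((T₂ * B * T₂ᵀ) i j - C i j) := by
    have e1 : T₂ * T₁ * A * (T₂ * T₁)ᵀ = T₂ * (T₁ * A * T₁ᵀ - B) * T₂ᵀ + T₂ * B * T₂ᵀ := by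
      rw [Matrix.transpose_mul, Matrix.mul_sub, Matrix.sub_mul, sub_add_cancel]
      simp only [Matrix.mul_assoc]
    rw [e1, Matrix.add_apply]
    ring
  rw [e]
  refine (Valuation.map_add _ _ _).trans (max_le ?_ (hT₂ i j))
  rw [Matrix.mul_apply]
  refine Valuation.map_sum_le _ fun b _ => ?_
  rw [Matrix.mul_apply, Finset.sum_mul]
  refine Valuation.map_sum_le _ fun a _ => ?_
  rw [map_mul, map_mul]
  have e2 : exp (-(k : ℤ)) = exp (c : ℤ) * exp (-((k + 2 * c : ℕ) : ℤ)) * exp (c : ℤ) := by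
    rw [← exp_add, ← exp_add]
    congr 1
    push_cast
    ring
  rw [e2]
  exact mul_le_mul' (mul_le_mul' (hc (i, a)) (hT₁ a b)) (hc (j, b))

theorem apx_of_iso {a b : Fin 4 → K} (h : Iso a b) :
    Apx w (Matrix.diagonal a) (Matrix.diagonal b) := by
  obtain ⟨T, hT⟩ := h
  intro k
  refine ⟨T, fun i j => ?_⟩
  have e : T * Matrix.diagonal a * Tᵀ = Matrix.diagonal b := hT
  rw [e, sub_self, map_zero]
  exact zero_le'

/-- `x` is a square in the completion. -/
def ASq (w : HeightOneSpectrum (𝓞 K)) (x : K) : Prop :=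
  ∀ k : ℕ, ∃ s : K, w.valuation K (s ^ 2 - x) ≤ exp (-(k : ℤ))

theorem ASq.one : ASq w (1 : K) := fun k => ⟨1, by rw [one_pow, sub_self, map_zero]; exact zero_le'⟩

theorem ASq.mul_sq {x : K} (h : ASq w x) (c : K) : ASq w (x * c ^ 2) := by
  intro k
  obtain ⟨m, hm⟩ := bd w (c ^ 2)
  obtain ⟨s, hs⟩ := h (k + m)
  refine ⟨s * c, ?_⟩
  have e : (s * c) ^ 2 - x * c ^ 2 = (s ^ 2 - x) * c ^ 2 := by ring
  rw [e, map_mul]
  have e2 : exp (-(k : ℤ)) = exp (-((k + m : ℕ) : ℤ)) * exp (m : ℤ) := by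
    rw [← exp_add]
    congr 1
    push_cast
    ring
  rw [e2]
  exact mul_le_mul' hs hm

theorem ASq.inv {x : K} (h : ASq w x) (hx : x ≠ 0) : ASq w x⁻¹ := by
  have := h.mul_sq x⁻¹
  have e : x * x⁻¹ ^ 2 = x⁻¹ := by field_simp
  rwa [e] at this

/-- Newton's method. -/
theorem asq_of_sq1 (h2 : (2 : 𝓞 K) ∉ w.asIdeal) {x : K} (hx : x ≠ 0) (h : Sq1 w x) : ASq w x := by
  have hv2 : w.valuation K (2 : K) = 1 := by
    have e : algebraMap (𝓞 K) K 2 = 2 := map_ofNat _ 2
    refine le_antisymm ?_ (not_lt.1 fun h => h2 ?_)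
    · have h3 : w.valuation K (algebraMap (𝓞 K) K 2) ≤ 1 := w.valuation_le_one (K := K) (2 : 𝓞 K)
      rwa [e] at h3
    · rw [← w.valuation_lt_one_iff_mem (K := K)]
      show w.valuation K (algebraMap (𝓞 K) K 2) < 1
      rw [e]
      exact h
  have hx0 : w.valuation K x ≠ 0 := (Valuation.ne_zero_iff _).2 hx
  have key : ∀ n : ℕ, ∃ s : K, w.valuation K (s ^ 2 - x) ≤
      exp (-((n + 1 : ℕ) : ℤ)) * w.valuation K x := by
    intro n
    induction n with
    | zero =>
      obtain ⟨s, hs⟩ := h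
      refine ⟨s, ?_⟩
      rw [Valuation.map_sub_swap]
      have h4 : w.valuation K (x - s ^ 2) / w.valuation K x < 1 := by
        rw [div_lt_one₀ (zero_lt_iff.2 hx0)]
        exact hs
      have h5 : w.valuation K (x - s ^ 2) / w.valuation K x ≤ exp (-((0 + 1 : ℕ) : ℤ)) := by
        by_cases h6 : w.valuation K (x - s ^ 2) / w.valuation K x = 0
        · rw [h6]
          exact zero_le'
        · rw [← exp_log h6, ← exp_zero, exp_lt_exp] at h4
          rw [← exp_log h6, exp_le_exp]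
          push_cast
          omega
      rwa [div_le_iff₀ (zero_lt_iff.2 hx0)] at h5
    | succ n ih =>
      obtain ⟨s, hs⟩ := ih
      have hlt : w.valuation K (s ^ 2 - x) < w.valuation K x := by
        refine lt_of_le_of_lt hs ?_
        have : exp (-((n + 1 : ℕ) : ℤ)) < 1 := by
          rw [← exp_zero, exp_lt_exp]
          push_cast
          omega
        calc exp (-((n + 1 : ℕ) : ℤ)) * w.valuation K x < 1 * w.valuation K x :=
              mul_lt_mul_of_pos_right this (zero_lt_iff.2 hx0)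
          _ = _ := one_mul _
      have hs2 : w.valuation K (s ^ 2) = w.valuation K x := by
        have e : s ^ 2 = (s ^ 2 - x) + x := by ring
        rw [e, Valuation.map_add_eq_of_lt_right _ hlt]
      have hs0 : s ≠ 0 := by
        rintro rfl
        rw [zero_pow two_ne_zero, map_zero] at hs2
        exact hx0 hs2.symm
      have h20 : (2 : K) ≠ 0 := two_ne_zero
      refine ⟨s - (s ^ 2 - x) / (2 * s), ?_⟩
      have e : (s - (s ^ 2 - x) / (2 * s)) ^ 2 - x = (s ^ 2 - x) ^ 2 / (2 ^ 2 * s ^ 2) := by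
        field_simp
        ring
      rw [e, map_div₀, map_mul, map_pow (w.valuation K) 2, hv2, one_pow, one_mul, hs2,
        map_pow, pow_two]
      have h7 : w.valuation K (s ^ 2 - x) * w.valuation K (s ^ 2 - x) / w.valuation K x ≤
          (exp (-((n + 1 : ℕ) : ℤ)) * w.valuation K x) *
            (exp (-((n + 1 : ℕ) : ℤ)) * w.valuation K x) / w.valuation K x := by
        rw [div_eq_mul_inv, div_eq_mul_inv]
        exact mul_le_mul' (mul_le_mul' hs hs) le_rfl
      refine h7.trans ?_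
      have e3 : (exp (-((n + 1 : ℕ) : ℤ)) * w.valuation K x) *
            (exp (-((n + 1 : ℕ) : ℤ)) * w.valuation K x) / w.valuation K x =
          exp (-((n + 1 : ℕ) : ℤ)) * exp (-((n + 1 : ℕ) : ℤ)) * w.valuation K x := by
        field_simp
      rw [e3, ← exp_add]
      refine mul_le_mul' ?_ le_rfl
      rw [exp_le_exp]
      push_cast
      omega
  intro k
  obtain ⟨c, hc⟩ := bd w x
  obtain ⟨s, hs⟩ := key (k + c)
  refine ⟨s, hs.trans ?_⟩
  calc exp (-((k + c + 1 : ℕ) : ℤ)) * w.valuation K x ≤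
        exp (-((k + c + 1 : ℕ) : ℤ)) * exp (c : ℤ) := mul_le_mul' le_rfl hc
    _ ≤ _ := by
      rw [← exp_add, exp_le_exp]
      push_cast
      omega

/-- Density. -/
theorem asq_of_isSquare {x : K} (h : IsSquare (algebraMap K (w.adicCompletion K) x)) :
    ASq w x := by
  obtain ⟨z, hz⟩ := h
  intro k
  have hc : Continuous fun y : w.adicCompletion K => y ^ 2 - algebraMap K _ x :=
    (continuous_id.pow 2).sub continuous_const
  have hU : (fun y : w.adicCompletion K => y ^ 2 - algebraMap K (w.adicCompletion K) x) ⁻¹'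
      {t : w.adicCompletion K | Valued.v t ≤ exp (-(k : ℤ))} ∈ nhds z := by
    refine hc.continuousAt.preimage_mem_nhds ?_
    rw [hz, pow_two, sub_self]
    exact Pool.Agent.N591.PF.ball w k
  obtain ⟨s, hs⟩ := (w.denseRange_algebraMap K).mem_nhds hU
  refine ⟨s, ?_⟩
  have e : (algebraMap K (w.adicCompletion K) s) ^ 2 - algebraMap K (w.adicCompletion K) x =
      algebraMap K (w.adicCompletion K) (s ^ 2 - x) := by
    rw [map_sub, map_pow]
  have hs' : Valued.v ((algebraMap K (w.adicCompletion K) s) ^ 2 -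
    algebraMap K (w.adicCompletion K) x) ≤ exp (-(k : ℤ)) := hs
  rw [e, Pool.Agent.N591.PF.vx] at hs'
  exact hs'

theorem apx_asq {a x : Fin 4 → K} (h : ∀ i, ASq w (x i)) :
    Apx w (Matrix.diagonal a) (Matrix.diagonal (fun i => a i * x i)) := by
  intro k
  obtain ⟨c, hc⟩ := bd_fin w a
  choose s hs using fun i => h i (k + c)
  refine ⟨Matrix.diagonal s, fun i j => ?_⟩
  rw [Matrix.diagonal_transpose, Matrix.diagonal_mul_diagonal, Matrix.diagonal_mul_diagonal,
    Matrix.diagonal_apply, Matrix.diagonal_apply]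
  by_cases hij : i = j
  · rw [if_pos hij, if_pos hij]
    have e : s i * a i * s i - a i * x i = a i * (s i ^ 2 - x i) := by ring
    rw [e, map_mul]
    have e2 : exp (-(k : ℤ)) = exp (c : ℤ) * exp (-((k + c : ℕ) : ℤ)) := by
      rw [← exp_add]
      congr 1
      push_cast
      ring
    rw [e2]
    exact mul_le_mul' (hc i) (hs i)
  · rw [if_neg hij, if_neg hij, sub_zero, map_zero]
    exact zero_le'

theorem apx_left {d D x : K} (h : ASq w x) :
    Apx w (Matrix.diagonal (Pf d D)) (Matrix.diagonal (Pf (d * x) D)) := by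
  have h1 := apx_asq (w := w) (a := Pf d D) (x := ![1, x, 1, x]) (by
    intro i
    fin_cases i
    · exact ASq.one
    · exact h
    · exact ASq.one
    · exact h)
  have e : (fun i => Pf d D i * ![1, x, 1, x] i) = Pf (d * x) D := by
    funext i
    fin_cases i <;> simp [Pf]
    ring
  rwa [e] at h1

theorem apx_right {d D x : K} (h : ASq w x) :
    Apx w (Matrix.diagonal (Pf d D)) (Matrix.diagonal (Pf d (D * x))) := by
  have h1 := apx_asq (w := w) (a := Pf d D) (x := ![1, 1, x, x]) (by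
    intro i
    fin_cases i
    · exact ASq.one
    · exact ASq.one
    · exact h
    · exact h)
  have e : (fun i => Pf d D i * ![1, 1, x, x] i) = Pf d (D * x) := by
    funext i
    fin_cases i <;> simp [Pf]
    ring
  rwa [e] at h1

end apx

end Pool.Agent.H25C
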