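import Pool.Agent.H25U.Root

/-!
# The quadratic subextension of a cyclic extension of degree `2 ^ n` and the stable primes
-/

set_option autoImplicit false
set_option linter.all false

open IsDedekindDomain NumberField Polynomial
open scoped Classical IntermediateField Pointwise

namespace Pool.Agent.H25C

open Pool.Agent.H25U
open Pool.Agent.H25P (Fixed smul_coe approx)
open Pool.Agent.N874.PP (Ev Sq1)

/-- The elements with `x ^ q = x`. -/
theorem mem_of_pow {k k' : Type*} [Field k] [Field k'] [Finite k] [Algebra k k'] {x : k'}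
    (hx : x ^ Nat.card k = x) : ∃ y : k, algebraMap k k' y = x := by
  haveI := Fintype.ofFinite k
  have hq : 1 < Nat.card k := Finite.one_lt_card
  set P : k'[X] := X ^ Nat.card k - X with hP
  have hP0 : P ≠ 0 := FiniteField.X_pow_card_sub_X_ne_zero k' hq
  have hPd : P.natDegree = Nat.card k := FiniteField.X_pow_card_sub_X_natDegree_eq k' hq
  have h1 : (Finset.univ.image (algebraMap k k')) ⊆ P.roots.toFinset := by
    intro z hz
    obtain ⟨y, -, rfl⟩ := Finset.mem_image.1 hz
    rw [Multiset.mem_toFinset, mem_roots hP0, IsRoot, hP, eval_sub, eval_pow, eval_X, ← map_pow,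
      Nat.card_eq_fintype_card, FiniteField.pow_card, sub_self]
  have h2 : P.roots.toFinset.card ≤ (Finset.univ.image (algebraMap k k')).card := by
    rw [Finset.card_image_of_injective _ (algebraMap k k').injective, Finset.card_univ,
      ← Nat.card_eq_fintype_card, ← hPd]
    exact (Multiset.toFinset_card_le _).trans (card_roots' P)
  have h3 := Finset.eq_of_subset_of_card_le h1 h2
  have h4 : x ∈ P.roots.toFinset := by
    rw [Multiset.mem_toFinset, mem_roots hP0, IsRoot, hP, eval_sub, eval_pow, eval_X, hx, sub_self]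
  rw [← h3] at h4
  obtain ⟨y, -, hy⟩ := Finset.mem_image.1 h4
  exact ⟨y, hy⟩

section

variable {K M : Type} [Field K] [NumberField K] [Field M] [NumberField M] [Algebra K M]

theorem order_gen [IsGalois K M] {n : ℕ} (hn : Module.finrank K M = 2 ^ n) {τ : M ≃ₐ[K] M}
    (hτ : ∀ σ : M ≃ₐ[K] M, σ ∈ Subgroup.zpowers τ) : orderOf τ = 2 ^ n := by
  rw [← hn, ← IsGalois.card_aut_eq_finrank K M, ← Nat.card_zpowers]
  have h1 : Subgroup.zpowers τ = ⊤ := by
    rw [eq_top_iff]
    exact fun σ _ => hτ σ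
  rw [h1]
  exact Nat.card_congr (Subgroup.topEquiv (G := M ≃ₐ[K] M)).toEquiv

theorem zpow_neg {τ : M ≃ₐ[K] M} {s : M} (h : τ s = -s) (k : ℤ) :
    (Even k → (τ ^ k) s = s) ∧ (Odd k → (τ ^ k) s = -s) := by
  have h2 : (τ ^ (2 : ℤ)) s = s := by
    rw [zpow_ofNat, pow_two, AlgEquiv.mul_apply, h, map_neg, h, neg_neg]
  have h3 : ∀ j : ℤ, ((τ ^ (2 : ℤ)) ^ j) s = s := by
    intro j
    have h4 : τ ^ (2 : ℤ) ∈ MulAction.stabilizer (M ≃ₐ[K] M) s := h2
    exact Subgroup.zpow_mem _ h4 j
  constructor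
  · rintro ⟨j, rfl⟩
    rw [← two_mul, zpow_mul]
    exact h3 j
  · rintro ⟨j, rfl⟩
    rw [zpow_add, zpow_mul, zpow_one, AlgEquiv.mul_apply, h, map_neg, h3]

/-- The square root. -/
theorem quad [IsGalois K M] {n : ℕ} (hn : Module.finrank K M = 2 ^ n) (h1 : 1 ≤ n)
    (hcyc : IsCyclic (M ≃ₐ[K] M)) : ∃ (d : K) (s : M) (τ : M ≃ₐ[K] M), s ≠ 0 ∧
      s ^ 2 = algebraMap K M d ∧ τ s = -s ∧ ∀ σ : M ≃ₐ[K] M, σ ∈ Subgroup.zpowers τ := by
  obtain ⟨τ, hτ⟩ := hcyc.exists_generator
  have hord := order_gen hn hτ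
  obtain ⟨x, hx, hx1⟩ : ∃ x ∈ IntermediateField.fixedField (Subgroup.zpowers (τ ^ 2)),
      τ x ≠ x := by
    by_contra hcon
    push Not at hcon
    have h2 : τ ∈ IntermediateField.fixingSubgroup
        (IntermediateField.fixedField (Subgroup.zpowers (τ ^ 2))) := by
      rw [IntermediateField.mem_fixingSubgroup_iff]
      exact hcon
    rw [IntermediateField.fixingSubgroup_fixedField, Subgroup.mem_zpowers_iff] at h2
    obtain ⟨k, hk⟩ := h2
    have h3 : τ ^ (2 * k - 1) = 1 := by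
      rw [zpow_sub, zpow_mul, zpow_one]
      have e : τ ^ (2 : ℤ) = τ ^ 2 := by norm_cast
      rw [e, hk, mul_inv_cancel]
    rw [← orderOf_dvd_iff_zpow_eq_one, hord] at h3
    have h4 : (2 : ℤ) ∣ 2 * k - 1 := by
      refine dvd_trans ?_ h3
      push_cast
      exact dvd_pow_self 2 (by omega)
    omega
  have hx2 : τ (τ x) = x := hx ⟨τ ^ 2, Subgroup.mem_zpowers _⟩
  set s : M := x - τ x with hs
  have hτs : τ s = -s := by
    rw [hs, map_sub, hx2]
    ring
  have hs0 : s ≠ 0 := fun h0 => hx1 (sub_eq_zero.1 h0).symm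
  obtain ⟨d, hd⟩ : ∃ d : K, algebraMap K M d = s ^ 2 := by
    have h3 := (IsGalois.mem_range_algebraMap_iff_fixed (F := K) (E := M) (s ^ 2)).2 (by
      intro σ
      obtain ⟨k, rfl⟩ := Subgroup.mem_zpowers_iff.1 (hτ σ)
      rw [map_pow]
      rcases Int.even_or_odd k with hk | hk
      · rw [(zpow_neg hτs k).1 hk]
      · rw [(zpow_neg hτs k).2 hk, neg_sq])
    exact h3
  exact ⟨d, s, τ, hs0, hd.symm, hτs, hτ⟩

theorem val_two {v : HeightOneSpectrum (𝓞 M)} (h2 : (2 : 𝓞 M) ∉ v.asIdeal) :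
    v.valuation M (2 : M) = 1 := by
  have e : algebraMap (𝓞 M) M 2 = 2 := map_ofNat _ 2
  refine le_antisymm ?_ (not_lt.1 fun h => h2 ?_)
  · have h3 : v.valuation M (algebraMap (𝓞 M) M 2) ≤ 1 := v.valuation_le_one (K := M) (2 : 𝓞 M)
    rwa [e] at h3
  · rw [← v.valuation_lt_one_iff_mem (K := M)]
    show v.valuation M (algebraMap (𝓞 M) M 2) < 1
    rw [e]
    exact h

/-- `d` is not a square at the primes under a stable prime. -/
theorem not_sq {v : HeightOneSpectrum (𝓞 M)} (hfix : Fixed K v) (h2 : (2 : 𝓞 M) ∉ v.asIdeal)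
    {d : K} {s : M} {τ : M ≃ₐ[K] M} (hs0 : s ≠ 0) (hs : s ^ 2 = algebraMap K M d)
    (hτ : τ s = -s)
    (hval : ∀ x : K, v.valuation M (algebraMap K M x) = (below K v).valuation K x) :
    ¬ Sq1 (below K v) d := by
  rintro ⟨x, hx⟩
  rw [← hval, ← hval, map_sub, map_pow, ← hs, sq_sub_sq, map_mul, map_pow, pow_two] at hx
  have hv0 : v.valuation M s ≠ 0 := (Valuation.ne_zero_iff _).2 hs0
  have key : ∀ y : K, ¬ v.valuation M (s - algebraMap K M y) < v.valuation M s := by
    intro y hy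
    have h3 : v.valuation M (s + algebraMap K M y) < v.valuation M s := by
      have h4 := hfix τ (s - algebraMap K M y)
      rw [map_sub, AlgEquiv.commutes, hτ] at h4
      have e : -s - algebraMap K M y = -(s + algebraMap K M y) := by ring
      rw [e, Valuation.map_neg] at h4
      rw [h4]
      exact hy
    have h5 : v.valuation M (2 * s) < v.valuation M s := by
      have e : 2 * s = (s - algebraMap K M y) + (s + algebraMap K M y) := by ring
      rw [e]
      exact lt_of_le_of_lt (Valuation.map_add _ _ _) (max_lt hy h3)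
    rw [map_mul, val_two h2, one_mul] at h5
    exact lt_irrefl _ h5
  have h3 : ¬ v.valuation M (s + algebraMap K M x) < v.valuation M s := by
    have := key (-x)
    rwa [map_neg, sub_neg_eq_add] at this
  exact absurd hx (not_lt.2 (mul_le_mul' (not_lt.1 h3) (not_lt.1 (key x))))

/-- `d` is a square at the primes under an unramified prime which is not stable. -/
theorem sq_of [IsGalois K M] {n : ℕ} (hn : Module.finrank K M = 2 ^ n)
    {v : HeightOneSpectrum (𝓞 M)} (hfix : ¬ Fixed K v) (hur : Unr K v)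
    (h2 : (2 : 𝓞 M) ∉ v.asIdeal)
    {d : K} {s : M} {τ : M ≃ₐ[K] M} (hs0 : s ≠ 0) (hs : s ^ 2 = algebraMap K M d)
    (hτ : τ s = -s) (hgen : ∀ σ : M ≃ₐ[K] M, σ ∈ Subgroup.zpowers τ) : Sq1 (below K v) d := by
  have hval := val_below (L := K) (𝔓 := v) hur
  haveI := v.isPrime
  haveI := v.isMaximal
  haveI : Finite (𝓞 M ⧸ v.asIdeal) := Ideal.finiteQuotientOfFreeOfNeBot _ v.ne_bot
  obtain ⟨φ, hφ⟩ := IsArithFrobAt.exists_of_isInvariant (𝓞 K) (M ≃ₐ[K] M) v.asIdeal
  have hφ1 : ∀ x : 𝓞 M, φ • x - x ^ Nat.card (𝓞 K ⧸ v.asIdeal.under (𝓞 K)) ∈ v.asIdeal :=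
    fun x => hφ x
  have hφv : ∀ x : M, v.valuation M (φ x) = v.valuation M x := by
    refine Unr.of_ideal fun y => ?_
    have h3 := hφ.comap_eq
    have h4 : y ∈ v.asIdeal.comap (MulSemiringAction.toAlgHom (𝓞 K) (𝓞 M) φ) ↔ y ∈ v.asIdeal := by
      rw [h3]
    exact h4
  have hφs : φ s = s := by
    obtain ⟨k, hk⟩ := Subgroup.mem_zpowers_iff.1 (hgen φ)
    rcases Int.even_or_odd k with he | ho
    · rw [← hk]
      exact (zpow_neg hτ k).1 he
    · exfalso
      apply hfix
      have hord := order_gen hn hgen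
      have hcop : IsCoprime k ((2 : ℤ) ^ n) := by
        apply IsCoprime.pow_right
        rw [Int.isCoprime_iff_gcd_eq_one]
        obtain ⟨j, rfl⟩ := ho
        rw [← Int.isCoprime_iff_gcd_eq_one]
        exact ⟨1, -j, by ring⟩
      obtain ⟨a, b, hab⟩ := hcop
      have h5 : τ = φ ^ a := by
        have h6 : τ ^ (b * 2 ^ n) = 1 := by
          rw [← orderOf_dvd_iff_zpow_eq_one, hord]
          push_cast
          exact dvd_mul_left _ _
        calc τ = τ ^ (a * k + b * 2 ^ n) := by rw [hab, zpow_one]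
          _ = φ ^ a := by rw [zpow_add, h6, mul_one, mul_comm, zpow_mul, hk]
      intro σ x
      obtain ⟨j, rfl⟩ := Subgroup.mem_zpowers_iff.1 (hgen σ)
      rw [h5, ← zpow_mul]
      have h7 : ∀ (m : ℕ) (x : M), v.valuation M ((φ ^ m) x) = v.valuation M x := by
        intro m
        induction m with
        | zero => intro x; rw [pow_zero]; rfl
        | succ m ih => intro x; rw [pow_succ, AlgEquiv.mul_apply, ih, hφv]
      have h8 : ∀ (m : ℕ) (x : M), v.valuation M (((φ ^ m)⁻¹ : M ≃ₐ[K] M) x) =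
          v.valuation M x := by
        intro m x
        rw [← h7 m, ← AlgEquiv.mul_apply, mul_inv_cancel]
        rfl
      rcases Int.eq_nat_or_neg (a * j) with ⟨m, hm | hm⟩
      · rw [hm, zpow_natCast]
        exact h7 m x
      · rw [hm, _root_.zpow_neg, zpow_natCast]
        exact h8 m x
  -- a unit
  have hv0 : v.valuation M s ≠ 0 := (Valuation.ne_zero_iff _).2 hs0
  obtain ⟨t, ht⟩ := (below K v).valuation_surjective K (v.valuation M s)
  have ht' : v.valuation M (algebraMap K M t) = v.valuation M s := by rw [hval, ht]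
  have ht0 : algebraMap K M t ≠ 0 := by
    rw [← Valuation.ne_zero_iff (v.valuation M), ht']
    exact hv0
  set s' : M := s / algebraMap K M t with hs'
  have hs'1 : v.valuation M s' = 1 := by
    rw [hs', map_div₀, ht', div_self hv0]
  have hφs' : φ s' = s' := by
    rw [hs', map_div₀, hφs, AlgEquiv.commutes]
  obtain ⟨a, ha⟩ := approx v hs'1.le
  have h3 : a - a ^ Nat.card (𝓞 K ⧸ v.asIdeal.under (𝓞 K)) ∈ v.asIdeal := by
    rw [← v.valuation_lt_one_iff_mem (K := M)]
    have e : algebraMap (𝓞 M) M (a - a ^ Nat.card (𝓞 K ⧸ v.asIdeal.under (𝓞 K))) =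
        -(s' - (a : M)) + (φ (s' - (a : M)) +
        algebraMap (𝓞 M) M (φ • a - a ^ Nat.card (𝓞 K ⧸ v.asIdeal.under (𝓞 K)))) := by
      have e1 : algebraMap (𝓞 M) M (φ • a) = φ (a : M) := rfl
      rw [map_sub, map_sub, map_sub, e1, hφs']
      ring
    show v.valuation M (algebraMap (𝓞 M) M
      (a - a ^ Nat.card (𝓞 K ⧸ v.asIdeal.under (𝓞 K)))) < 1
    rw [e]
    refine lt_of_le_of_lt (Valuation.map_add _ _ _) (max_lt ?_ ?_)
    · rw [Valuation.map_neg]
      exact ha
    · refine lt_of_le_of_lt (Valuation.map_add _ _ _) (max_lt ?_ ?_)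
      · rw [hφv]
        exact ha
      · rw [v.valuation_lt_one_iff_mem]
        exact hφ1 a
  -- the residue field
  haveI := (below K v).isPrime
  haveI := (below K v).isMaximal
  letI : Field (𝓞 K ⧸ (below K v).asIdeal) := Ideal.Quotient.field _
  letI : Field (𝓞 M ⧸ v.asIdeal) := Ideal.Quotient.field _
  haveI : Finite (𝓞 K ⧸ (below K v).asIdeal) :=
    Ideal.finiteQuotientOfFreeOfNeBot _ (below K v).ne_bot
  haveI hlo : v.asIdeal.LiesOver (below K v).asIdeal := ⟨rfl⟩
  obtain ⟨y, hy⟩ := mem_of_pow (k := 𝓞 K ⧸ (below K v).asIdeal) (k' := 𝓞 M ⧸ v.asIdeal)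
    (x := Ideal.Quotient.mk _ a) (by
      rw [← map_pow, eq_comm, Ideal.Quotient.eq]
      exact h3)
  obtain ⟨b, rfl⟩ := Ideal.Quotient.mk_surjective y
  have hb : a - algebraMap (𝓞 K) (𝓞 M) b ∈ v.asIdeal := by
    rw [← Ideal.Quotient.eq, ← hy]
    rfl
  -- the square root
  refine ⟨t * (b : K), ?_⟩
  have hb' : v.valuation M (s' - algebraMap K M (b : K)) < 1 := by
    have e : s' - algebraMap K M (b : K) = (s' - (a : M)) +
        algebraMap (𝓞 M) M (a - algebraMap (𝓞 K) (𝓞 M) b) := by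
      have e1 : algebraMap (𝓞 M) M (algebraMap (𝓞 K) (𝓞 M) b) = algebraMap K M (b : K) := rfl
      have e2 : algebraMap (𝓞 M) M a = (a : M) := rfl
      rw [map_sub, e1, e2]
      ring
    rw [e]
    refine lt_of_le_of_lt (Valuation.map_add _ _ _) (max_lt ha ?_)
    rw [v.valuation_lt_one_iff_mem]
    exact hb
  have hb1 : v.valuation M (s' + algebraMap K M (b : K)) ≤ 1 := by
    have e : s' + algebraMap K M (b : K) = 2 * s' + -(s' - algebraMap K M (b : K)) := by ring
    rw [e]
    refine (Valuation.map_add _ _ _).trans (max_le ?_ ?_)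
    · rw [map_mul, val_two h2, hs'1, mul_one]
    · rw [Valuation.map_neg]
      exact hb'.le
  rw [← hval, ← hval, map_sub, map_pow, ← hs, map_mul]
  have e3 : s = algebraMap K M t * s' := by
    rw [hs']
    field_simp
  have h9 : v.valuation M (algebraMap K M t ^ 2) ≠ 0 :=
    (Valuation.ne_zero_iff _).2 (pow_ne_zero _ ht0)
  have e4 : (algebraMap K M t * s') ^ 2 - (algebraMap K M t * algebraMap K M (b : K)) ^ 2 =
      algebraMap K M t ^ 2 * ((s' + algebraMap K M (b : K)) * (s' - algebraMap K M (b : K))) := by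
    ring
  have e5 : v.valuation M ((algebraMap K M t * s') ^ 2) =
      v.valuation M (algebraMap K M t ^ 2) * 1 := by
    rw [mul_pow, map_mul, map_pow (v.valuation M) s', hs'1, one_pow]
  rw [e3, e4, map_mul, map_mul, e5]
  refine mul_lt_mul_of_pos_left ?_ (zero_lt_iff.2 h9)
  refine lt_of_le_of_lt (mul_le_mul' hb1 le_rfl) ?_
  rw [one_mul]
  exact hb'

end

end Pool.Agent.H25C
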