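import Pool.Agent.H25C.Fin
import Pool.Agent.TH115.TC.Compl

/-!
# Intermediate fields
-/

set_option autoImplicit false
set_option linter.all false

open IsDedekindDomain NumberField Polynomial
open scoped Classical IntermediateField Pointwise

namespace Pool.Agent.H25C

open Pool.Agent.H25U
open Pool.Agent.N783.PF
open Pool.Agent.N783.PQ (LocIm)
open Pool.Agent.N874.JM (LocF)
open Pool.Agent.H25P (fM Fixed Signs real_ext even_inf nat_prime_mem)

/-- The norm as a determinant. -/
theorem nrm_mat {C : Type*} [Field C] {g : C[X]} (hg : g.Monic) (k : C[X]) {n : ℕ}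
    (hn : g.natDegree = n) : Algebra.norm C (AdjoinRoot.mk g k) =
      Matrix.det (Matrix.of fun i j : Fin n => ((k * X ^ (j : ℕ)) %ₘ g).coeff i) := by
  subst hn
  rw [Algebra.norm_eq_matrix_det (AdjoinRoot.powerBasisAux' hg)]
  congr 1
  ext i j
  rw [Algebra.leftMulMatrix_eq_repr_mul, AdjoinRoot.powerBasisAux'_repr_apply_to_fun,
    Matrix.of_apply]
  have e : (AdjoinRoot.powerBasisAux' hg) j = AdjoinRoot.mk g (X ^ (j : ℕ)) := by
    rw [map_pow, AdjoinRoot.mk_X]
    exact (AdjoinRoot.powerBasis' hg).basis_eq_pow j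
  rw [e, ← map_mul, AdjoinRoot.modByMonicHom_mk]

theorem nrm_map {A B : Type*} [Field A] [Field B] (φ : A →+* B) {f : A[X]} (hf : f.Monic)
    (h : A[X]) : Algebra.norm B (AdjoinRoot.mk (f.map φ) (h.map φ)) =
      φ (Algebra.norm A (AdjoinRoot.mk f h)) := by
  rw [nrm_mat hf h rfl, nrm_mat (hf.map φ) (h.map φ) (hf.natDegree_map φ), RingHom.map_det]
  congr 1
  ext i j
  rw [RingHom.mapMatrix_apply, Matrix.map_apply, Matrix.of_apply, Matrix.of_apply, ← coeff_map,
    map_modByMonic φ hf, Polynomial.map_mul, Polynomial.map_pow, map_X]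

section down

variable {E M : Type} [Field E] [NumberField E] [Field M] [NumberField M] [Algebra E M]

/-- The valuations at a prime and at the prime below. -/
theorem lies_below (w : HeightOneSpectrum (𝓞 M)) (x : E) :
    ((below E w).valuation E x ≤ 1 → w.valuation M (algebraMap E M x) ≤ 1) ∧
    ((below E w).valuation E x < 1 → w.valuation M (algebraMap E M x) < 1) := by
  haveI := w.isPrime
  haveI := (below E w).isPrime
  haveI hlo : w.asIdeal.LiesOver (below E w).asIdeal := ⟨rfl⟩
  have h4 := HeightOneSpectrum.valuation_liesOver M (below E w) w x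
  have hne : Ideal.ramificationIdx' (below E w).asIdeal w.asIdeal ≠ 0 :=
    Ideal.IsDedekindDomain.ramificationIdx'_ne_zero_of_liesOver w.asIdeal (below E w).ne_bot
  rw [← h4]
  exact ⟨fun h => pow_le_one' h _, fun h => pow_lt_one' h hne⟩

/-- The map of the completions. -/
theorem exists_comp (w : HeightOneSpectrum (𝓞 M)) :
    ∃ j : (below E w).adicCompletion E →+* w.adicCompletion M,
    ∀ x : E, j (algebraMap E ((below E w).adicCompletion E) x) =
      algebraMap M (w.adicCompletion M) (algebraMap E M x) := by
  obtain ⟨j, h, -, -⟩ := Pool.Agent.TH115.GD.exists_compl_map (below E w) w (algebraMap E M)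
    (fun x => (lies_below w x).1) (fun x => (lies_below w x).2)
  exact ⟨j, h⟩

/-- The local conditions go up. -/
theorem locF_up {A B : Type} [Field A] [Field B] [Algebra E A] [Algebra M B] (j : A →+* B)
    (hj : ∀ x : E, j (algebraMap E A x) = algebraMap M B (algebraMap E M x)) {f h : E[X]}
    (hl : LocF A f h) : LocF B (f.map (algebraMap E M)) (h.map (algebraMap E M)) := by
  have e : ∀ p : E[X], (p.map (algebraMap E A)).map j =
      (p.map (algebraMap E M)).map (algebraMap M B) := by
    intro p
    rw [Polynomial.map_map, Polynomial.map_map]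
    congr 1
    exact RingHom.ext hj
  obtain ⟨l, s, h1, h2⟩ := hl
  refine ⟨l.map fun p => (p.1.map j, p.2.map j), s.map j, ?_, ?_⟩
  · intro p hp
    obtain ⟨q, hq, rfl⟩ := List.mem_map.1 hp
    obtain ⟨a1, a2, a3⟩ := h1 q hq
    refine ⟨a1.map j, ?_, ?_⟩
    · rw [← e]
      exact a2.map (mapRingHom j)
    · rw [← e]
      have := Polynomial.map_dvd j a3
      rwa [Polynomial.map_sub, Polynomial.map_pow] at this
  · have h3 := Polynomial.map_dvd j h2
    rw [Polynomial.map_sub, Polynomial.map_mul, Polynomial.map_pow, e, e] at h3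
    convert h3 using 3
    rw [List.map_map, Polynomial.map_list_prod, List.map_map]
    congr 1
    apply List.map_congr_left
    intro q hq
    simp only [Function.comp_apply]
    rw [(h1 q hq).1.natDegree_map j, Polynomial.map_mul, Polynomial.map_pow, Polynomial.map_neg,
      Polynomial.map_one]

/-- The 2-Selmer group over a subfield is zero. -/
theorem selZero_down [IsGalois E M] {f : (𝓞 E)[X]} (hm : f.Monic) (hd : Odd f.natDegree)
    (hi : Irreducible (fF (fM M f))) (hs : SelZero (fM M f)) : SelZero f := by
  have hF : fF (fM M f) = (fF f).map (algebraMap E M) := Pool.Agent.H25P.fF_fM f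
  set F : E[X] := fF f with hFdef
  have hmF : F.Monic := hm.map _
  have hdF : Odd F.natDegree := by rw [hFdef, fF, hm.natDegree_map]; exact hd
  intro h hcop hnorm hloc hreal
  rw [← hFdef] at hcop hnorm ⊢
  unfold SelZero at hs
  rw [hF] at hs hi
  have hcop' : IsCoprime (h.map (algebraMap E M)) (F.map (algebraMap E M)) :=
    hcop.map (mapRingHom (algebraMap E M))
  obtain ⟨c, hc⟩ := hnorm
  have hnorm' : Algebra.norm M (AdjoinRoot.mk (F.map (algebraMap E M)) (h.map (algebraMap E M))) =
      algebraMap E M c * algebraMap E M c := by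
    rw [nrm_map (algebraMap E M) hmF h, hc, map_mul]
  obtain ⟨s, hs1⟩ := hs (h.map (algebraMap E M)) hcop' ⟨_, hnorm'⟩ (fun w => by
      obtain ⟨j, hj⟩ := exists_comp (E := E) w
      exact locF_up j hj (hloc (below E w))) (fun σ => by
      have h1 := hreal (σ.comp (algebraMap E M))
      rw [← Polynomial.map_map, ← Polynomial.map_map] at h1
      exact h1)
  set FM : M[X] := F.map (algebraMap E M) with hFM
  have hmFM : FM.Monic := hmF.map _
  have hdFM : FM.natDegree = F.natDegree := hmF.natDegree_map _
  -- the reduced square root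
  set t : M[X] := s %ₘ FM with ht
  have ht1 : FM ∣ h.map (algebraMap E M) - t ^ 2 := by
    have h2 : FM ∣ s - t := by
      rw [ht, modByMonic_eq_sub_mul_div s FM, sub_sub_cancel]
      exact dvd_mul_right _ _
    have h3 : h.map (algebraMap E M) - t ^ 2 = (h.map (algebraMap E M) - s ^ 2) +
        (s - t) * (s + t) := by ring
    rw [h3]
    exact dvd_add hs1 (h2.mul_right _)
  have htd : t.degree < FM.degree := degree_modByMonic_lt _ hmFM
  have hσF : ∀ (σ : M ≃ₐ[E] M) (p : E[X]),
      (p.map (algebraMap E M)).map (σ : M →+* M) = p.map (algebraMap E M) := by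
    intro σ p
    rw [Polynomial.map_map]
    congr 1
    exact RingHom.ext fun x => σ.commutes x
  -- the norm of the square root
  set n : M := Algebra.norm M (AdjoinRoot.mk FM t) with hn
  have hmk : AdjoinRoot.mk FM (h.map (algebraMap E M)) = AdjoinRoot.mk FM t ^ 2 := by
    rw [← map_pow, ← sub_eq_zero, ← map_sub, AdjoinRoot.mk_eq_zero]
    exact ht1
  have hn2 : n ^ 2 = algebraMap E M c * algebraMap E M c := by
    rw [hn, ← map_pow, ← hmk]
    exact hnorm'
  have hc0 : c ≠ 0 := by
    intro h0
    rw [h0, mul_zero] at hc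
    obtain ⟨a, b, hab⟩ := hcop
    have h5 := congrArg (AdjoinRoot.mk F) hab
    rw [map_add, map_mul, map_mul, AdjoinRoot.mk_self, mul_zero, add_zero, map_one] at h5
    have h6 := congrArg (Algebra.norm E) h5
    rw [map_mul, hc, mul_zero, map_one] at h6
    exact zero_ne_one h6
  have hn0 : n ≠ 0 := by
    intro h0
    rw [h0] at hn2
    have h5 : algebraMap E M c * algebraMap E M c = 0 := by rw [← hn2]; ring
    have h6 : algebraMap E M c = 0 := by
      rcases mul_eq_zero.1 h5 with h | h <;> exact h
    exact hc0 ((map_eq_zero _).1 h6)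
  have hσn : ∀ σ : M ≃ₐ[E] M, σ n = n := by
    intro σ
    have h5 : (n - algebraMap E M c) * (n + algebraMap E M c) = 0 := by
      linear_combination hn2
    rcases mul_eq_zero.1 h5 with h6 | h6
    · rw [sub_eq_zero.1 h6, σ.commutes]
    · rw [eq_neg_of_add_eq_zero_left h6, map_neg, σ.commutes]
  have hfix : ∀ σ : M ≃ₐ[E] M, t.map (σ : M →+* M) = t := by
    intro σ
    have h5 : FM ∣ h.map (algebraMap E M) - (t.map (σ : M →+* M)) ^ 2 := by
      have h6 := Polynomial.map_dvd (σ : M →+* M) ht1
      rw [Polynomial.map_sub, Polynomial.map_pow, hσF, hσF] at h6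
      exact h6
    have h7 : FM ∣ (t - t.map (σ : M →+* M)) * (t + t.map (σ : M →+* M)) := by
      have e : (t - t.map (σ : M →+* M)) * (t + t.map (σ : M →+* M)) =
          (h.map (algebraMap E M) - (t.map (σ : M →+* M)) ^ 2) -
          (h.map (algebraMap E M) - t ^ 2) := by ring
      rw [e]
      exact dvd_sub h5 ht1
    have hdσ : (t.map (σ : M →+* M)).degree < FM.degree :=
      (degree_map_le).trans_lt htd
    rcases hi.prime.dvd_or_dvd h7 with h8 | h8
    · have h9 := eq_zero_of_dvd_of_degree_lt h8
        (lt_of_le_of_lt (degree_sub_le _ _) (max_lt htd hdσ))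
      exact (sub_eq_zero.1 h9).symm
    · exfalso
      have h9 := eq_zero_of_dvd_of_degree_lt h8
        (lt_of_le_of_lt (degree_add_le _ _) (max_lt htd hdσ))
      have h10 : t.map (σ : M →+* M) = -t := eq_neg_of_add_eq_zero_right h9
      have h11 := nrm_map (σ : M →+* M) hmFM t
      have h12 : FM.map (σ : M →+* M) = FM := hσF σ F
      rw [h12, h10] at h11
      have h13 : AdjoinRoot.mk FM (-t) = algebraMap M (AdjoinRoot FM) (-1) * AdjoinRoot.mk FM t := by
        rw [map_neg, map_neg, map_one]
        ring
      have h14 : Module.finrank M (AdjoinRoot FM) = FM.natDegree := by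
        rw [(AdjoinRoot.powerBasis' hmFM).finrank]
        rfl
      rw [h13, map_mul, Algebra.norm_algebraMap, h14, hdFM, hdF.neg_one_pow] at h11
      have h15 : -1 * n = σ n := h11
      rw [hσn] at h15
      have h16 : n + n = 0 := by linear_combination -h15
      rw [← two_mul] at h16
      exact hn0 ((mul_eq_zero.1 h16).resolve_left two_ne_zero)
  -- the square root is defined over `E`
  have hcoe : ∀ i, ∃ a : E, algebraMap E M a = t.coeff i := by
    intro i
    apply (IsGalois.mem_range_algebraMap_iff_fixed (F := E) (t.coeff i)).2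
    intro σ
    have h5 := congrArg (fun p => coeff p i) (hfix σ)
    simp only [coeff_map] at h5
    exact h5
  obtain ⟨r, hr⟩ : ∃ r : E[X], r.map (algebraMap E M) = t := by
    have h5 : t ∈ Polynomial.lifts (algebraMap E M) := by
      rw [Polynomial.lifts_iff_coeff_lifts]
      intro i
      exact hcoe i
    rw [Polynomial.mem_lifts] at h5
    exact h5
  refine ⟨r, ?_⟩
  have h5 : F.map (algebraMap E M) ∣ (h - r ^ 2).map (algebraMap E M) := by
    rw [Polynomial.map_sub, Polynomial.map_pow, hr]
    exact ht1
  exact (Polynomial.map_dvd_map' (algebraMap E M)).1 h5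

end down

end Pool.Agent.H25C
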