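import Pool.Agent.H25C.Sub

/-!
# The class of extensions and intermediate fields
-/

set_option autoImplicit false
set_option linter.all false

open IsDedekindDomain NumberField Polynomial
open scoped Classical IntermediateField Pointwise

namespace Pool.Agent.H25C

open Pool.Agent.H25U
open Pool.Agent.N783.PF
open Pool.Agent.N783.PQ (LocIm)
open Pool.Agent.N874.JM (LocF)
open Pool.Agent.H25P (fM Fixed Signs real_ext even_inf nat_prime_mem)

/-- A prime with ramification index one is unramified. -/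
theorem unr_of_val {L Ω : Type} [Field L] [NumberField L] [Field Ω] [NumberField Ω] [Algebra L Ω]
    [IsGalois L Ω] {𝔓 : HeightOneSpectrum (𝓞 Ω)}
    (h : ∀ x : L, 𝔓.valuation Ω (algebraMap L Ω x) = (below L 𝔓).valuation L x) : Unr L 𝔓 := by
  haveI := 𝔓.isPrime
  haveI := (below L 𝔓).isPrime
  haveI hlo : 𝔓.asIdeal.LiesOver (below L 𝔓).asIdeal := ⟨rfl⟩
  haveI := perfect (below L 𝔓)
  obtain ⟨π, hπ⟩ := (below L 𝔓).valuation_exists_uniformizer L
  have h4 := HeightOneSpectrum.valuation_liesOver Ω (below L 𝔓) 𝔓 π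
  rw [h, hπ, ← WithZero.exp_nsmul, WithZero.exp_inj] at h4
  have h5 : Ideal.ramificationIdx' (below L 𝔓).asIdeal 𝔓.asIdeal = 1 := by
    simp only [nsmul_eq_mul] at h4
    omega
  have h3 := Ideal.card_inertia_eq_ramificationIdxIn (G := Ω ≃ₐ[L] Ω) (below L 𝔓).asIdeal
    𝔓.asIdeal
  rw [Ideal.ramificationIdxIn_eq_ramificationIdx (below L 𝔓).asIdeal 𝔓.asIdeal (Ω ≃ₐ[L] Ω),
    ← Ideal.ramificationIdx'_eq_ramificationIdx (below L 𝔓).asIdeal 𝔓.asIdeal
      (below L 𝔓).ne_bot, h5] at h3
  have h6 : 𝔓.asIdeal.inertia (Ω ≃ₐ[L] Ω) = ⊥ := Subgroup.card_eq_one.1 h3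
  intro σ hσ
  have h7 : σ ∈ 𝔓.asIdeal.inertia (Ω ≃ₐ[L] Ω) := hσ
  rw [h6, Subgroup.mem_bot] at h7
  exact h7

section tower

variable {K F E M : Type} [Field K] [NumberField K] [Field F] [NumberField F] [Field E]
  [NumberField E] [Field M] [NumberField M] [Algebra K F] [Algebra K E] [Algebra K M]
  [Algebra F E] [Algebra F M] [Algebra E M] [IsScalarTower K F E] [IsScalarTower K F M]
  [IsScalarTower K E M] [IsScalarTower F E M]

omit [Algebra K E] [IsScalarTower K F E] [IsScalarTower K E M] in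
theorem int_tower (x : 𝓞 K) : algebraMap (𝓞 F) (𝓞 M) (algebraMap (𝓞 K) (𝓞 F) x) =
    algebraMap (𝓞 K) (𝓞 M) x := by
  apply NumberField.RingOfIntegers.ext
  exact (IsScalarTower.algebraMap_apply K F M (x : K)).symm

theorem below_below (w : HeightOneSpectrum (𝓞 M)) : below K (below F w) = below K w := by
  apply HeightOneSpectrum.ext
  ext x
  rw [mem_below, mem_below, mem_below, int_tower (F := F) (M := M) x]

theorem fM_fM (f : (𝓞 K)[X]) : fM M (fM F f) = fM M f := by
  unfold fM
  rw [Polynomial.map_map]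
  congr 1
  exact RingHom.ext fun x => int_tower (F := F) (M := M) x

/-- Unramified over a subfield. -/
theorem Unr.mid {w : HeightOneSpectrum (𝓞 M)} (h : Unr K w) : Unr F w := by
  intro σ hσ
  have h1 := h (AlgEquiv.restrictScalars K σ) (fun x => hσ x)
  ext x
  exact congrArg (fun τ : M ≃ₐ[K] M => τ x) h1

/-- Valuations in an intermediate field. -/
theorem val_mid [IsGalois K M] [IsGalois F M] {w : HeightOneSpectrum (𝓞 M)} (h : Unr K w)
    (x : K) : (below F w).valuation F (algebraMap K F x) = (below K w).valuation K x := by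
  rw [← val_below h, ← val_below (Unr.mid (F := F) h), ← IsScalarTower.algebraMap_apply]

theorem dsc_fM (g : ℕ) (f : (𝓞 K)[X]) : dsc g (fM F f) = algebraMap (𝓞 K) (𝓞 F) (dsc g f) := by
  unfold dsc fM
  rw [derivative_map, resultant_map_map]

/-- Divisibility by a power of an unramified prime. -/
theorem mem_pow_mid [IsGalois K M] [IsGalois F M] {w : HeightOneSpectrum (𝓞 M)} (h : Unr K w)
    (x : 𝓞 K) (n : ℕ) (hx : algebraMap (𝓞 K) (𝓞 F) x ∈ (below F w).asIdeal ^ n) :
    x ∈ (below K w).asIdeal ^ n := by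
  rw [← HeightOneSpectrum.intValuation_le_pow_iff_mem,
    ← HeightOneSpectrum.valuation_of_algebraMap (K := F)] at hx
  rw [← HeightOneSpectrum.intValuation_le_pow_iff_mem,
    ← HeightOneSpectrum.valuation_of_algebraMap (K := K), ← val_mid (F := F) h]
  exact hx

theorem sep_irr {f : (𝓞 K)[X]} {u : HeightOneSpectrum (𝓞 K)} (h : Irreducible (rd u.asIdeal f)) :
    (rd u.asIdeal f).Separable := by
  haveI : Finite (𝓞 K ⧸ u.asIdeal) := Ideal.finiteQuotientOfFreeOfNeBot _ u.ne_bot
  letI : Field (𝓞 K ⧸ u.asIdeal) := @Ideal.Quotient.field _ _ u.asIdeal u.isMaximal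
  exact PerfectField.separable_of_irreducible h

/-- The data over an intermediate field. -/
theorem data_up [IsGalois K M] [IsGalois F M] {g : ℕ} (hg : 1 ≤ g) {S : Finset ℕ}
    {f : (𝓞 K)[X]} (hf : Data K g S f) (hM : InCl K S f M)
    (hF : ∃ m : ℕ, Module.finrank K F = 2 ^ m) : Data F g S (fM F f) := by
  obtain ⟨m, hm⟩ := hF
  refine ⟨hf.mon.map _, ?_, ?_, fun u => ?_, fun u => ?_⟩
  · rw [fM, hf.mon.natDegree_map, hf.deg]
  · rw [Pool.Agent.H25P.fF_fM]
    refine Pool.Agent.H25P.irr_ext hm hf.irr (hf.mon.map _) ?_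
    rw [hf.mon.natDegree_map, hf.deg]
    exact odd_two_mul_add_one g
  · by_cases hu : ∃ q ∈ S, (q : 𝓞 F) ∈ u.asIdeal
    · exact Or.inl hu
    right
    obtain ⟨w, rfl⟩ := exists_over (K := F) (M := M) u
    intro h1
    rw [dsc_fM] at h1
    rcases hM.ram w with hur | hir
    · have h2 := mem_pow_mid hur _ _ h1
      rcases hf.sqf (below K w) with ⟨q, hq, hqw⟩ | h3
      · apply hu
        refine ⟨q, hq, ?_⟩
        rw [mem_below, map_natCast] at hqw ⊢
        exact hqw
      · exact h3 h2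
    · refine not_mem_of_sep hg hf.mon hf.deg (sep_irr hir) ?_
      rw [← below_below (F := F), mem_below]
      exact Ideal.pow_le_self two_ne_zero h1
  · obtain ⟨w, rfl⟩ := exists_over (K := F) (M := M) u
    rcases hM.ram w with hur | hir
    · rcases hf.unr (below K w) with h | h
      · left
        apply sep_up'
        rw [below_below]
        exact h
      · right
        intro p hp hpw hp2
        refine h p hp ?_ ?_
        · rw [mem_below, map_natCast] at hpw ⊢
          exact hpw
        · refine mem_pow_mid (F := F) hur _ _ ?_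
          rw [map_natCast]
          exact hp2
    · left
      apply sep_up'
      rw [below_below]
      exact sep_irr hir

/-- The embedding in the completion. -/
theorem emb_mid [IsGalois K M] {u : HeightOneSpectrum (𝓞 F)}
    (h : Nonempty (M →ₐ[K] (below K u).adicCompletion K)) :
    Nonempty (E →ₐ[F] u.adicCompletion F) := by
  obtain ⟨φ⟩ := h
  obtain ⟨j, hj⟩ := exists_comp (E := K) u
  haveI : FiniteDimensional F M := Module.Finite.of_restrictScalars_finite K F M
  set C := u.adicCompletion F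
  set ψ : M →+* C := j.comp (φ : M →+* (below K u).adicCompletion K) with hψ
  set pb := Field.powerBasisOfFiniteOfSeparable F M
  set β := pb.gen
  have hdvd : minpoly F β ∣ (minpoly K β).map (algebraMap K F) :=
    minpoly.dvd_map_of_isScalarTower K F β
  have hq : ((minpoly K β).map (algebraMap K M)).Splits := Normal.splits inferInstance β
  have hq2 : (((minpoly K β).map (algebraMap K F)).map (algebraMap F C)).Splits := by
    have h1 := hq.map ψ
    have e : (algebraMap F C).comp (algebraMap K F) = ψ.comp (algebraMap K M) :=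
      RingHom.ext fun x => by
        show algebraMap F C (algebraMap K F x) = j (φ (algebraMap K M x))
        rw [φ.commutes, hj]
    rw [Polynomial.map_map] at h1 ⊢
    rw [e]
    exact h1
  have hne : ((minpoly K β).map (algebraMap K F)).map (algebraMap F C) ≠ 0 :=
    ((minpoly.monic (Algebra.IsIntegral.isIntegral β)).map _ |>.map _).ne_zero
  have hsp : ((minpoly F β).map (algebraMap F C)).Splits :=
    hq2.of_dvd hne (Polynomial.map_dvd _ hdvd)
  obtain ⟨γ, hγ⟩ := hsp.exists_eval_eq_zero (by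
    rw [degree_map]
    exact (minpoly.degree_pos (Algebra.IsIntegral.isIntegral β)).ne')
  rw [eval_map, ← aeval_def] at hγ
  exact ⟨(pb.lift γ hγ).comp (IsScalarTower.toAlgHom F E M)⟩

theorem inf_mid [h : IsUnramifiedAtInfinitePlaces K M] : IsUnramifiedAtInfinitePlaces F E := by
  haveI : IsUnramifiedAtInfinitePlaces F M := IsUnramifiedAtInfinitePlaces.top K F M
  haveI : FiniteDimensional K M := inferInstance
  haveI : FiniteDimensional E M := Module.Finite.of_restrictScalars_finite K E M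
  exact IsUnramifiedAtInfinitePlaces.bot F E M

/-- Completely split primes in intermediate fields. -/
theorem spl_mid [IsGalois K M] [IsGalois F M] [IsGalois E M] [IsGalois F E]
    {w : HeightOneSpectrum (𝓞 M)} (h : Spl K w) : Spl F (below E w) := by
  intro σ hσ
  obtain ⟨τ, hτ⟩ := AlgEquiv.restrictNormalHom_surjective (F := F) (K₁ := E) M σ
  have hτc : ∀ x : E, τ (algebraMap E M x) = algebraMap E M (σ x) := by
    intro x
    rw [← hτ]
    exact (AlgEquiv.restrictNormal_commutes τ E x).symm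
  have hτi : ∀ x : 𝓞 E, τ⁻¹ • (algebraMap (𝓞 E) (𝓞 M) x) = algebraMap (𝓞 E) (𝓞 M) (σ⁻¹ • x) := by
    intro x
    apply NumberField.RingOfIntegers.ext
    show τ⁻¹ (algebraMap E M (x : E)) = algebraMap E M (σ⁻¹ (x : E))
    rw [AlgEquiv.aut_inv, AlgEquiv.symm_apply_eq, hτc]
    congr 1
    exact (AlgEquiv.apply_symm_apply σ _).symm
  -- the primes `w` and `τ w` are over the same prime of `E`
  haveI := w.isPrime
  haveI := (below E w).isPrime
  haveI hlo : w.asIdeal.LiesOver (below E w).asIdeal := ⟨rfl⟩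
  haveI hpr : (τ • w.asIdeal).IsPrime := inferInstance
  haveI hlo' : (τ • w.asIdeal).LiesOver (below E w).asIdeal := ⟨by
    ext x
    show _ ↔ algebraMap (𝓞 E) (𝓞 M) x ∈ τ • w.asIdeal
    rw [Ideal.mem_pointwise_smul_iff_inv_smul_mem, hτi]
    have h1 : x ∈ (below E w).asIdeal ↔ σ⁻¹ • x ∈ (below E w).asIdeal := by
      rw [← HeightOneSpectrum.valuation_lt_one_iff_mem (K := E),
        ← HeightOneSpectrum.valuation_lt_one_iff_mem (K := E)]
      have h2 := hσ (σ⁻¹ (x : E))
      have h3 : σ (σ⁻¹ (x : E)) = (x : E) := AlgEquiv.apply_symm_apply σ _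
      rw [h3] at h2
      show (below E w).valuation E (x : E) < 1 ↔ (below E w).valuation E (σ⁻¹ (x : E)) < 1
      rw [h2]
    rw [h1]
    rfl⟩
  obtain ⟨ρ, hρ⟩ := Ideal.exists_smul_eq_of_isGaloisGroup (below E w).asIdeal w.asIdeal
    (τ • w.asIdeal) (M ≃ₐ[E] M)
  -- `ρ⁻¹ τ` fixes `w`
  set ρ' : M ≃ₐ[K] M := AlgEquiv.restrictScalars K ρ with hρ'
  set τ' : M ≃ₐ[K] M := AlgEquiv.restrictScalars K τ with hτ'
  have h1 : (ρ'⁻¹ * τ') = 1 := by
    apply h
    intro x
    refine Unr.of_ideal (σ := ρ'⁻¹ * τ') (fun y => ?_) x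
    have h2 : (ρ'⁻¹ * τ') • y ∈ w.asIdeal ↔ τ • y ∈ ρ • w.asIdeal := by
      rw [Ideal.mem_pointwise_smul_iff_inv_smul_mem]
      rfl
    rw [h2, hρ, Ideal.mem_pointwise_smul_iff_inv_smul_mem, inv_smul_smul]
  have h2 : τ' = ρ' := (inv_mul_eq_one.1 h1).symm
  ext x
  have h3 : algebraMap E M (σ x) = algebraMap E M x := by
    rw [← hτc]
    have h4 : τ (algebraMap E M x) = ρ (algebraMap E M x) :=
      congrArg (fun θ : M ≃ₐ[K] M => θ (algebraMap E M x)) h2
    rw [h4, ρ.commutes]
  exact (algebraMap E M).injective h3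

/-- Irreducibility modulo a prime of an intermediate field. -/
theorem irr_mid [IsGalois K M] {n : ℕ} (hn : Module.finrank K M = 2 ^ n)
    {w : HeightOneSpectrum (𝓞 M)} {f : (𝓞 K)[X]} (hm : f.Monic) (hodd : Odd f.natDegree)
    (h : Irreducible (rd (below K w).asIdeal f)) :
    Irreducible (rd (below F w).asIdeal (fM F f)) := by
  haveI := w.isPrime
  haveI := w.isMaximal
  haveI := (below K w).isPrime
  haveI := (below K w).isMaximal
  haveI := (below F w).isPrime
  haveI := (below F w).isMaximal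
  haveI hlo : w.asIdeal.LiesOver (below K w).asIdeal := ⟨rfl⟩
  haveI hlo1 : w.asIdeal.LiesOver (below F w).asIdeal := ⟨rfl⟩
  haveI hlo2 : (below F w).asIdeal.LiesOver (below K w).asIdeal := ⟨by
    have := congrArg HeightOneSpectrum.asIdeal (below_below (K := K) (F := F) w)
    exact this.symm⟩
  haveI : IsScalarTower (𝓞 K) (𝓞 F) (𝓞 M) :=
    IsScalarTower.of_algebraMap_eq fun x => (int_tower (F := F) (M := M) x).symm
  haveI := perfect (below K w)
  have h3 := Ideal.card_stabilizer_eq_card_inertia_mul_finrank (G := M ≃ₐ[K] M)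
    (below K w).asIdeal w.asIdeal
  have h4 : w.asIdeal.inertiaDeg (𝓞 K) ∣ 2 ^ n := by
    rw [← hn, ← IsGalois.card_aut_eq_finrank K M]
    exact (Dvd.intro_left _ h3.symm).trans (Subgroup.card_subgroup_dvd_card _)
  have h5 : (below F w).asIdeal.inertiaDeg (𝓞 K) ∣ 2 ^ n :=
    (Ideal.inertiaDeg_below_dvd (R := 𝓞 K) (below F w).asIdeal w.asIdeal).trans h4
  obtain ⟨m, -, h6⟩ := (Nat.dvd_prime_pow Nat.prime_two).1 h5
  rw [Ideal.inertiaDeg_eq_of_isMaximal (below K w).asIdeal (below F w).asIdeal] at h6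
  letI : Field (𝓞 K ⧸ (below K w).asIdeal) := Ideal.Quotient.field _
  letI : Field (𝓞 F ⧸ (below F w).asIdeal) := Ideal.Quotient.field _
  haveI : Finite (𝓞 K ⧸ (below K w).asIdeal) :=
    Ideal.finiteQuotientOfFreeOfNeBot _ (below K w).ne_bot
  haveI : Finite (𝓞 F ⧸ (below F w).asIdeal) :=
    Ideal.finiteQuotientOfFreeOfNeBot _ (below F w).ne_bot
  haveI : Module.Finite (𝓞 K ⧸ (below K w).asIdeal) (𝓞 F ⧸ (below F w).asIdeal) :=
    Module.Finite.of_finite
  have h7 := Pool.Agent.H25P.irr_ext h6 h (hm.map _) (by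
    rw [hm.natDegree_map]
    exact hodd)
  have e : rd (below F w).asIdeal (fM F f) = (rd (below K w).asIdeal f).map
      (algebraMap (𝓞 K ⧸ (below K w).asIdeal) (𝓞 F ⧸ (below F w).asIdeal)) := by
    unfold rd fM
    rw [Polynomial.map_map, Polynomial.map_map]
    congr 1
  rw [e]
  exact h7

/-- A quadratic step in the class. -/
theorem inCl_mid [IsGalois K M] [IsGalois F M] [IsGalois E M] [IsGalois F E] {S : Finset ℕ}
    {f : (𝓞 K)[X]} (hm : f.Monic) (hodd : Odd f.natDegree) (hM : InCl K S f M)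
    (hFE : Module.finrank F E = 2) : InCl F S (fM F f) E := by
  haveI := hM.inf
  obtain ⟨n, hn⟩ := hM.deg
  refine ⟨⟨1, by rw [hFE, pow_one]⟩, fun u hu => ?_, inf_mid (K := K) (F := F) (E := E) (M := M),
    fun q hq v hv => ?_, fun v => ?_⟩
  · refine emb_mid (K := K) (M := M) (hM.two (below K u) ?_)
    rw [mem_below, map_ofNat]
    exact hu
  · obtain ⟨w, rfl⟩ := exists_over (K := E) (M := M) v
    refine spl_mid (K := K) (hM.spl q hq w ?_)
    rw [mem_below, map_natCast] at hv
    exact hv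
  · obtain ⟨w, rfl⟩ := exists_over (K := E) (M := M) v
    rcases hM.ram w with h | h
    · left
      refine unr_of_val fun x => ?_
      have h1 : Unr F w := Unr.mid (K := K) h
      rw [below_below (K := F) (F := E) (M := M)]
      exact val_mid (K := F) (F := E) (M := M) h1 x
    · right
      rw [below_below (K := F) (F := E) (M := M)]
      exact irr_mid hn hm hodd h

/-- The product of the local root numbers over a field with a quadratic step. -/
theorem prd_mid [IsGalois K M] [IsGalois F M] [IsGalois E M] [IsGalois F E] {g : ℕ} (hg : 1 ≤ g)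
    {S : Finset ℕ} {f : (𝓞 K)[X]} (hf : Data K g S f) (hM : InCl K S f M)
    (hF : ∃ m : ℕ, Module.finrank K F = 2 ^ m) (hFE : Module.finrank F E = 2)
    (hi : Irreducible (fF (fM E f)))
    {w : HeightOneSpectrum (𝓞 E) → ℤ} (hw : SignsC K (fM E f) w) (k : ℕ) :
    (-1 : ℤ) ^ (k * Nat.card (InfinitePlace E)) * ∏ᶠ v, w v = 1 := by
  have e : fM E (fM F f) = fM E f := fM_fM (K := K) (F := F) (M := E) f
  have hodd : Odd f.natDegree := by
    rw [hf.deg]
    exact odd_two_mul_add_one g
  refine prd_one (K := F) (M := E) (rcp F) hg (data_up (M := M) hg hf hM hF)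
    (inCl_mid (M := M) hf.mon hodd hM hFE) (by rw [hFE]; norm_num) ?_ (w := w) ?_ k
  · rw [e]
    exact hi
  · rw [e]
    exact ⟨⟨hw.sign, hw.good, fun σ v v' h => hw.conj (AlgEquiv.restrictScalars K σ) v v' h⟩,
      hw.split⟩

end tower

end Pool.Agent.H25C
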