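import Pool.Agent.H25C.Sub2

/-!
# All intermediate fields of the extensions in the class
-/

set_option autoImplicit false
set_option linter.all false

open IsDedekindDomain NumberField Polynomial
open scoped Classical IntermediateField Pointwise

namespace Pool.Agent.H25C

open Pool.Agent.H25U
open Pool.Agent.N783.PF
open Pool.Agent.H25P (fM Fixed Signs real_ext even_inf nat_prime_mem)

section

variable {K M : Type} [Field K] [NumberField K] [Field M] [NumberField M] [Algebra K M]

/-- A quadratic step below an intermediate field of a 2-extension. -/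
theorem exists_step [IsGalois K M] {n : ℕ} (hn : Module.finrank K M = 2 ^ n)
    (E : IntermediateField K M) (hE : E ≠ ⊥) : ∃ F : IntermediateField K M, F ≤ E ∧
      (∃ m : ℕ, Module.finrank K F = 2 ^ m) ∧
      Module.finrank F M = 2 * Module.finrank E M := by
  have h1 : Nat.card E.fixingSubgroup = Module.finrank E M :=
    IsGalois.card_fixingSubgroup_eq_finrank E
  have h2 : Module.finrank K E * Module.finrank E M = 2 ^ n := by
    rw [Module.finrank_mul_finrank, hn]
  obtain ⟨a, -, ha⟩ := (Nat.dvd_prime_pow Nat.prime_two).1 (Dvd.intro_left _ h2)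
  obtain ⟨b, -, hb⟩ := (Nat.dvd_prime_pow Nat.prime_two).1 (Dvd.intro _ h2)
  have hb0 : b ≠ 0 := by
    rintro rfl
    rw [pow_zero] at hb
    exact hE (IntermediateField.finrank_eq_one_iff.1 hb)
  have hab : b + a = n := by
    rw [ha, hb, ← pow_add] at h2
    exact Nat.pow_right_injective (le_refl 2) h2
  haveI : Fact (Nat.Prime 2) := ⟨Nat.prime_two⟩
  have hG : Nat.card (M ≃ₐ[K] M) = 2 ^ n := by rw [IsGalois.card_aut_eq_finrank, hn]
  obtain ⟨H', hH'1, hH'2⟩ := Sylow.exists_subgroup_card_pow_succ (G := M ≃ₐ[K] M) (p := 2)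
    (n := a) (by
      rw [hG]
      exact pow_dvd_pow 2 (by omega)) (H := E.fixingSubgroup) (by rw [h1, ha])
  refine ⟨IntermediateField.fixedField H', ?_, ?_, ?_⟩
  · rw [← IsGalois.fixedField_fixingSubgroup E]
    exact IntermediateField.fixedField_le hH'2
  · have h3 : Module.finrank (IntermediateField.fixedField H') M = 2 ^ (a + 1) := by
      rw [IntermediateField.finrank_fixedField_eq_card, hH'1]
    have h4 : Module.finrank K (IntermediateField.fixedField H') *
        Module.finrank (IntermediateField.fixedField H') M = 2 ^ n := by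
      rw [Module.finrank_mul_finrank, hn]
    obtain ⟨m, -, hm⟩ := (Nat.dvd_prime_pow Nat.prime_two).1 (Dvd.intro _ h4)
    exact ⟨m, hm⟩
  · rw [IntermediateField.finrank_fixedField_eq_card, hH'1, ha, pow_succ, mul_comm]

/-- The statements over all intermediate fields. -/
theorem fin_sub [IsGalois K M] {g : ℕ} (hg : 1 ≤ g) {S : Finset ℕ} {f : (𝓞 K)[X]}
    (hf : Data K g S f) (hM : InCl K S f M) (hi : Irreducible (fF (fM M f)))
    (hs : SelZero (fM M f)) (E : IntermediateField K M) (hE : E ≠ ⊥) :
    Irreducible (fF (fM E f)) ∧ SelZero (fM E f) ∧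
    ∀ w : HeightOneSpectrum (𝓞 E) → ℤ, SignsC K (fM E f) w →
      ∀ k : ℕ, (-1 : ℤ) ^ (k * Nat.card (InfinitePlace E)) * ∏ᶠ v, w v = 1 := by
  obtain ⟨n, hn⟩ := hM.deg
  have hodd : Odd f.natDegree := by
    rw [hf.deg]
    exact odd_two_mul_add_one g
  have h2 : Module.finrank K E * Module.finrank E M = 2 ^ n := by
    rw [Module.finrank_mul_finrank, hn]
  obtain ⟨b, -, hb⟩ := (Nat.dvd_prime_pow Nat.prime_two).1 (Dvd.intro _ h2)
  have hiE : Irreducible (fF (fM E f)) := by
    rw [Pool.Agent.H25P.fF_fM]
    refine Pool.Agent.H25P.irr_ext hb hf.irr (hf.mon.map _) ?_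
    rw [hf.mon.natDegree_map]
    exact hodd
  have e : fM M (fM E f) = fM M f := fM_fM (K := K) (F := E) (M := M) f
  refine ⟨hiE, ?_, ?_⟩
  · refine selZero_down (E := E) (M := M) (hf.mon.map _) ?_ ?_ ?_
    · rw [fM, hf.mon.natDegree_map]
      exact hodd
    · rw [e]
      exact hi
    · rw [e]
      exact hs
  · obtain ⟨F, hFE, hF, hrank⟩ := exists_step hn E hE
    letI : Algebra F E := (IntermediateField.inclusion hFE).toRingHom.toAlgebra
    haveI : IsScalarTower K F E := IsScalarTower.of_algebraMap_eq fun x => by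
      show _ = IntermediateField.inclusion hFE (algebraMap K F x)
      rw [AlgHom.commutes]
    haveI : IsScalarTower F E M := IsScalarTower.of_algebraMap_eq fun x => rfl
    have hpos : 0 < Module.finrank E M := Module.finrank_pos
    haveI : FiniteDimensional F E := Module.Finite.of_restrictScalars_finite K F E
    have h3 : Module.finrank F E = 2 := by
      have h4 := Module.finrank_mul_finrank F E M
      rw [hrank] at h4
      exact Nat.eq_of_mul_eq_mul_right hpos h4
    haveI : Algebra.IsQuadraticExtension F E := { finrank_eq_two' := h3 }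
    haveI : IsGalois F E := inferInstance
    intro w hw k
    exact prd_mid (F := F) (M := M) hg hf hM hF h3 hiE hw k

end

end Pool.Agent.H25C
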