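import Pool.Agent.H25C.Iso
import Pool.Agent.N783.PF.Rec2
import Pool.Agent.N545.PF.TFQ

/-!
# Transfer of Pfister forms
-/

set_option autoImplicit false
set_option linter.all false

open IsDedekindDomain NumberField Polynomial Matrix WithZero Module
open scoped Classical

namespace Pool.Agent.H25C

open Pool.Agent.N783.PF (Apx Tf HV)
open Pool.Agent.N202.M4 (hasse hil IsSymbol)
open Pool.Agent.N424.M4 (h_one h_sq h_prod)
open Pool.Agent.N545.PF (hasse_append gram_mul)

/-! ### Lists -/

section sym

variable {F : Type} [Field F] {h : F → F → ℤ}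

theorem h_self (hs : IsSymbol h) (h2 : (2 : F) ≠ 0) {a : F} (ha : a ≠ 0) : h a a = h a (-1) := by
  have h1 : h a (-a) = 1 := by
    refine hs.one a (-a) ((1 / a + 1) / 2) ((1 / a - 1) / 2) ha (neg_ne_zero.2 ha) ?_
    field_simp
    ring
  have h3 : h a (-a) = h a (-1) * h a a := by
    rw [← hs.mul a (-1) a ha (neg_ne_zero.2 one_ne_zero) ha, neg_one_mul]
  rw [h1] at h3
  rcases hs.pm a a with e | e <;> rcases hs.pm a (-1) with e' | e' <;> rw [e, e'] at h3 ⊢ <;>
    norm_num at h3

theorem h_pow (hs : IsSymbol h) {a b : F} (ha : a ≠ 0) (hb : b ≠ 0) (n : ℕ) :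
    h a (b ^ n) = h a b ^ n := by
  induction n with
  | zero => rw [pow_zero, pow_zero, h_one hs ha]
  | succ n ih => rw [pow_succ, pow_succ, hs.mul _ _ _ ha (pow_ne_zero _ hb) hb, ih]

theorem h_scale (hs : IsSymbol h) {a c : F} (ha : a ≠ 0) (hc : c ≠ 0) (L : List F)
    (hL : ∀ x ∈ L, x ≠ 0) : ((L.map (c * ·)).map (h a)).prod = h a c ^ L.length * h a L.prod := by
  induction L with
  | nil => simp [h_one hs ha]
  | cons x l ih =>
    have hx : x ≠ 0 := hL x List.mem_cons_self
    have hl : ∀ y ∈ l, y ≠ 0 := fun y hy => hL y (List.mem_cons_of_mem _ hy)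
    have hp : l.prod ≠ 0 := by
      intro h0
      exact hl 0 (List.prod_eq_zero_iff.1 h0) rfl
    rw [List.map_cons, List.map_cons, List.prod_cons, ih hl, List.length_cons, List.prod_cons,
      hs.mul a c x ha hc hx, hs.mul a x l.prod ha hx hp, pow_succ]
    ring

theorem sq_one' (hs : IsSymbol h) (a b : F) : h a b * h a b = 1 := by
  rcases hs.pm a b with e | e <;> rw [e] <;> norm_num

/-- The Hasse invariant of `L ⊥ c L`. -/
theorem hasse_dbl (hs : IsSymbol h) (h2 : (2 : F) ≠ 0) {c : F} (hc : c ≠ 0) (L : List F)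
    (hL : ∀ x ∈ L, x ≠ 0) :
    hasse h (L ++ L.map (c * ·)) = h c (-1) ^ (L.length.choose 2) * h (-c) L.prod := by
  induction L with
  | nil =>
    simp only [List.map_nil, List.append_nil, List.length_nil, List.prod_nil]
    rw [h_one hs (neg_ne_zero.2 hc), hasse]
    simp
  | cons a l ih =>
    have ha : a ≠ 0 := hL a List.mem_cons_self
    have hl : ∀ y ∈ l, y ≠ 0 := fun y hy => hL y (List.mem_cons_of_mem _ hy)
    have hp : l.prod ≠ 0 := by
      intro h0
      exact hl 0 (List.prod_eq_zero_iff.1 h0) rfl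
    have hca : c * a ≠ 0 := mul_ne_zero hc ha
    have hnc : -c ≠ 0 := neg_ne_zero.2 hc
    have h10 : (-1 : F) ≠ 0 := neg_ne_zero.2 one_ne_zero
    have ih' := ih hl
    rw [hasse_append] at ih' ⊢
    rw [List.map_cons, hasse, hasse, List.map_cons, List.prod_cons]
    simp only [List.map_cons, List.prod_cons]
    -- the rows
    have r1 : (l.map (h a)).prod = h a l.prod := h_prod hs ha l hl
    have r2 : ((l.map (c * ·)).map (h (c * a))).prod = h (c * a) c ^ l.length * h (c * a) l.prod :=
      h_scale hs hca hc l hl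
    have r3 : ((l.map (c * ·)).map (h a)).prod = h a c ^ l.length * h a l.prod :=
      h_scale hs ha hc l hl
    have r4 : (l.map fun x => h x (c * a) * ((l.map (c * ·)).map (h x)).prod).prod =
        h (c * a) l.prod * (l.map fun x => ((l.map (c * ·)).map (h x)).prod).prod := by
      rw [List.prod_map_mul]
      congr 1
      rw [← h_prod hs hca l hl]
      congr 1
      exact List.map_congr_left fun x _ => hs.symm x (c * a)
    rw [r1, r2, r3, r4, List.length_cons, Nat.choose_succ_succ' l.length 1, Nat.choose_one_right,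
      pow_add, hs.mul (-c) a l.prod hnc ha hp]
    have e1 : h (c * a) c = h c (-1) * h a c := by
      rw [hs.symm, hs.mul c c a hc hc ha, h_self hs h2 hc, hs.symm c a]
    have e2 : h (c * a) l.prod = h c l.prod * h a l.prod := by
      rw [hs.symm, hs.mul l.prod c a hp hc ha, hs.symm l.prod c, hs.symm l.prod a]
    have e3 : h a (c * a) = h a c * h a (-1) := by
      rw [hs.mul a c a ha hc ha, h_self hs h2 ha]
    have e4 : h (-c) a = h a c * h a (-1) := by
      rw [hs.symm, ← neg_one_mul c, hs.mul a (-1) c ha h10 hc, mul_comm]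
    rw [e1, e2, e3, e4]
    have s1 := sq_one' hs a l.prod
    have s2 := sq_one' hs c l.prod
    have s3 : (h a c ^ l.length) * (h a c ^ l.length) = 1 := by
      rw [← mul_pow, sq_one' hs, one_pow]
    rw [mul_pow]
    have ih2 : hasse h l * hasse h (l.map (c * ·)) *
        (l.map fun x => ((l.map (c * ·)).map (h x)).prod).prod =
        h c (-1) ^ l.length.choose 2 * h (-c) l.prod := ih'
    generalize hasse h l = A at *
    generalize hasse h (l.map (c * ·)) = B at *
    generalize (l.map fun x => ((l.map (c * ·)).map (h x)).prod).prod = P at *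
    generalize h a l.prod = x1 at *
    generalize h c l.prod = x2 at *
    generalize h a c ^ l.length = x3 at *
    generalize h c (-1) ^ l.length = x4 at *
    generalize h c (-1) ^ l.length.choose 2 = x5 at *
    generalize h (-c) l.prod = x6 at *
    generalize h a c = x7 at *
    generalize h a (-1) = x8 at *
    have : x1 * A * (x4 * x3 * (x2 * x1) * B) * (x7 * x8 * (x3 * x1) * (x2 * x1 * P)) =
        (A * B * P) * x4 * x7 * x8 * (x1 * x1) * (x1 * x1) * (x2 * x2) * (x3 * x3) := by ring
    rw [this, ih2, s1, s2, s3]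
    ring

end sym

end Pool.Agent.H25C
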