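import Pool.Agent.H25C.Tfr

/-!
# The Hasse invariant of the transfer of a Pfister form with a rational slot
-/

set_option autoImplicit false
set_option linter.all false

open IsDedekindDomain NumberField Polynomial Matrix WithZero Module
open scoped Classical

namespace Pool.Agent.H25C

open Pool.Agent.N783.PF (Apx Tf HV)
open Pool.Agent.N202.M4 (hasse hil IsSymbol)
open Pool.Agent.N424.M4 (h_one h_sq h_prod)
open Pool.Agent.N545.PF (hasse_append gram_mul)

variable {K : Type} [Field K] [NumberField K]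

/-- The form `x y` of the trace, scaled by `x`. -/
noncomputable def Tx (x : K) : Matrix (Fin (finrank ℚ K)) (Fin (finrank ℚ K)) ℚ :=
  Matrix.of fun i j => Algebra.trace ℚ K (x * finBasis ℚ K i * finBasis ℚ K j)

theorem Tx_eq (x : K) : Tx x = (Algebra.leftMulMatrix (finBasis ℚ K) x)ᵀ * Tx 1 := by
  have h := gram_mul (finBasis ℚ K) x
  unfold Tx
  have e : (Matrix.of fun i j => Algebra.trace ℚ K (1 * finBasis ℚ K i * finBasis ℚ K j)) =
      Matrix.of fun i j => Algebra.trace ℚ K (finBasis ℚ K i * finBasis ℚ K j) := by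
    ext i j
    rw [of_apply, of_apply, one_mul]
  rw [e]
  exact h

theorem Tx_det (x : K) : (Tx x).det = Algebra.norm ℚ x * (Tx (1 : K)).det := by
  rw [Tx_eq, Matrix.det_mul, Matrix.det_transpose, ← Algebra.norm_eq_matrix_det]

/-- The binary form. -/
noncomputable def M2 (u : K) : Matrix (Fin (finrank ℚ K) ⊕ Fin (finrank ℚ K))
    (Fin (finrank ℚ K) ⊕ Fin (finrank ℚ K)) ℚ := Matrix.fromBlocks (Tx 1) 0 0 (Tx (-u))

theorem Tx_symm (x : K) : (Tx x).IsSymm := by
  ext i j
  rw [Matrix.transpose_apply, Tx, of_apply, of_apply]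
  congr 1
  ring

theorem M2_symm (u : K) : (M2 u).IsSymm := by
  unfold M2
  rw [Matrix.IsSymm, Matrix.fromBlocks_transpose, (Tx_symm (1 : K)).eq, (Tx_symm (-u)).eq, Matrix.transpose_zero]

theorem M2_det (u : K) : (M2 u).det =
    (-1) ^ (finrank ℚ K) * Algebra.norm ℚ u * (Tx (1 : K)).det ^ 2 := by
  unfold M2
  rw [Matrix.det_fromBlocks_zero₁₂, Tx_det (-u)]
  have e : Algebra.norm ℚ (-u) = (-1) ^ (finrank ℚ K) * Algebra.norm ℚ u := by
    rw [← neg_one_mul, map_mul]
    congr 1
    have h1 : (-1 : K) = algebraMap ℚ K (-1) := by rw [map_neg, map_one]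
    rw [h1, Algebra.norm_algebraMap]
  rw [e]
  ring

theorem Tx_one_det : (Tx (1 : K)).det ≠ 0 := by
  have h := Algebra.discr_not_zero_of_basis ℚ (finBasis ℚ K)
  rw [Algebra.discr_def] at h
  intro h0
  apply h
  rw [← h0]
  congr 1
  ext i j
  rw [Algebra.traceMatrix_apply, Algebra.traceForm_apply, Tx, of_apply, one_mul]

/-- The index types. -/
def idx (n : ℕ) : (Fin n ⊕ Fin n) ⊕ (Fin n ⊕ Fin n) ≃ Fin 4 × Fin n where
  toFun := Sum.elim (Sum.elim (fun k => (0, k)) (fun k => (1, k)))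
    (Sum.elim (fun k => (2, k)) (fun k => (3, k)))
  invFun p := if p.1 = 0 then Sum.inl (Sum.inl p.2) else if p.1 = 1 then Sum.inl (Sum.inr p.2)
    else if p.1 = 2 then Sum.inr (Sum.inl p.2) else Sum.inr (Sum.inr p.2)
  left_inv := by
    rintro ((k | k) | (k | k)) <;> simp
  right_inv := by
    rintro ⟨i, k⟩
    fin_cases i <;> simp

theorem Tf_pf (u : K) (p : ℚ) : (Tf (Matrix.diagonal (Pf u (algebraMap ℚ K p)))).submatrix
    (idx (finrank ℚ K)) (idx (finrank ℚ K)) =
    Matrix.fromBlocks (M2 u) 0 0 ((-p) • M2 u) := by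
  have hlin : ∀ x : K, Algebra.trace ℚ K ((p : K) * x) = p * Algebra.trace ℚ K x := by
    intro x
    rw [← eq_ratCast (algebraMap ℚ K) p, ← Algebra.smul_def, map_smul, smul_eq_mul]
  ext i j
  rcases i with (i | i) | (i | i) <;> rcases j with (j | j) | (j | j) <;>
    simp [Tf, idx, Pf, M2, Tx, Matrix.diagonal_apply]
  · congr 1
    ring
  · rw [← hlin]
    congr 1
    ring
  · rw [← hlin]
    congr 1
    ring

theorem tf_diag (u : K) (p : ℚ) {l : Fin (finrank ℚ K + finrank ℚ K) → ℚ}
    {T : Matrix (Fin (finrank ℚ K + finrank ℚ K)) (Fin (finrank ℚ K + finrank ℚ K)) ℚ}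
    (hT : T * Matrix.diagonal l * Tᵀ = (M2 u).submatrix finSumFinEquiv.symm finSumFinEquiv.symm) :
    ((Matrix.fromBlocks T 0 0 T).submatrix finSumFinEquiv.symm finSumFinEquiv.symm) *
      Matrix.diagonal (Fin.append l (fun i => -p * l i)) *
      ((Matrix.fromBlocks T 0 0 T).submatrix finSumFinEquiv.symm finSumFinEquiv.symm)ᵀ =
      (Tf (Matrix.diagonal (Pf u (algebraMap ℚ K p)))).submatrix
        (finSumFinEquiv.symm.trans ((Equiv.sumCongr finSumFinEquiv.symm finSumFinEquiv.symm).trans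
          (idx (finrank ℚ K))))
        (finSumFinEquiv.symm.trans ((Equiv.sumCongr finSumFinEquiv.symm finSumFinEquiv.symm).trans
          (idx (finrank ℚ K)))) := by
  have h1 : Matrix.diagonal (Fin.append l (fun i => -p * l i)) =
      (Matrix.fromBlocks (Matrix.diagonal l) 0 0 (Matrix.diagonal fun i => -p * l i)).submatrix
        finSumFinEquiv.symm finSumFinEquiv.symm := by
    rw [Matrix.fromBlocks_diagonal, Matrix.submatrix_diagonal_equiv]
    congr 1
    funext i
    obtain ⟨j, rfl⟩ := finSumFinEquiv.surjective i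
    rcases j with j | j
    · rw [Function.comp_apply, Equiv.symm_apply_apply, finSumFinEquiv_apply_left, Fin.append_left,
        Sum.elim_inl]
    · rw [Function.comp_apply, Equiv.symm_apply_apply, finSumFinEquiv_apply_right,
        Fin.append_right, Sum.elim_inr]
  rw [h1, Matrix.transpose_submatrix, Matrix.submatrix_mul_equiv, Matrix.submatrix_mul_equiv,
    Matrix.fromBlocks_multiply, Matrix.fromBlocks_transpose, Matrix.fromBlocks_multiply]
  simp only [Matrix.zero_mul, Matrix.mul_zero, add_zero, zero_add, Matrix.transpose_zero]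
  have h2 : (Matrix.diagonal fun i => -p * l i) = (-p) • Matrix.diagonal l := by
    ext i j
    rw [Matrix.smul_apply, Matrix.diagonal_apply, Matrix.diagonal_apply, smul_ite, smul_zero,
      smul_eq_mul]
  rw [h2, Matrix.mul_smul, Matrix.smul_mul, hT]
  have h3 : (Tf (Matrix.diagonal (Pf u (algebraMap ℚ K p)))).submatrix
        (finSumFinEquiv.symm.trans ((Equiv.sumCongr finSumFinEquiv.symm finSumFinEquiv.symm).trans
          (idx (finrank ℚ K))))
        (finSumFinEquiv.symm.trans ((Equiv.sumCongr finSumFinEquiv.symm finSumFinEquiv.symm).trans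
          (idx (finrank ℚ K)))) =
      (((Tf (Matrix.diagonal (Pf u (algebraMap ℚ K p)))).submatrix
        (idx (finrank ℚ K)) (idx (finrank ℚ K))).submatrix
        (Equiv.sumCongr finSumFinEquiv.symm finSumFinEquiv.symm)
        (Equiv.sumCongr finSumFinEquiv.symm finSumFinEquiv.symm)).submatrix
        finSumFinEquiv.symm finSumFinEquiv.symm := rfl
  rw [h3, Tf_pf]
  congr 1
  ext i j
  rcases i with i | i <;> rcases j with j | j <;> simp

/-- The Hasse invariant of the transfer. -/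
theorem hv_pf (p : ℕ) [hp : Fact p.Prime] (u : K) (hu : u ≠ 0) :
    HV ((Tf (Matrix.diagonal (Pf u (algebraMap ℚ K p)))).map (Rat.castHom ℚ_[p]))
      (hil ℚ_[p] (-p) (-1) ^ ((finrank ℚ K + finrank ℚ K).choose 2) *
        hil ℚ_[p] p (((-1) ^ (finrank ℚ K) * Algebra.norm ℚ u : ℚ) : ℚ_[p])) := by
  have hs : IsSymbol (hil ℚ_[p]) := Pool.Agent.N446.M4.sym_ p
  have hp0 : (p : ℚ_[p]) ≠ 0 := by exact_mod_cast hp.out.ne_zero
  have hN : Algebra.norm ℚ u ≠ 0 := by
    rw [Ne, Algebra.norm_eq_zero_iff]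
    exact hu
  have hdet : (M2 u).det ≠ 0 := by
    rw [M2_det]
    exact mul_ne_zero (mul_ne_zero (pow_ne_zero _ (neg_ne_zero.2 one_ne_zero)) hN)
      (pow_ne_zero _ Tx_one_det)
  obtain ⟨l, T, hl, hTd, hT⟩ := Pool.Agent.N835.PQ.exists_diag
    ((M2 u).submatrix finSumFinEquiv.symm finSumFinEquiv.symm)
    (by rw [Matrix.IsSymm, Matrix.transpose_submatrix, (M2_symm u).eq])
    (by
      rw [Matrix.det_submatrix_equiv_self]
      exact ne_of_eq_of_ne (Pool.Agent.N783.PF.R2.det_inst _ _ _) hdet)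
  have h1 := Pool.Agent.N783.PF.R2.HV_map ℚ_[p]
    (Tf (Matrix.diagonal (Pf u (algebraMap ℚ K p)))) _ (a := Fin.append l (fun i => -(p : ℚ) * l i))
    (by
      intro i
      refine Fin.addCases (fun j => ?_) (fun j => ?_) i
      · rw [Fin.append_left]
        exact hl j
      · rw [Fin.append_right]
        exact mul_ne_zero (neg_ne_zero.2 (by exact_mod_cast hp.out.ne_zero)) (hl j))
    (tf_diag u (p : ℚ) hT)
  have h2 : (List.ofFn fun i => ((Fin.append l (fun i => -(p : ℚ) * l i) i : ℚ) : ℚ_[p])) =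
      (List.ofFn fun i => (l i : ℚ_[p])) ++ (List.ofFn fun i => (l i : ℚ_[p])).map
        ((-(p : ℚ_[p])) * ·) := by
    rw [List.map_ofFn, ← List.ofFn_fin_append]
    congr 1
    funext i
    refine Fin.addCases (fun j => ?_) (fun j => ?_) i
    · rw [Fin.append_left, Fin.append_left]
    · rw [Fin.append_right, Fin.append_right]
      simp
  rw [h2, hasse_dbl hs two_ne_zero (neg_ne_zero.2 hp0) _ (by
    intro x hx
    obtain ⟨i, rfl⟩ := List.mem_ofFn.1 hx
    exact_mod_cast hl i), List.length_ofFn, neg_neg, List.prod_ofFn] at h1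
  have h3 : (∏ i, (l i : ℚ_[p])) = ((((-1) ^ (finrank ℚ K) * Algebra.norm ℚ u : ℚ)) : ℚ_[p]) *
      (((Tx (1 : K)).det / T.det : ℚ) : ℚ_[p]) ^ 2 := by
    have h4 : (∏ i, l i) = ((-1) ^ (finrank ℚ K) * Algebra.norm ℚ u) *
        ((Tx (1 : K)).det / T.det) ^ 2 := by
      have h5 := congrArg Matrix.det hT
      rw [Matrix.det_mul, Matrix.det_mul, Matrix.det_transpose, Matrix.det_diagonal,
        Matrix.det_submatrix_equiv_self, M2_det] at h5
      rw [div_pow]
      field_simp
      rw [← h5]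
      ring
    rw [← Rat.cast_prod, h4]
    push_cast
    ring
  rw [h3, h_sq hs hp0 (by
      have : ((-1) ^ (finrank ℚ K) * Algebra.norm ℚ u : ℚ) ≠ 0 :=
        mul_ne_zero (pow_ne_zero _ (neg_ne_zero.2 one_ne_zero)) hN
      exact_mod_cast this) (by
      have : ((Tx (1 : K)).det / T.det : ℚ) ≠ 0 := div_ne_zero Tx_one_det hTd
      exact_mod_cast this)] at h1
  exact h1

end Pool.Agent.H25C
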